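import Pool.Agent.Lib.MP_436e1a_gt.A.LocInj

/-! The vector field that freezes a moving compact piece of a submanifold. -/

open scoped ContDiff Topology
open Set

namespace Pool.Agent.CSP

variable {V W Z : Type} [NormedAddCommGroup V] [NormedSpace ℝ V] [FiniteDimensional ℝ V]
  [NormedAddCommGroup W] [NormedSpace ℝ W] [FiniteDimensional ℝ W]
  [NormedAddCommGroup Z] [NormedSpace ℝ Z] [FiniteDimensional ℝ Z]

/-- an immersion has a smooth local left inverse. -/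
theorem exists_loc_leftInv {O : Set V} (hO : IsOpen O) {f : V → W} (hf : ContDiffOn ℝ ∞ f O)
    {x₀ : V} (h0 : x₀ ∈ O) (hi : ∀ v, fderiv ℝ f x₀ v = 0 → v = 0) :
    ∃ (N : Set W) (Λ : W → V), IsOpen N ∧ f x₀ ∈ N ∧ ContDiffOn ℝ ∞ Λ N ∧
      ∀ᶠ x in 𝓝 x₀, Λ (f x) = x := by
  obtain ⟨C₀, hC₀⟩ := LinearMap.exists_leftInverse_of_injective
    (fderiv ℝ f x₀ : V →ₗ[ℝ] W) (LinearMap.ker_eq_bot'.2 hi)
  let C : W →L[ℝ] V := LinearMap.toContinuousLinearMap C₀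
  have hg : ContDiffOn ℝ ∞ (fun x => C (f x)) O := C.contDiff.comp_contDiffOn hf
  have hga : ∀ x ∈ O, ContDiffAt ℝ ∞ (fun x => C (f x)) x := fun x hx =>
    hg.contDiffAt (hO.mem_nhds hx)
  have hd : HasFDerivAt (fun x => C (f x)) (ContinuousLinearEquiv.refl ℝ V : V →L[ℝ] V) x₀ := by
    have h1 := C.hasFDerivAt.comp x₀
      ((hf.contDiffAt (hO.mem_nhds h0)).differentiableAt (by simp)).hasFDerivAt
    refine h1.congr_fderiv ?_
    ext v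
    exact LinearMap.congr_fun hC₀ v
  let Φ := (hga x₀ h0).toOpenPartialHomeomorph _ hd (by simp)
  have hΦ : (Φ : V → V) = fun x => C (f x) := rfl
  have hs : x₀ ∈ Φ.source := (hga x₀ h0).mem_toOpenPartialHomeomorph_source hd (by simp)
  let U : Set V := O ∩ (fderiv ℝ fun x => C (f x)) ⁻¹'
    range ((↑) : (V ≃L[ℝ] V) → V →L[ℝ] V)
  have hU : IsOpen U := (hg.continuousOn_fderiv_of_isOpen hO (by simp)).isOpen_inter_preimage hO
    ContinuousLinearEquiv.isOpen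
  have hU0 : x₀ ∈ U := ⟨h0, _, hd.fderiv.symm⟩
  refine ⟨C ⁻¹' (Φ.target ∩ Φ.symm ⁻¹' U), fun w => Φ.symm (C w),
    (Φ.isOpen_inter_preimage_symm hU).preimage C.continuous, ⟨Φ.map_source hs, ?_⟩, ?_, ?_⟩
  · have : Φ.symm (C (f x₀)) = x₀ := Φ.left_inv hs
    change Φ.symm (C (f x₀)) ∈ U
    rwa [this]
  · rintro w ⟨h1, h2, A, hA⟩
    refine (ContDiffAt.comp w (Φ.contDiffAt_symm (f₀' := A) h1 ?_ (hga _ h2))
      C.contDiff.contDiffAt).contDiffWithinAt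
    rw [hA]
    exact ((hga _ h2).differentiableAt (by simp)).hasFDerivAt
  · filter_upwards [Φ.open_source.mem_nhds hs] with x hx using Φ.left_inv hx

omit [FiniteDimensional ℝ V] [FiniteDimensional ℝ W] in
theorem frz_ne {O : Set (ℝ × V)} (hO : IsOpen O) {f : ℝ × V → W} (hf : ContDiffOn ℝ ∞ f O)
    {t₀ : ℝ} {y : V} (hy : (t₀, y) ∈ O) {z₀ : W} (h : z₀ ≠ f (t₀, y)) :
    ∀ᶠ q : (ℝ × W) × V in 𝓝 ((t₀, z₀), y), q.1.2 ≠ f (q.1.1, q.2) := by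
  have h1 : ContinuousAt (fun q : (ℝ × W) × V => f (q.1.1, q.2)) ((t₀, z₀), y) :=
    ContinuousAt.comp (g := f) (f := fun q : (ℝ × W) × V => (q.1.1, q.2))
      (hf.continuousOn.continuousAt (hO.mem_nhds hy)) (by fun_prop)
  exact (ContinuousAt.sub (f := fun q : (ℝ × W) × V => q.1.2) (by fun_prop) h1).eventually_ne
    (sub_ne_zero.2 h) |>.mono fun q hq => sub_ne_zero.1 hq

/-- local form for one sheet -/
theorem frz_one {O : Set (ℝ × V)} (hO : IsOpen O) {f : ℝ × V → W} (hf : ContDiffOn ℝ ∞ f O)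
    {κ : V → Z} (hκ : ContDiff ℝ ∞ κ) {t₀ : ℝ} {x₀ : V} (h0 : (t₀, x₀) ∈ O) (hk : κ x₀ = 0)
    (hi : ∀ v, fderiv ℝ f (t₀, x₀) (0, v) = 0 → fderiv ℝ κ x₀ v = 0 → v = 0) :
    ∃ U ∈ 𝓝 (t₀, f (t₀, x₀)), ∃ g : ℝ × W → W, ContDiffOn ℝ ∞ g U ∧ (∀ z, g (t₀, z) = 0) ∧
      ∀ᶠ p : ℝ × V in 𝓝 (t₀, x₀), κ p.2 = 0 → g (p.1, f p) = f (t₀, p.2) - f p := by
  let F : ℝ × V → ℝ × W × Z := fun p => (p.1, f p, κ p.2)
  have hF : ContDiffOn ℝ ∞ F O :=
    contDiffOn_fst.prodMk (hf.prodMk (hκ.comp contDiff_snd).contDiffOn)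
  have hd : HasFDerivAt F ((ContinuousLinearMap.fst ℝ ℝ V).prod ((fderiv ℝ f (t₀, x₀)).prod
      ((fderiv ℝ κ x₀).comp (ContinuousLinearMap.snd ℝ ℝ V)))) (t₀, x₀) :=
    hasFDerivAt_fst.prodMk
      (((hf.contDiffAt (hO.mem_nhds h0)).differentiableAt (by simp)).hasFDerivAt.prodMk
        (HasFDerivAt.comp (t₀, x₀) (g := κ) (f := Prod.snd)
          ((hκ.differentiable (by simp)) x₀).hasFDerivAt hasFDerivAt_snd))
  obtain ⟨N, Λ, hN, hN0, hΛ, hl⟩ := exists_loc_leftInv hO hF h0 (fun v hv => by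
    rw [hd.fderiv] at hv
    obtain ⟨s, v⟩ := v
    have h1 : s = 0 := congrArg Prod.fst hv
    subst h1
    have h2 := hi v (congrArg (fun q => q.2.1) hv) (congrArg (fun q => q.2.2) hv)
    rw [h2]; rfl)
  let j : ℝ × W → ℝ × W × Z := fun p => (p.1, p.2, 0)
  have hj : ContDiff ℝ ∞ j := by fun_prop
  have hj0 : j (t₀, f (t₀, x₀)) = F (t₀, x₀) := by simp only [j, F, hk]
  have hP : ContDiffOn ℝ ∞ (fun p => (Λ (j p)).2) (j ⁻¹' N) :=
    (hΛ.comp hj.contDiffOn fun _ h => h).snd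
  have hjN : j ⁻¹' N ∈ 𝓝 (t₀, f (t₀, x₀)) :=
    (hN.preimage hj.continuous).mem_nhds (by rw [mem_preimage, hj0]; exact hN0)
  have hP0 : (Λ (j (t₀, f (t₀, x₀)))).2 = x₀ := by rw [hj0, hl.self_of_nhds]
  have hc := hP.continuousOn.continuousAt hjN
  have h1 : ∀ᶠ p in 𝓝 (t₀, f (t₀, x₀)), (t₀, (Λ (j p)).2) ∈ O :=
    (continuousAt_const.prodMk hc).eventually (hO.mem_nhds (by simp only [hP0]; exact h0))
  have h2 : ∀ᶠ p in 𝓝 (t₀, f (t₀, x₀)), (p.1, (Λ (j p)).2) ∈ O :=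
    (continuousAt_fst.prodMk hc).eventually (hO.mem_nhds (by simp only [hP0]; exact h0))
  refine ⟨_, Filter.inter_mem hjN (h1.and h2),
    fun p => f (t₀, (Λ (j p)).2) - f (p.1, (Λ (j p)).2), ?_, fun z => sub_self _, ?_⟩
  · exact (hf.comp (contDiffOn_const.prodMk (hP.mono inter_subset_left)) fun p hp => hp.2.1).sub
      (hf.comp (contDiffOn_fst.prodMk (hP.mono inter_subset_left)) fun p hp => hp.2.2)
  · filter_upwards [hl] with p hp hp0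
    have : j (p.1, f p) = F p := by simp only [j, F, hp0]
    simp only [this, hp]

/-- `f i (t, ·)` is a family of maps, at time `t₀` an injective immersion of the compact pieces `K i`
of the level sets `κ i = 0`. There is a smooth time dependent field `e` that vanishes at time `t₀`
and on `C` and moves `f i (t, x)` back to `f i (t₀, x)`. -/
theorem exists_freeze {ι : Type} [Finite ι] {t₀ : ℝ} {O : ι → Set (ℝ × V)} (hO : ∀ i, IsOpen (O i))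
    {f : ι → ℝ × V → W} (hf : ∀ i, ContDiffOn ℝ ∞ (f i) (O i)) {κ : ι → V → Z}
    (hκ : ∀ i, ContDiff ℝ ∞ (κ i)) {K : ι → Set V} (hK : ∀ i, IsCompact (K i))
    (hKO : ∀ i, ∀ x ∈ K i, (t₀, x) ∈ O i) (hK0 : ∀ i, ∀ x ∈ K i, κ i x = 0)
    (hi : ∀ i, ∀ x ∈ K i, ∀ v, fderiv ℝ (f i) (t₀, x) (0, v) = 0 → fderiv ℝ (κ i) x v = 0 → v = 0)
    (hj : ∀ i j, ∀ x ∈ K i, ∀ y ∈ K j, f i (t₀, x) = f j (t₀, y) → i = j ∧ x = y)
    {C : Set W} (hC : IsClosed C) (hCK : ∀ i, ∀ x ∈ K i, f i (t₀, x) ∉ C) :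
    ∃ θ > 0, ∃ e : ℝ × W → W, ContDiff ℝ ∞ e ∧ (∀ z, e (t₀, z) = 0) ∧ (∀ t, ∀ z ∈ C, e (t, z) = 0) ∧
      ∀ t, |t - t₀| ≤ θ → ∀ i, ∀ x ∈ K i, (t, x) ∈ O i ∧
        e (t, f i (t, x)) = f i (t₀, x) - f i (t, x) := by
  let G : Set (ℝ × W) := {p | ∃ U ∈ 𝓝 p, ∃ g : ℝ × W → W, ContDiffOn ℝ ∞ g U ∧ ∀ q ∈ U,
    (q.1 = t₀ → g q = 0) ∧ (q.2 ∈ C → g q = 0) ∧
      ∀ i, ∀ x ∈ K i, q.2 = f i (q.1, x) → g q = f i (t₀, x) - f i (q.1, x)}
  have hG : IsOpen G := isOpen_iff_mem_nhds.2 fun p ⟨U, hU, h⟩ =>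
    (eventually_mem_nhds_iff.2 hU).mono fun q hq => ⟨U, hq, h⟩
  have hG0 : ∀ i, ∀ x ∈ K i, (t₀, f i (t₀, x)) ∈ G := fun i x hx => by
    obtain ⟨U, hU, g, hg, hg0, hg1⟩ :=
      frz_one (hO i) (hf i) (hκ i) (hKO i x hx) (hK0 i x hx) (hi i x hx)
    have h1 : ∀ᶠ q : ℝ × W in 𝓝 (t₀, f i (t₀, x)), q.2 ∉ C :=
      (hC.isOpen_compl.preimage continuous_snd).mem_nhds (hCK i x hx)
    have h2 : ∀ᶠ q : ℝ × W in 𝓝 (t₀, f i (t₀, x)), ∀ j, ∀ y ∈ K j,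
        y ∈ K j → q.2 = f j (q.1, y) → g q = f j (t₀, y) - f j (q.1, y) := by
      refine Filter.eventually_all.2 fun j =>
        (hK j).eventually_forall_of_forall_eventually fun y hy => ?_
      by_cases h : f i (t₀, x) = f j (t₀, y)
      · obtain ⟨rfl, rfl⟩ := hj i j x hx y hy h
        have hc : ContinuousAt (fun q : (ℝ × W) × V => (q.1.1, q.2)) ((t₀, f i (t₀, x)), x) := by
          fun_prop
        filter_upwards [hc.eventually hg1] with q hq h3 h4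
        rw [← hq (hK0 i _ h3), ← h4]
      · exact (frz_ne (hO j) (hf j) (hKO j y hy) h).mono fun q hq _ h4 => absurd h4 hq
    refine ⟨_, Filter.inter_mem hU (h1.and h2), g, hg.mono inter_subset_left, fun q hq =>
      ⟨fun h => ?_, fun h => absurd h hq.2.1, fun j y hy => hq.2.2 j y hy hy⟩⟩
    rw [← hg0 q.2, ← h]
  have hev : ∀ᶠ t in 𝓝 t₀, ∀ i, ∀ x ∈ K i, (t, x) ∈ O i ∧ (t, f i (t, x)) ∈ G := by
    refine Filter.eventually_all.2 fun i =>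
      (hK i).eventually_forall_of_forall_eventually fun x hx => ?_
    have h1 := (hO i).mem_nhds (hKO i x hx)
    exact Filter.Eventually.and h1 ((continuousAt_fst.prodMk
      ((hf i).continuousOn.continuousAt h1)).eventually (hG.mem_nhds (hG0 i x hx)))
  obtain ⟨θ, hθ, hb⟩ := Metric.nhds_basis_closedBall.eventually_iff.1 hev
  let T : Set (ℝ × W) := ⋃ i, (fun p => (p.1, f i p)) '' (Metric.closedBall t₀ θ ×ˢ K i)
  have hT : IsClosed T := isClosed_iUnion_of_finite fun i =>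
    (((isCompact_closedBall t₀ θ).prod (hK i)).image_of_continuousOn (continuousOn_fst.prodMk
      ((hf i).continuousOn.mono fun p hp => (hb hp.1 i _ hp.2).1))).isClosed
  obtain ⟨e, he⟩ := exists_contMDiffMap_forall_mem_convex_of_local (n := ⊤)
    (modelWithCornersSelf ℝ (ℝ × W))
    (t := fun q : ℝ × W => {e : W | (q.1 = t₀ → e = 0) ∧ (q.2 ∈ C → e = 0) ∧
      ∀ i, ∀ x ∈ K i, |q.1 - t₀| ≤ θ → q.2 = f i (q.1, x) → e = f i (t₀, x) - f i (q.1, x)})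
    (fun q a ha b hb s r _ _ hsr => ⟨fun h => by rw [ha.1 h, hb.1 h, Convex.combo_self hsr],
      fun h => by rw [ha.2.1 h, hb.2.1 h, Convex.combo_self hsr], fun i x hx h1 h2 => by
        rw [ha.2.2 i x hx h1 h2, hb.2.2 i x hx h1 h2, Convex.combo_self hsr]⟩)
    (fun p => by
      by_cases hp : p ∈ T
      · obtain ⟨i, q, hq, rfl⟩ := mem_iUnion.1 hp
        obtain ⟨U, hU, g, hg, h⟩ := (hb hq.1 i _ hq.2).2
        exact ⟨U, hU, g, hg.contMDiffOn, fun y hy =>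
          ⟨(h y hy).1, (h y hy).2.1, fun i x hx _ => (h y hy).2.2 i x hx⟩⟩
      · exact ⟨Tᶜ, hT.isOpen_compl.mem_nhds hp, fun _ => 0, contMDiffOn_const, fun y hy =>
          ⟨fun _ => rfl, fun _ => rfl, fun i x hx h1 h2 => (hy
            (mem_iUnion.2 ⟨i, (y.1, x), ⟨h1, hx⟩, Prod.ext rfl h2.symm⟩)).elim⟩⟩)
  exact ⟨θ, hθ, e, e.contMDiff.contDiff, fun z => (he _).1 rfl, fun t z hz => (he _).2.1 hz,
    fun t ht i x hx => ⟨(hb ht i x hx).1, (he _).2.2 i x hx ht rfl⟩⟩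

end Pool.Agent.CSP
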