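import Pool.Agent.Lib.MP_436e1a_gt.A.SmoothRel

/-! The group of linear maps of positive determinant is connected. -/

open scoped ContDiff
open Set

namespace Pool.Agent.CSP

variable {V : Type} [NormedAddCommGroup V] [NormedSpace ℝ V] [FiniteDimensional ℝ V]

/-- joined to the identity by a smooth path of maps of positive determinant -/
def GlpJ (M : V →L[ℝ] V) : Prop :=
  ∃ γ : ℝ → V →L[ℝ] V, ContDiff ℝ ∞ γ ∧ γ 0 = 1 ∧ γ 1 = M ∧ ∀ t, 0 < (γ t).det

omit [FiniteDimensional ℝ V] in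
theorem GlpJ.mul {M N : V →L[ℝ] V} (h : GlpJ M) (h' : GlpJ N) : GlpJ (M * N) := by
  obtain ⟨γ, a, b, c, d⟩ := h
  obtain ⟨γ', a', b', c', d'⟩ := h'
  refine ⟨fun t => γ t * γ' t, a.mul a', by simp only [b, b', one_mul], by simp only [c, c'],
    fun t => ?_⟩
  exact (mul_pos (d t) (d' t)).trans_eq (map_mul LinearMap.det _ _).symm

open Matrix.SpecialLinearGroup in
theorem glp_diag {ι : Type} [Fintype ι] [DecidableEq ι] {i j : ι} (h : i ≠ j) {a : ℝ} (ha : a ≠ 0) :
    diag2n h a ha = transvection h a * transvection h.symm (-a⁻¹) * transvection h a *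
      transvection h (-1) * transvection h.symm 1 * transvection h (-1) := by
  have e : (diag2n h a ha).1 = 1 + Matrix.single i i (a - 1) + Matrix.single j j (a⁻¹ - 1) := by
    ext k l
    simp only [diag2n_coe, Matrix.diagonal_apply, Matrix.add_apply, Matrix.one_apply,
      Matrix.single_apply]
    grind
  refine Subtype.ext (e.trans ?_)
  simp only [coe_mul, transvection_coe, mul_add, add_mul, mul_one, one_mul,
    Matrix.single_mul_single_same, Matrix.single_mul_single_of_ne _ _ _ _ h,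
    Matrix.single_mul_single_of_ne _ _ _ _ h.symm, add_zero]
  ext k l
  simp only [Matrix.add_apply, Matrix.single_apply]
  split_ifs <;> field_simp <;> ring

theorem glp_J {M : V →L[ℝ] V} (hM : 0 < M.det) : GlpJ M := by
  let b := Module.finBasis ℝ V
  let Φ : Matrix _ _ ℝ ≃ₗ[ℝ] V →L[ℝ] V := (Matrix.toLin b b).trans LinearMap.toContinuousLinearMap
  have hd : ∀ A, (Φ A).det = A.det := fun A => LinearMap.det_toLin b A
  have h1 : Φ 1 = 1 := ContinuousLinearMap.coe_injective (Matrix.toLin_one b)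
  have hm : ∀ A B, Φ (A * B) = Φ A * Φ B := fun A B =>
    ContinuousLinearMap.coe_injective (Matrix.toLin_mul b b b A B)
  have ht : ∀ (i j) (h : i ≠ j) (a : ℝ), GlpJ (Φ (Matrix.SpecialLinearGroup.transvection h a).1) :=
    fun i j h a => by
      refine ⟨fun t => 1 + t • Φ (Matrix.single i j a), by fun_prop, by simp, ?_, fun t => ?_⟩
      · simp only [Matrix.SpecialLinearGroup.transvection_coe, map_add, h1, one_smul]
      · simp only [← h1, ← map_smul, ← map_add, hd, Matrix.smul_single]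
        exact one_pos.trans_eq (Matrix.det_transvection_of_ne i j h _).symm
  have hs : ∀ A : Matrix.SpecialLinearGroup (Fin (Module.finrank ℝ V)) ℝ, GlpJ (Φ A.1) := fun A => by
    rcases subsingleton_or_nontrivial (Fin (Module.finrank ℝ V)) with h | h
    · rw [Subsingleton.elim A 1]
      exact ⟨fun _ => 1, contDiff_const, rfl, h1.symm, fun _ => by simp [← h1, hd]⟩
    have hm' : ∀ A B : Matrix.SpecialLinearGroup (Fin (Module.finrank ℝ V)) ℝ,
        GlpJ (Φ A.1) → GlpJ (Φ B.1) → GlpJ (Φ (A * B).1) := fun A B hA hB => hm _ _ ▸ hA.mul hB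
    refine Matrix.SpecialLinearGroup.diagonal_transvection_induction' (fun A => GlpJ (Φ A.1)) A
      (fun i j h c hc => ?_) ht hm'
    rw [glp_diag]
    exact hm' _ _ (hm' _ _ (hm' _ _ (hm' _ _ (hm' _ _ (ht ..) (ht ..)) (ht ..)) (ht ..)) (ht ..))
      (ht ..)
  obtain ⟨A, rfl⟩ := Φ.surjective M
  rw [hd] at hM
  obtain ⟨s, hs0, hA⟩ : ∃ s : ℝ, 0 < s ∧ (s⁻¹ • A).det = 1 := by
    rcases eq_or_ne (Module.finrank ℝ V) 0 with h | h
    · have : IsEmpty (Fin (Module.finrank ℝ V)) := h ▸ inferInstance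
      exact ⟨1, one_pos, Matrix.det_isEmpty⟩
    refine ⟨A.det ^ ((Module.finrank ℝ V : ℝ)⁻¹), Real.rpow_pos_of_pos hM _, ?_⟩
    rw [Matrix.det_smul, Fintype.card_fin, inv_pow, Real.rpow_inv_natCast_pow hM.le h,
      inv_mul_cancel₀ hM.ne']
  have : GlpJ (s • (1 : V →L[ℝ] V)) := by
    refine ⟨fun t => Real.exp (t * Real.log s) • 1, by fun_prop, by simp, by
      simp [Real.exp_log hs0], fun t => ?_⟩
    simp only [← h1, ← map_smul, hd, Matrix.det_smul, Matrix.det_one, mul_one]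
    positivity
  simpa [smul_smul, hs0.ne'] using this.mul (hs ⟨_, hA⟩)

theorem glp_cont {M : V →L[ℝ] V} (hM : 0 < M.det) :
    ∃ γ : ℝ → V →L[ℝ] V, Continuous γ ∧ γ 0 = 1 ∧ γ 1 = M ∧ ∀ t, 0 < (γ t).det :=
  (glp_J hM).imp fun _ h => ⟨h.1.continuous, h.2⟩

/-- smooth version, constant near both ends -/
theorem glp_smooth {M : V →L[ℝ] V} (hM : 0 < M.det) :
    ∃ γ : ℝ → V →L[ℝ] V, ContDiff ℝ ∞ γ ∧ (∀ t ≤ 1 / 4, γ t = 1) ∧ (∀ t ≥ 3 / 4, γ t = M) ∧
      ∀ t, 0 < (γ t).det := by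
  obtain ⟨γ, a, b, c, d⟩ := glp_J hM
  refine ⟨fun t => γ (Real.smoothTransition (2 * t - 1 / 2)),
    a.comp (Real.smoothTransition.contDiff.comp (by fun_prop)), fun t h => ?_, fun t h => ?_,
    fun t => d _⟩
  · simp only [Real.smoothTransition.zero_of_nonpos (show 2 * t - 1 / 2 ≤ 0 by linarith), b]
  · simp only [Real.smoothTransition.one_of_one_le (show 1 ≤ 2 * t - 1 / 2 by linarith), c]

end Pool.Agent.CSP
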