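import Mathlib

/-! Parametric transversality in the case where only the easy Sard theorem is needed. -/

open scoped ContDiff Topology
open Set MeasureTheory Module

namespace Pool.Agent.CSP

variable {B V W : Type} [NormedAddCommGroup B] [NormedSpace ℝ B] [FiniteDimensional ℝ B]
  [NormedAddCommGroup V] [NormedSpace ℝ V] [FiniteDimensional ℝ V]
  [NormedAddCommGroup W] [NormedSpace ℝ W] [FiniteDimensional ℝ W]
  [MeasurableSpace B] [BorelSpace B]

theorem gen_surj {M N : Type} [NormedAddCommGroup M] [NormedSpace ℝ M] [FiniteDimensional ℝ M]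
    [NormedAddCommGroup N] [NormedSpace ℝ N] [FiniteDimensional ℝ N]
    (h : finrank ℝ N ≤ finrank ℝ M) : ∃ e : M →L[ℝ] N, Function.Surjective e := by
  obtain ⟨i, hi⟩ := finrank_le_iff_exists_linearMap.1 h
  obtain ⟨e, he⟩ := i.exists_leftInverse_of_injective (LinearMap.ker_eq_bot.2 hi)
  exact ⟨LinearMap.toContinuousLinearMap e, fun y => ⟨i y, LinearMap.congr_fun he y⟩⟩

/-- local coordinates in which `f` is the first projection -/
theorem gen_chart {X : Type} [NormedAddCommGroup X] [NormedSpace ℝ X] [FiniteDimensional ℝ X]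
    {f : X → W} {p₀ : X} (hf : ContDiffAt ℝ 1 f p₀) (hs : (fderiv ℝ f p₀).range = ⊤) :
    ∃ (π : X → (fderiv ℝ f p₀).ker) (ψ : W × (fderiv ℝ f p₀).ker → X), ∀ᶠ p in 𝓝 p₀,
      ψ (f p, π p) = p ∧ DifferentiableAt ℝ ψ (f p, π p) ∧
        ∀ y, fderiv ℝ f p (fderiv ℝ ψ (f p, π p) y) = y.1 := by
  obtain ⟨π, hπ⟩ := Submodule.ClosedComplemented.of_finiteDimensional (fderiv ℝ f p₀).ker
  have : CompleteSpace X := FiniteDimensional.complete ℝ X
  have : CompleteSpace W := FiniteDimensional.complete ℝ W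
  have : CompleteSpace (fderiv ℝ f p₀).ker := FiniteDimensional.complete ℝ _
  have hΦ : ContDiffAt ℝ 1 (fun p => (f p, π p)) p₀ := hf.prodMk π.contDiff.contDiffAt
  have hΦ' : HasFDerivAt (fun p => (f p, π p))
      (ContinuousLinearMap.equivProdOfSurjectiveOfIsCompl (fderiv ℝ f p₀) π hs
        (LinearMap.range_eq_of_proj hπ) (LinearMap.isCompl_of_proj hπ) : X →L[ℝ] _) p₀ :=
    (hf.differentiableAt one_ne_zero).hasFDerivAt.prodMk π.hasFDerivAt
  have h0 := hΦ.hasStrictFDerivAt' hΦ' one_ne_zero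
  refine ⟨π, hΦ.localInverse hΦ' one_ne_zero, ?_⟩
  have h1 := (hΦ.to_localInverse hΦ' one_ne_zero).eventually (by simp)
  filter_upwards [h0.eventually_left_inverse, hΦ.continuousAt.eventually h1,
    hΦ.continuousAt.eventually h0.eventually_right_inverse.eventually_nhds,
    hf.eventually (by simp)] with p e1 e2 e3 e4
  have e5 := e2.differentiableAt one_ne_zero
  refine ⟨e1, e5, fun y => ?_⟩
  have e6 : HasFDerivAt f (fderiv ℝ f p) (hΦ.localInverse hΦ' one_ne_zero (f p, π p)) :=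
    (show hΦ.localInverse hΦ' one_ne_zero (f p, π p) = p from e1).symm ▸
      (e4.differentiableAt one_ne_zero).hasFDerivAt
  have e7 := (e6.comp _ e5.hasFDerivAt).unique
    (hasFDerivAt_fst.congr_of_eventuallyEq (e3.mono fun z hz => congrArg Prod.fst hz))
  exact DFunLike.congr_fun e7 y

/-- the local form of the statement -/
theorem gen_loc (μ : Measure B) [μ.IsAddHaarMeasure] (hV : finrank ℝ V ≤ finrank ℝ W)
    {f : B × V → W} {p₀ : B × V} (hf : ContDiffAt ℝ 1 f p₀) (hs : (fderiv ℝ f p₀).range = ⊤) :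
    ∃ U ∈ 𝓝 p₀, μ (Prod.fst '' {p ∈ U | f p = 0 ∧
      ¬Function.Surjective fun v => fderiv ℝ f p (0, v)}) = 0 := by
  obtain ⟨π, ψ, h⟩ := gen_chart hf hs
  obtain ⟨e, he⟩ := gen_surj (M := B) (N := (fderiv ℝ f p₀).ker) (by
    have := (fderiv ℝ f p₀ : B × V →ₗ[ℝ] W).finrank_range_add_finrank_ker
    rw [hs, finrank_top, finrank_prod] at this
    omega)
  refine ⟨_, h, ?_⟩
  generalize (fderiv ℝ f p₀).ker = K at π ψ e he
  let j : B →L[ℝ] W × K := (ContinuousLinearMap.inr ℝ W K).comp e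
  refine measure_mono_null (t := (fun b => (ψ (j b)).1) '' {b | DifferentiableAt ℝ ψ (j b) ∧
    ((ContinuousLinearMap.fst ℝ B V).comp ((fderiv ℝ ψ (j b)).comp j)).det = 0}) ?_
    (addHaar_image_eq_zero_of_det_fderivWithin_eq_zero μ (fun b hb =>
      (hb.1.hasFDerivAt.comp b j.hasFDerivAt).fst.hasFDerivWithinAt) fun b hb => hb.2)
  rintro _ ⟨p, ⟨⟨h1, h2, h3⟩, h4, h5⟩, rfl⟩
  obtain ⟨b, hb⟩ := he (π p)
  have hj : j b = (f p, π p) := Prod.ext h4.symm hb
  refine ⟨b, ⟨hj ▸ h2, by_contra fun hd => h5 fun y => ?_⟩, by simp only [hj, h1]⟩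
  rw [hj] at hd
  obtain ⟨b', hb'⟩ := (ContinuousLinearMap.toContinuousLinearEquivOfDetNeZero _ hd).surjective
    (fderiv ℝ ψ (f p, π p) (y, 0)).1
  refine ⟨(fderiv ℝ ψ (f p, π p) ((y, 0) - j b')).2, ?_⟩
  have h6 : (0 : B) = (fderiv ℝ ψ (f p, π p) ((y, 0) - j b')).1 := by
    rw [map_sub, Prod.fst_sub, ← hb']
    exact (sub_self _).symm
  change fderiv ℝ f p (0, _) = y
  rw [h6, h3]
  exact sub_zero y

/-- If the total derivative of `w` has rank at least `n ≥ dim V` at every zero, then for almost every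
parameter the derivative in the direction of `V` has rank at least `n` at every zero. -/
theorem gen2 (μ : Measure B) [μ.IsAddHaarMeasure] {n : ℕ} (hV : finrank ℝ V ≤ n)
    {O : Set (B × V)} (hO : IsOpen O) {w : B × V → W} (hw : ContDiffOn ℝ ∞ w O)
    (hr : ∀ p ∈ O, w p = 0 → n ≤ finrank ℝ (fderiv ℝ w p).range) :
    ∀ᵐ b ∂μ, ∀ v, (b, v) ∈ O → w (b, v) = 0 →
      n ≤ finrank ℝ ((fderiv ℝ w (b, v)).comp (ContinuousLinearMap.inr ℝ B V)).range := by
  let Z := {p ∈ O | w p = 0 ∧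
    finrank ℝ ((fderiv ℝ w p).comp (ContinuousLinearMap.inr ℝ B V)).range < n}
  have hd : ∀ p ∈ O, ContDiffAt ℝ 1 w p := fun p hp =>
    (hw.contDiffAt (hO.mem_nhds hp)).of_le (by exact_mod_cast le_top)
  have key : ∀ p₀ ∈ Z, ∃ U, U ∈ 𝓝[Z] p₀ ∧ μ (Prod.fst '' U) = 0 := fun p₀ h₀ => by
    obtain ⟨c, hc⟩ := gen_surj (M := (fderiv ℝ w p₀).range) (N := Fin n → ℝ)
      (by simpa using hr p₀ h₀.1 h₀.2.1)
    obtain ⟨C₀, hC⟩ := (c : (fderiv ℝ w p₀).range →ₗ[ℝ] Fin n → ℝ).exists_extend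
    let C := LinearMap.toContinuousLinearMap C₀
    have e : ∀ p ∈ O, fderiv ℝ (C ∘ w) p = C.comp (fderiv ℝ w p) := fun p hp =>
      (C.hasFDerivAt.comp p ((hd p hp).differentiableAt one_ne_zero).hasFDerivAt).fderiv
    obtain ⟨U, hU, h⟩ := gen_loc μ (W := Fin n → ℝ) (by simpa using hV) (f := C ∘ w)
      (C.contDiff.contDiffAt.comp p₀ (hd p₀ h₀.1)) (LinearMap.range_eq_top.2 fun y => by
        obtain ⟨⟨_, x, rfl⟩, rfl⟩ := hc y
        rw [e p₀ h₀.1]
        exact ⟨x, LinearMap.congr_fun hC ⟨_, x, rfl⟩⟩)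
    refine ⟨Z ∩ U, inter_mem_nhdsWithin _ hU, measure_mono_null (image_mono fun p hp => ?_) h⟩
    refine ⟨hp.2, by rw [Function.comp_apply, hp.1.2.1, map_zero], fun hs => hp.1.2.2.not_ge ?_⟩
    have h1 : ((fderiv ℝ w p).comp (ContinuousLinearMap.inr ℝ B V)).range.map C₀ = ⊤ :=
      eq_top_iff.2 fun y _ => by
        obtain ⟨v, rfl⟩ := hs y
        exact ⟨_, ⟨v, rfl⟩, by rw [e p hp.1.1]; rfl⟩
    have h2 := Submodule.finrank_map_le C₀ ((fderiv ℝ w p).comp
      (ContinuousLinearMap.inr ℝ B V)).range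
    rw [h1] at h2
    simpa using h2
  choose! U hU using key
  obtain ⟨t, ht, hc, hs⟩ := TopologicalSpace.countable_cover_nhdsWithin fun p hp => (hU p hp).1
  have h0 : μ (Prod.fst '' Z) = 0 := by
    refine measure_mono_null (image_mono hs) ?_
    rw [image_iUnion₂, measure_biUnion_null_iff hc]
    exact fun p hp => (hU p (ht hp)).2
  filter_upwards [measure_eq_zero_iff_ae_notMem.1 h0] with b hb v h1 h2
  exact not_lt.1 fun h => hb ⟨(b, v), ⟨h1, h2, h⟩, rfl⟩

/-- too few variables: no zeros for almost every parameter -/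
theorem gen0 (μ : Measure B) [μ.IsAddHaarMeasure] {n : ℕ} (hV : finrank ℝ V < n)
    {O : Set (B × V)} (hO : IsOpen O) {w : B × V → W} (hw : ContDiffOn ℝ ∞ w O)
    (hr : ∀ p ∈ O, w p = 0 → n ≤ finrank ℝ (fderiv ℝ w p).range) :
    ∀ᵐ b ∂μ, ∀ v, (b, v) ∈ O → w (b, v) ≠ 0 := by
  filter_upwards [gen2 μ hV.le hO hw hr] with b hb v h1 h2
  exact (hV.trans_le (hb v h1 h2)).not_ge (LinearMap.finrank_range_le _)

/-- as many variables as equations: the zeros are nondegenerate for almost every parameter -/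
theorem gen1 (μ : Measure B) [μ.IsAddHaarMeasure]
    {O : Set (B × V)} (hO : IsOpen O) {w : B × V → W} (hw : ContDiffOn ℝ ∞ w O)
    (hr : ∀ p ∈ O, w p = 0 → finrank ℝ V ≤ finrank ℝ (fderiv ℝ w p).range) :
    ∀ᵐ b ∂μ, ∀ v, (b, v) ∈ O → w (b, v) = 0 →
      ∀ u : V, fderiv ℝ w (b, v) (0, u) = 0 → u = 0 := by
  filter_upwards [gen2 μ le_rfl hO hw hr] with b hb v h1 h2 u hu
  have h3 := hb v h1 h2
  have h4 := ((fderiv ℝ w (b, v)).comp (ContinuousLinearMap.inr ℝ B V) :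
    V →ₗ[ℝ] W).finrank_range_add_finrank_ker
  have h5 : ((fderiv ℝ w (b, v)).comp (ContinuousLinearMap.inr ℝ B V) : V →ₗ[ℝ] W).ker = ⊥ :=
    Submodule.finrank_eq_zero.1 (by omega)
  exact (Submodule.eq_bot_iff _).1 h5 u hu

omit [FiniteDimensional ℝ B] in
/-- a property of almost every parameter holds for arbitrarily small parameters -/
theorem freq_of_ae (μ : Measure B) [μ.IsAddHaarMeasure] {p : B → Prop} (h : ∀ᵐ b ∂μ, p b) :
    ∃ᶠ b in 𝓝 (0 : B), p b := by
  exact mem_closure_iff_frequently.1 (μ.dense_of_ae h 0)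

end Pool.Agent.CSP
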