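import Mathlib

/-! Injective immersions of compact sets stay injective on neighbourhoods, in families. -/

open scoped ContDiff Topology
open Set

namespace Pool.Agent.CSP

variable {B V W : Type} [NormedAddCommGroup B] [NormedSpace ℝ B]
  [NormedAddCommGroup V] [NormedSpace ℝ V] [FiniteDimensional ℝ V]
  [NormedAddCommGroup W] [NormedSpace ℝ W]

/-- tube lemma for three factors -/
theorem li_tube {B X X' : Type} [TopologicalSpace B] [TopologicalSpace X] [TopologicalSpace X']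
    {U : Set (B × X × X')} (hU : IsOpen U) {A : Set B} {K : Set X} {K' : Set X'}
    (hA : IsCompact A) (hK : IsCompact K) (hK' : IsCompact K') (h : A ×ˢ K ×ˢ K' ⊆ U) :
    ∃ A₁ K₁ K₁', IsOpen A₁ ∧ IsOpen K₁ ∧ IsOpen K₁' ∧ A ⊆ A₁ ∧ K ⊆ K₁ ∧ K' ⊆ K₁' ∧
      A₁ ×ˢ K₁ ×ˢ K₁' ⊆ U := by
  obtain ⟨A₁, T, hA₁, hT, h1, h2, h3⟩ := generalized_tube_lemma hA (hK.prod hK') hU h
  obtain ⟨K₁, K₁', hK₁, hK₁', h4, h5, h6⟩ := generalized_tube_lemma hK hK' hT h2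
  exact ⟨A₁, K₁, K₁', hA₁, hK₁, hK₁', h1, h4, h5, (prod_mono_right h6).trans h3⟩

omit [NormedSpace ℝ V] [FiniteDimensional ℝ V] [NormedSpace ℝ W] in
theorem li_zero {v : V} {w : W} {k : ℝ} (hk : 0 < k) (h1 : ‖v‖ ≤ k * ‖w‖)
    (h2 : ‖w‖ ≤ (2 * k)⁻¹ * ‖v‖) : v = 0 := by
  have h3 : k * ‖w‖ ≤ k * ((2 * k)⁻¹ * ‖v‖) := mul_le_mul_of_nonneg_left h2 hk.le
  have h4 : k * ((2 * k)⁻¹ * ‖v‖) = ‖v‖ / 2 := by field_simp
  have h5 := norm_nonneg v
  exact norm_eq_zero.1 (by linarith)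

/-- local form: near a point where the derivative in `V` is injective, all slices are injective.
Sketch. `A = D_v f p₀` is antilipschitz, `c ‖v‖ ≤ ‖A v‖`; on a product of balls `‖D_v f - A‖ < c / 2`;
mean value inequality (`Convex.norm_image_sub_le_of_norm_fderiv_le'`). -/
theorem locinj_at {O : Set (B × V)} (hO : IsOpen O) {f : B × V → W} (hf : ContDiffOn ℝ ∞ f O)
    {b₀ : B} {x₀ : V} (h0 : (b₀, x₀) ∈ O) (hi : ∀ v, fderiv ℝ f (b₀, x₀) (0, v) = 0 → v = 0) :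
    ∃ A' K', IsOpen A' ∧ IsOpen K' ∧ b₀ ∈ A' ∧ x₀ ∈ K' ∧ A' ×ˢ K' ⊆ O ∧
      ∀ b ∈ A', InjOn (fun x => f (b, x)) K' ∧
        ∀ x ∈ K', ∀ v, fderiv ℝ f (b, x) (0, v) = 0 → v = 0 := by
  let D : B × V → V →L[ℝ] W := fun q => (fderiv ℝ f q).comp (ContinuousLinearMap.inr ℝ B V)
  have hker : LinearMap.ker (D (b₀, x₀) : V →ₗ[ℝ] W) = ⊥ := LinearMap.ker_eq_bot'.2 hi
  obtain ⟨k, hk, ha⟩ := LinearMap.exists_antilipschitzWith _ hker
  have hk' : (0 : ℝ) < k := hk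
  have hb : ∀ v, ‖v‖ ≤ k * ‖D (b₀, x₀) v‖ := fun v =>
    ZeroHomClass.bound_of_antilipschitz (D (b₀, x₀) : V →ₗ[ℝ] W) ha v
  have hc : ContinuousAt D (b₀, x₀) :=
    ((hf.continuousOn_fderiv_of_isOpen hO (by simp)).continuousAt (hO.mem_nhds h0)).clm_comp
      continuousAt_const
  have hn : ∀ᶠ q in 𝓝 (b₀, x₀), q ∈ O ∧ ‖D q - D (b₀, x₀)‖ ≤ (2 * (k : ℝ))⁻¹ := by
    refine Filter.Eventually.and (hO.mem_nhds h0) ?_
    have := Metric.continuousAt_iff'.1 hc (2 * (k : ℝ))⁻¹ (by positivity)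
    exact this.mono fun q hq => by rw [← dist_eq_norm]; exact hq.le
  obtain ⟨r, hr, hs⟩ := Metric.mem_nhds_iff.1 hn
  rw [← ball_prod_same] at hs
  refine ⟨Metric.ball b₀ r, Metric.ball x₀ r, Metric.isOpen_ball, Metric.isOpen_ball,
    Metric.mem_ball_self hr, Metric.mem_ball_self hr, fun q hq => (hs hq).1, fun b hb' => ⟨?_, ?_⟩⟩
  · intro x hx y hy e
    have hd : ∀ z ∈ Metric.ball x₀ r,
        HasFDerivWithinAt (fun x => f (b, x)) (D (b, z)) (Metric.ball x₀ r) z := fun z hz => by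
      have h1 : DifferentiableAt ℝ f (b, z) :=
        (hf.contDiffAt (hO.mem_nhds (hs (mk_mem_prod hb' hz)).1)).differentiableAt (by simp)
      exact (h1.hasFDerivAt.comp z (hasFDerivAt_prodMk_right b z)).hasFDerivWithinAt
    have h2 := (convex_ball x₀ r).norm_image_sub_le_of_norm_hasFDerivWithin_le' hd
      (fun z hz => (hs (mk_mem_prod hb' hz)).2) hx hy
    have e' : f (b, x) = f (b, y) := e
    rw [e', sub_self, zero_sub, norm_neg] at h2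
    exact (sub_eq_zero.1 (li_zero hk' (hb _) h2)).symm
  · intro x hx v hv
    have h2 := (D (b, x) - D (b₀, x₀)).le_of_opNorm_le (hs (mk_mem_prod hb' hx)).2 v
    have e : D (b, x) v = 0 := hv
    rw [sub_apply, e, zero_sub, norm_neg] at h2
    exact li_zero hk' (hb v) h2

/-- maps into a Hausdorff space that differ on compact sets differ on neighbourhoods -/
theorem sep_nhds {B X X' Z : Type} [TopologicalSpace B] [TopologicalSpace X] [TopologicalSpace X']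
    [TopologicalSpace Z] [T2Space Z] {O : Set (B × X)} {O' : Set (B × X')} (hO : IsOpen O)
    (hO' : IsOpen O') {f : B × X → Z} {g : B × X' → Z} (hf : ContinuousOn f O)
    (hg : ContinuousOn g O') {A : Set B} {K : Set X} {K' : Set X'} (hA : IsCompact A)
    (hK : IsCompact K) (hK' : IsCompact K') (h1 : A ×ˢ K ⊆ O) (h2 : A ×ˢ K' ⊆ O')
    (h : ∀ b ∈ A, ∀ x ∈ K, ∀ y ∈ K', f (b, x) ≠ g (b, y)) :
    ∃ A₁ K₁ K₁', IsOpen A₁ ∧ IsOpen K₁ ∧ IsOpen K₁' ∧ A ⊆ A₁ ∧ K ⊆ K₁ ∧ K' ⊆ K₁' ∧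
      A₁ ×ˢ K₁ ⊆ O ∧ A₁ ×ˢ K₁' ⊆ O' ∧ ∀ b ∈ A₁, ∀ x ∈ K₁, ∀ y ∈ K₁', f (b, x) ≠ g (b, y) := by
  obtain ⟨A₁, K₁, K₁', hA₁, hK₁, hK₁', h3, h4, h5, h6⟩ := li_tube (isOpen_interior (s :=
    {p : B × X × X' | f (p.1, p.2.1) ≠ g (p.1, p.2.2)})) hA hK hK' (by
      rintro ⟨b, x, y⟩ ⟨hb, hx, hy⟩
      have c1 : ContinuousAt (fun p : B × X × X' => f (p.1, p.2.1)) (b, x, y) :=
        ContinuousAt.comp (g := f) (hf.continuousAt (hO.mem_nhds (h1 (mk_mem_prod hb hx))))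
          (by fun_prop)
      have c2 : ContinuousAt (fun p : B × X × X' => g (p.1, p.2.2)) (b, x, y) :=
        ContinuousAt.comp (g := g) (hg.continuousAt (hO'.mem_nhds (h2 (mk_mem_prod hb hy))))
          (by fun_prop)
      exact mem_interior_iff_mem_nhds.2 ((c1.ne_iff_eventually_ne c2).1 (h b hb x hx y hy)))
  obtain ⟨A₂, K₂, hA₂, hK₂, h7, h8, h9⟩ := generalized_tube_lemma hA hK hO h1
  obtain ⟨A₃, K₃, hA₃, hK₃, h10, h11, h12⟩ := generalized_tube_lemma hA hK' hO' h2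
  refine ⟨A₁ ∩ A₂ ∩ A₃, K₁ ∩ K₂, K₁' ∩ K₃, (hA₁.inter hA₂).inter hA₃, hK₁.inter hK₂,
    hK₁'.inter hK₃, subset_inter (subset_inter h3 h7) h10, subset_inter h4 h8,
    subset_inter h5 h11, fun q hq => h9 ⟨hq.1.1.2, hq.2.2⟩, fun q hq => h12 ⟨hq.1.2, hq.2.2⟩,
    fun b hb x hx y hy => ?_⟩
  exact interior_subset (h6 (mk_mem_prod hb.1.1 (mk_mem_prod hx.1 hy.1)))

/-- global form. For a submanifold `κ = 0` of `V` apply it to the map `(f, κ)`.
Sketch. The set of `(b, x, y)` near which `f (b, x) = f (b, y) → x = y` holds (and the derivative is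
injective) is open and contains `A × K × K` (diagonal: `locinj_at`; off the diagonal: continuity).
Generalized tube lemma. -/
theorem locinj {O : Set (B × V)} (hO : IsOpen O) {f : B × V → W} (hf : ContDiffOn ℝ ∞ f O)
    {A : Set B} {K : Set V} (hA : IsCompact A) (hK : IsCompact K) (hAK : A ×ˢ K ⊆ O)
    (hi : ∀ b ∈ A, ∀ x ∈ K, ∀ v, fderiv ℝ f (b, x) (0, v) = 0 → v = 0)
    (hj : ∀ b ∈ A, InjOn (fun x => f (b, x)) K) :
    ∃ A' K', IsOpen A' ∧ IsOpen K' ∧ A ⊆ A' ∧ K ⊆ K' ∧ A' ×ˢ K' ⊆ O ∧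
      ∀ b ∈ A', InjOn (fun x => f (b, x)) K' ∧
        ∀ x ∈ K', ∀ v, fderiv ℝ f (b, x) (0, v) = 0 → v = 0 := by
  obtain ⟨A₁, K₁, K₁', hA₁, hK₁, hK₁', h3, h4, h5, h6⟩ := li_tube (isOpen_interior (s :=
    {p : B × V × V | f (p.1, p.2.1) = f (p.1, p.2.2) → p.2.1 = p.2.2})) hA hK hK (by
      rintro ⟨b, x, y⟩ ⟨hb, hx, hy⟩
      refine mem_interior_iff_mem_nhds.2 ?_
      by_cases e : x = y
      · subst e
        obtain ⟨A', K', hA', hK', h1, h2, -, h3⟩ :=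
          locinj_at hO hf (hAK (mk_mem_prod hb hx)) (hi b hb x hx)
        refine Filter.mem_of_superset ((hA'.prod (hK'.prod hK')).mem_nhds ⟨h1, h2, h2⟩) ?_
        exact fun p hp e => (h3 p.1 hp.1).1 hp.2.1 hp.2.2 e
      · have c1 : ContinuousAt (fun p : B × V × V => f (p.1, p.2.1)) (b, x, y) :=
          ContinuousAt.comp (g := f)
            (hf.continuousOn.continuousAt (hO.mem_nhds (hAK (mk_mem_prod hb hx)))) (by fun_prop)
        have c2 : ContinuousAt (fun p : B × V × V => f (p.1, p.2.2)) (b, x, y) :=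
          ContinuousAt.comp (g := f)
            (hf.continuousOn.continuousAt (hO.mem_nhds (hAK (mk_mem_prod hb hy)))) (by fun_prop)
        exact ((c1.ne_iff_eventually_ne c2).1 fun e' => e (hj b hb hx hy e')).mono
          fun p hp e' => absurd e' hp)
  obtain ⟨A₂, K₂, hA₂, hK₂, h7, h8, h9⟩ := generalized_tube_lemma hA hK (isOpen_interior (s :=
    {q : B × V | q ∈ O ∧ ∀ v, fderiv ℝ f q (0, v) = 0 → v = 0})) (by
      rintro ⟨b, x⟩ ⟨hb, hx⟩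
      obtain ⟨A', K', hA', hK', h1, h2, h3, h4⟩ :=
        locinj_at hO hf (hAK (mk_mem_prod hb hx)) (hi b hb x hx)
      refine mem_interior_iff_mem_nhds.2
        (Filter.mem_of_superset ((hA'.prod hK').mem_nhds ⟨h1, h2⟩) ?_)
      exact fun q hq => ⟨h3 hq, (h4 q.1 hq.1).2 q.2 hq.2⟩)
  refine ⟨A₁ ∩ A₂, K₁ ∩ K₁' ∩ K₂, hA₁.inter hA₂, (hK₁.inter hK₁').inter hK₂, subset_inter h3 h7,
    subset_inter (subset_inter h4 h5) h8, fun q hq => (interior_subset (h9 ⟨hq.1.2, hq.2.2⟩)).1,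
    fun b hb => ⟨fun x hx y hy e => ?_, fun x hx => ?_⟩⟩
  · exact interior_subset (h6 (mk_mem_prod hb.1 (mk_mem_prod hx.1.1 hy.1.2))) e
  · exact (interior_subset (h9 (mk_mem_prod hb.2 hx.2))).2

end Pool.Agent.CSP
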