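import Pool.Agent.Lib.MP_436e1a_gt.Maps

/-! Elementary properties of the explicit maps of `E 3`. -/

open scoped ContDiff RealInnerProductSpace
open Set

namespace Pool.Agent.CSP

theorem ml_sq (x : E 3) : ‖x‖ ^ 2 = x 0 ^ 2 + x 1 ^ 2 + x 2 ^ 2 := by
  simp [EuclideanSpace.norm_sq_eq, Fin.sum_univ_three]

theorem ml_ext {x y : E 3} (h0 : x 0 = y 0) (h1 : x 1 = y 1) (h2 : x 2 = y 2) : x = y := by
  ext i
  fin_cases i
  exacts [h0, h1, h2]

theorem ml_cd {f g h : E 3 → ℝ} (hf : ContDiff ℝ ∞ f) (hg : ContDiff ℝ ∞ g) (hh : ContDiff ℝ ∞ h) :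
    ContDiff ℝ ∞ fun x => (!₂[f x, g x, h x] : E 3) := by
  refine contDiff_euclidean.2 fun i => ?_
  fin_cases i
  exacts [hf, hg, hh]

theorem ml_cube {a b : ℝ} (h0 : a ^ 3 - 3 * a * b ^ 2 = 0) (h1 : 3 * a ^ 2 * b - b ^ 3 = 0) :
    a = 0 ∧ b = 0 := by
  have h : a ^ 2 + b ^ 2 = 0 := pow_eq_zero_iff three_ne_zero |>.1 (by
    linear_combination (a ^ 3 - 3 * a * b ^ 2) * h0 + (3 * a ^ 2 * b - b ^ 3) * h1)
  constructor <;> nlinarith

theorem ml_ne (x : E 3) : (!₂[x 0, x 1, 1] : E 3) ≠ 0 := fun h => by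
  simpa using congrArg (fun u : E 3 => u 2) h

theorem mem_S2 {x : E 3} : x ∈ S2 ↔ x 0 ^ 2 + x 1 ^ 2 + x 2 ^ 2 = 1 := by
  rw [mem_sphere_zero_iff_norm, ← ml_sq, pow_eq_one_iff_of_nonneg (norm_nonneg x) two_ne_zero]

theorem mem_B3 {x : E 3} : x ∈ B3 ↔ x 0 ^ 2 + x 1 ^ 2 + x 2 ^ 2 ≤ 1 := by
  rw [mem_closedBall_zero_iff, ← ml_sq, sq_le_one_iff₀ (norm_nonneg x)]

theorem ne_zero_of_S2 {x : E 3} (h : x ∈ S2) : x ≠ 0 := by
  rintro rfl
  simp at h

theorem inner_E3 (x y : E 3) : ⟪x, y⟫ = x 0 * y 0 + x 1 * y 1 + x 2 * y 2 := by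
  simp [PiLp.inner_apply, Fin.sum_univ_three, mul_comm]

theorem fr_apply {n : ℕ} {W : Type} [NormedAddCommGroup W] [NormedSpace ℝ W] (a : Fin n → W)
    (u : E n) : fr a u = ∑ k, u k • a k := by
  simp [fr]

theorem comp_fr {n : ℕ} {W W' : Type} [NormedAddCommGroup W] [NormedSpace ℝ W]
    [NormedAddCommGroup W'] [NormedSpace ℝ W'] (L : W →L[ℝ] W') (a : Fin n → W) :
    L.comp (fr a) = fr fun k => L (a k) := by
  ext u
  simp [fr_apply]

/-- the determinant of a map given by its columns -/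
theorem det_fr {n : ℕ} (a : Fin n → E n) : (fr a).det = (Matrix.of fun i k => a k i).det := by
  rw [ContinuousLinearMap.det, ← LinearMap.det_toMatrix (EuclideanSpace.basisFun (Fin n) ℝ).toBasis]
  congr 1
  ext i k
  simp [LinearMap.toMatrix_apply, fr_apply]

theorem contDiff_fr {n : ℕ} {W : Type} [NormedAddCommGroup W] [NormedSpace ℝ W] :
    ContDiff ℝ ∞ (fr : (Fin n → W) → E n →L[ℝ] W) := by
  exact ContDiff.sum fun k _ => (ContinuousLinearMap.smulRightL ℝ (E n) W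
    (EuclideanSpace.proj k)).contDiff.comp (contDiff_apply ℝ W k)

theorem exists_OB {x : E 3} (h : x ≠ 0) : ∃ v w, OB x v w := by
  by_cases h0 : x 0 ^ 2 + x 1 ^ 2 = 0
  · have h1 : x 0 = 0 := by nlinarith
    have h2 : x 1 = 0 := by nlinarith
    have h3 : x 2 ≠ 0 := fun h3 => h (ml_ext h1 h2 h3)
    exact ⟨!₂[1, 0, 0], !₂[0, x 2, 0], by simp [inner_E3, h1], by simp [inner_E3, h2],
      by simp [det3, h3]⟩
  · refine ⟨!₂[-x 1, x 0, 0], !₂[-x 0 * x 2, -x 1 * x 2, x 0 ^ 2 + x 1 ^ 2], ?_, ?_, ?_⟩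
    · simp [inner_E3]; ring
    · simp [inner_E3]; ring
    · have h1 : 0 < x 0 ^ 2 + x 1 ^ 2 := lt_of_le_of_ne (by positivity) (Ne.symm h0)
      have h2 : 0 < (x 0 ^ 2 + x 1 ^ 2) * (x 0 ^ 2 + x 1 ^ 2 + x 2 ^ 2) := by positivity
      refine h2.trans_eq ?_
      simp [det3]; ring

theorem ml_span {x v w u : E 3} (h : OB x v w) (hu : ⟪x, u⟫ = 0) :
    ∃ a b : ℝ, u = a • v + b • w := by
  obtain ⟨hv, hw, hd⟩ := h
  rw [inner_E3] at hu hv hw
  refine ⟨det3 x u w / det3 x v w, det3 x v u / det3 x v w, ml_ext ?_ ?_ ?_⟩ <;>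
    simp only [PiLp.add_apply, PiLp.smul_apply, smul_eq_mul] <;> field_simp <;> unfold det3
  · linear_combination (v 1 * w 2 - v 2 * w 1) * hu + (w 1 * u 2 - w 2 * u 1) * hv +
      (u 1 * v 2 - u 2 * v 1) * hw
  · linear_combination (v 2 * w 0 - v 0 * w 2) * hu + (w 2 * u 0 - w 0 * u 2) * hv +
      (u 2 * v 0 - u 0 * v 2) * hw
  · linear_combination (v 0 * w 1 - v 1 * w 0) * hu + (w 0 * u 1 - w 1 * u 0) * hv +
      (u 0 * v 1 - u 1 * v 0) * hw

/-- two oriented bases of the same plane differ by a matrix of positive determinant -/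
theorem OB.change {x v w v' w' : E 3} (h : OB x v w) (h' : OB x v' w') :
    ∃ a b c d : ℝ, v' = a • v + b • w ∧ w' = c • v + d • w ∧ 0 < a * d - b * c := by
  obtain ⟨a, b, rfl⟩ := ml_span h h'.1
  obtain ⟨c, d, rfl⟩ := ml_span h h'.2.1
  refine ⟨a, b, c, d, rfl, rfl, (mul_pos_iff_of_pos_right h.2.2).1 (h'.2.2.trans_eq ?_)⟩
  simp [det3]; ring

/-- an oriented basis spans the orthogonal plane -/
theorem OB.span {x v w u : E 3} (h : OB x v w) (hu : ⟪x, u⟫ = 0) : ∃ a b : ℝ, u = a • v + b • w := by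
  exact ml_span h hu

theorem OB.indep {x v w : E 3} (h : OB x v w) {a b : ℝ} (h0 : a • v + b • w = 0) :
    a = 0 ∧ b = 0 := by
  have e : ∀ i, a * v i + b * w i = 0 := fun i => by simpa using congrArg (fun u : E 3 => u i) h0
  refine ⟨(mul_eq_zero_iff_right h.2.2.ne').1 ?_, (mul_eq_zero_iff_right h.2.2.ne').1 ?_⟩ <;>
    unfold det3
  · linear_combination (x 2 * w 1 - x 1 * w 2) * e 0 + (x 0 * w 2 - x 2 * w 0) * e 1 +
      (x 1 * w 0 - x 0 * w 1) * e 2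
  · linear_combination (x 1 * v 2 - x 2 * v 1) * e 0 + (x 2 * v 0 - x 0 * v 2) * e 1 +
      (x 0 * v 1 - x 1 * v 0) * e 2

theorem norm_nrm {n : ℕ} {x : E n} (h : x ≠ 0) : ‖nrm x‖ = 1 := by
  exact norm_smul_inv_norm h

theorem nrm_mem {x : E 3} (h : x ≠ 0) : nrm x ∈ S2 := by
  exact mem_sphere_zero_iff_norm.2 (norm_nrm h)

theorem nrm_of_norm {n : ℕ} {x : E n} (h : ‖x‖ = 1) : nrm x = x := by
  rw [nrm, h, inv_one, one_smul]

theorem nrm_of_S2 {x : E 3} (h : x ∈ S2) : nrm x = x := by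
  exact nrm_of_norm (mem_sphere_zero_iff_norm.1 h)

theorem nrm_smul {n : ℕ} {t : ℝ} (ht : 0 < t) (x : E n) : nrm (t • x) = nrm x := by
  rw [nrm, nrm, norm_smul, Real.norm_of_nonneg ht.le, smul_smul, mul_inv, mul_right_comm,
    inv_mul_cancel₀ ht.ne', one_mul]

theorem norm_smul_nrm {n : ℕ} (x : E n) : ‖x‖ • nrm x = x := by
  by_cases h : x = 0
  · simp [h]
  · rw [nrm, smul_inv_smul₀ (norm_ne_zero_iff.2 h)]

theorem contDiffOn_nrm {n : ℕ} : ContDiffOn ℝ ∞ (nrm : E n → E n) {0}ᶜ := by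
  exact fun x hx => (((contDiffAt_norm ℝ hx).inv (norm_ne_zero_iff.2 hx)).smul
    contDiffAt_id).contDiffWithinAt

/-- on the sphere the derivative of `nrm` is the orthogonal projection onto the tangent plane -/
theorem fderiv_nrm {n : ℕ} {x : E n} (h : ‖x‖ = 1) (v : E n) :
    fderiv ℝ nrm x v = v - ⟪x, v⟫ • x := by
  have h1 := (hasStrictFDerivAt_norm_sq x).hasFDerivAt.sqrt (by simp [h])
  simp only [Real.sqrt_sq (norm_nonneg _)] at h1
  have h2 := ((hasDerivAt_inv (x := ‖x‖) (by simp [h])).comp_hasFDerivAt x h1).smul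
    (hasFDerivAt_id x)
  rw [show fderiv ℝ nrm x = _ from h2.fderiv]
  simp [h, sub_eq_add_neg]

theorem contDiff_cub0 : ContDiff ℝ ∞ cub0 := by
  exact ml_cd (by fun_prop) (by fun_prop) (by fun_prop)

theorem contDiff_cub : ContDiff ℝ ∞ cub := by
  exact ml_cd (by fun_prop) (by fun_prop) (by fun_prop)

theorem cub_eq_cub0 {x : E 3} (h : x ∈ S2) : cub x = cub0 x := by
  rw [cub, cub0, mem_S2.1 h, mul_one]

theorem cub0_ne_zero {x : E 3} (h : x ≠ 0) : cub0 x ≠ 0 := by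
  intro e
  obtain ⟨h0, h1⟩ := ml_cube (congrArg (fun u : E 3 => u 0) e) (congrArg (fun u : E 3 => u 1) e)
  exact h (ml_ext h0 h1 (congrArg (fun u : E 3 => u 2) e :))

theorem cub_ne_zero {x : E 3} (h : x ≠ 0) : cub x ≠ 0 := by
  intro e
  obtain ⟨h0, h1⟩ := ml_cube (congrArg (fun u : E 3 => u 0) e) (congrArg (fun u : E 3 => u 1) e)
  exact h (ml_ext h0 h1 (by simpa [cub, h0, h1] using congrArg (fun u : E 3 => u 2) e))

theorem cub_smul (t : ℝ) (x : E 3) : cub (t • x) = t ^ 3 • cub x := by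
  refine ml_ext ?_ ?_ ?_ <;> simp [cub] <;> ring

theorem dd_mem {x : E 3} (h : x ≠ 0) : dd x ∈ S2 := by
  exact nrm_mem (cub_ne_zero h)

theorem dd_nrm (x : E 3) : dd (nrm x) = dd x := by
  by_cases h : x = 0
  · simp [h, nrm]
  · rw [dd, dd, nrm.eq_1 x, cub_smul, nrm_smul (by positivity)]

theorem contDiffOn_dd : ContDiffOn ℝ ∞ dd {0}ᶜ := by
  exact contDiffOn_nrm.comp contDiff_cub.contDiffOn fun _ h => cub_ne_zero h

theorem npole_mem : npole ∈ S2 := by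
  rw [mem_S2]
  simp [npole]

theorem contDiff_pin : ContDiff ℝ ∞ pin := by
  exact ml_cd (by fun_prop) (by fun_prop) (by fun_prop)

theorem pin_mem_S2 {x : E 3} (h : x ∈ S2) : pin x ∈ S2 := by
  rw [mem_S2] at h ⊢
  simp only [pin, PiLp.toLp_apply, Matrix.cons_val]
  linear_combination 4 * x 2 ^ 2 * h

theorem pin_mem_B3 {x : E 3} (h : x ∈ B3) : pin x ∈ B3 := by
  rw [mem_B3] at h ⊢
  simp only [pin, PiLp.toLp_apply, Matrix.cons_val]
  nlinarith [mul_le_mul_of_nonneg_left h (sq_nonneg (x 2))]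

theorem pin_of_eq_zero {x : E 3} (h : x 2 = 0) : pin x = -npole := by
  refine ml_ext ?_ ?_ ?_ <;> simp [pin, npole, h]

/-- continuity of a sum on `K = S2` or `K = B3` (`ContinuousOn.if`-style gluing of two closed sets) -/
theorem continuousOn_ssum {Y : Type} [TopologicalSpace Y] {a b : E 3 → Y} {K : Set (E 3)}
    (hK : K = S2 ∨ K = B3) (ha : ContinuousOn a K) (hb : ContinuousOn b K)
    (hab : a (-npole) = b npole) : ContinuousOn (ssum a b) K := by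
  have h : ∀ x ∈ K, pin x ∈ K ∧ -pin x ∈ K := by
    rcases hK with rfl | rfl
    · exact fun x hx => ⟨pin_mem_S2 hx, by simpa using pin_mem_S2 hx⟩
    · exact fun x hx => ⟨pin_mem_B3 hx, by simpa using pin_mem_B3 hx⟩
  refine ContinuousOn.if (fun x hx => ?_)
    (ha.comp contDiff_pin.continuous.continuousOn fun x hx => (h x hx.1).1)
    (hb.comp contDiff_pin.continuous.neg.continuousOn fun x hx => (h x hx.1).2)
  have h1 := frontier_le_subset_eq continuous_const (by fun_prop) hx.2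
  rw [pin_of_eq_zero h1.symm, neg_neg, hab]

theorem contDiff_rf3 : ContDiff ℝ ∞ rf3 := by
  exact ml_cd (by fun_prop) (by fun_prop) (by fun_prop)

theorem rf3_rf3 (x : E 3) : rf3 (rf3 x) = x := by
  refine ml_ext ?_ ?_ ?_ <;> simp [rf3]

theorem norm_rf3 (x : E 3) : ‖rf3 x‖ = ‖x‖ := by
  rw [← sq_eq_sq₀ (norm_nonneg _) (norm_nonneg _), ml_sq, ml_sq]
  simp [rf3]

theorem rf3_smul (t : ℝ) (x : E 3) : rf3 (t • x) = t • rf3 x := by
  refine ml_ext ?_ ?_ ?_ <;> simp [rf3]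

theorem fderiv_rf3 (x v : E 3) : fderiv ℝ rf3 x v = rf3 v := by
  have h : rf3 = fr ![!₂[1, 0, 0], !₂[0, 1, 0], (!₂[0, 0, -1] : E 3)] := funext fun u => by
    refine ml_ext ?_ ?_ ?_ <;> simp [rf3, fr_apply, Fin.sum_univ_three]
  rw [h, ContinuousLinearMap.fderiv]

theorem dd_rf3 (x : E 3) : dd (rf3 x) = rf3 (dd x) := by
  have h : cub (rf3 x) = rf3 (cub x) := by refine ml_ext ?_ ?_ ?_ <;> simp [rf3, cub]
  rw [dd, dd, h, nrm, nrm, norm_rf3, rf3_smul]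

theorem contDiff_rfb (b : Bool) : ContDiff ℝ ∞ (rfb b) := by
  cases b
  exacts [contDiff_id, contDiff_rf3]

theorem rfb_rfb (b : Bool) (x : E 3) : rfb b (rfb b x) = x := by
  cases b
  exacts [rfl, rf3_rf3 x]

theorem norm_rfb (b : Bool) (x : E 3) : ‖rfb b x‖ = ‖x‖ := by
  cases b
  exacts [rfl, norm_rf3 x]

theorem gn_mem (x : E 3) : gn x ∈ S2 := by
  exact nrm_mem (ml_ne x)

theorem contDiff_gn : ContDiff ℝ ∞ gn := by
  exact contDiffOn_nrm.comp_contDiff (ml_cd (by fun_prop) (by fun_prop) (by fun_prop)) ml_ne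

theorem gn_inj {x y : E 3} (h : gn x = gn y) : x 0 = y 0 ∧ x 1 = y 1 := by
  have e := fun i => congrArg (fun u : E 3 => u i) h
  have h0 := e 0
  have h1 := e 1
  have h2 := e 2
  simp only [gn, nrm, PiLp.smul_apply, Matrix.cons_val, smul_eq_mul, mul_one] at h0 h1 h2
  have h3 := inv_ne_zero (norm_ne_zero_iff.2 (ml_ne y))
  rw [h2] at h0 h1
  exact ⟨mul_left_cancel₀ h3 h0, mul_left_cancel₀ h3 h1⟩

end Pool.Agent.CSP
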