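import Mathlib

/-! Smoothing relative to a closed set. -/

open scoped ContDiff
open Set

namespace Pool.Agent.CSP

variable {V W : Type} [NormedAddCommGroup V] [NormedSpace ℝ V] [FiniteDimensional ℝ V]
  [NormedAddCommGroup W] [NormedSpace ℝ W] [FiniteDimensional ℝ W]

/-- a map continuous on a closed set extends continuously (Tietze; `TietzeExtension.of_tvs`,
`ContinuousMap.exists_restrict_eq`) -/
theorem exists_ext_closed {K : Set V} (hK : IsClosed K) {f : V → W} (hf : ContinuousOn f K) :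
    ∃ g : V → W, Continuous g ∧ EqOn g f K := by
  have : TietzeExtension.{0, 0} W := TietzeExtension.of_tvs ℝ
  obtain ⟨g, hg⟩ := ContinuousMap.exists_restrict_eq hK ⟨K.domRestrict f, hf.domRestrict⟩
  exact ⟨g, g.continuous, fun x hx => DFunLike.congr_fun hg ⟨x, hx⟩⟩

/-- Approximation that agrees with `f` on the closed set `C` and is smooth off `C`.
Sketch. Extend `f`. On the open submanifold `Cᶜ` approximate within `min ε (infDist x C)`
(`Continuous.exists_contMDiff_approx` on the type `TopologicalSpace.Opens` coerced, or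
`exists_contMDiffOn_forall_mem_convex_of_local`-style gluing); put `g = f` on `C`. If `C = ∅` use
`Continuous.exists_contDiff_approx`. -/
theorem smoothrel {K C : Set V} (hK : IsClosed K) (hC : IsClosed C) {f : V → W}
    (hf : ContinuousOn f K) {ε : ℝ} (hε : 0 < ε) :
    ∃ g : V → W, Continuous g ∧ EqOn g f (K ∩ C) ∧ ContDiffOn ℝ ∞ g Cᶜ ∧
      ∀ x ∈ K, ‖g x - f x‖ < ε := by
  obtain ⟨f', hf', he⟩ := exists_ext_closed hK hf
  obtain ⟨ρ, hρ, hρc, hρ1⟩ := hC.isOpen_compl.exists_contDiff_support_eq (n := 0)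
  have hρ0 : ∀ x, 0 ≤ ρ x := fun x => (hρ1 ⟨x, rfl⟩).1
  let U : TopologicalSpace.Opens V := ⟨Cᶜ, hC.isOpen_compl⟩
  have := FiniteDimensional.proper_real V
  have : LocallyCompactSpace U := hC.isOpen_compl.locallyCompactSpace
  obtain ⟨g₀, hg₀, -⟩ := (hf'.comp continuous_subtype_val : Continuous fun x : U => f' x)
    |>.exists_contMDiff_approx (modelWithCornersSelf ℝ V) ⊤ (ε := fun x : U => ε * ρ x)
      (continuous_const.mul (hρc.continuous.comp continuous_subtype_val)) fun x =>
        mul_pos hε ((hρ0 x).lt_of_ne' (show (x : V) ∈ Function.support ρ from hρ ▸ x.2))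
  classical
  let g : V → W := fun x => if h : x ∈ U then g₀ ⟨x, h⟩ else f' x
  have h1 : ∀ x ∈ Cᶜ, ContDiffAt ℝ ∞ g x := fun x hx => by
    have e : (fun y : U => g y) = g₀ := funext fun y => dif_pos y.2
    have := g₀.contMDiff ⟨x, hx⟩
    rw [← e] at this
    exact (contMDiffAt_subtype_iff.1 this).contDiffAt
  have h2 : ∀ x ∈ C, g x = f' x := fun x hx => dif_neg (not_not.2 hx)
  have h3 : ∀ x ∈ Cᶜ, ‖g x - f' x‖ < ε * ρ x := fun x hx => by
    have e : g x = g₀ ⟨x, hx⟩ := dif_pos hx
    rw [e, ← dist_eq_norm]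
    exact hg₀ ⟨x, hx⟩
  have h4 : ∀ x, ‖g x - f' x‖ ≤ ε * ρ x := fun x => by
    by_cases hx : x ∈ C
    · rw [h2 x hx, sub_self, norm_zero]
      exact mul_nonneg hε.le (hρ0 x)
    · exact (h3 x hx).le
  refine ⟨g, continuous_iff_continuousAt.2 fun x => ?_, fun x hx => (h2 x hx.2).trans (he hx.1),
    fun x hx => (h1 x hx).contDiffWithinAt, fun x hx => ?_⟩
  · by_cases hx : x ∈ C
    · have h5 : ρ x = 0 := by
        by_contra e
        exact (hρ ▸ e : x ∈ Cᶜ) hx
      have h6 : Filter.Tendsto (fun y => ε * ρ y) (nhds x) (nhds 0) := by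
        have := (continuous_const.mul hρc.continuous (f := fun _ => ε)).tendsto x
        rwa [Pi.mul_apply, h5, mul_zero] at this
      have h7 := (squeeze_zero_norm h4 h6).add (hf'.tendsto x)
      simp only [sub_add_cancel, zero_add] at h7
      rwa [ContinuousAt, h2 x hx]
    · exact (h1 x hx).continuousAt
  · rw [← he hx]
    by_cases hx' : x ∈ C
    · rwa [h2 x hx', sub_self, norm_zero]
    · exact (h3 x hx').trans_le (mul_le_of_le_one_right hε.le (hρ1 ⟨x, rfl⟩).2)

/-- Approximation by a smooth map that keeps `f` on a closed set near which `f` is smooth.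
Sketch. Let `C ⊆ N₁ ⊆ closure N₁ ⊆ N`; `f` is continuous on the closed set `K ∪ closure N₁`; extend and
use `Continuous.exists_contDiff_approx_and_eqOn`. -/
theorem smoothkeep {K C N : Set V} (hK : IsClosed K) (hC : IsClosed C) (hN : IsOpen N)
    (hCN : C ⊆ N) {f : V → W} (hf : ContinuousOn f K) (hfN : ContDiffOn ℝ ∞ f N) {ε : ℝ}
    (hε : 0 < ε) :
    ∃ g : V → W, ContDiff ℝ ∞ g ∧ EqOn g f C ∧ ∀ x ∈ K, ‖g x - f x‖ < ε := by
  obtain ⟨N₁, h1, h2, h3⟩ := normal_exists_closure_subset hC hN hCN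
  obtain ⟨f', hf', he⟩ := exists_ext_closed (hK.union isClosed_closure)
    (hf.union_of_isClosed (hfN.continuousOn.mono h3) hK isClosed_closure)
  obtain ⟨g, hg, h4, h5, -⟩ := hf'.exists_contDiff_approx_and_eqOn ⊤ (ε := fun _ => ε)
    continuous_const (fun _ => hε) hC (h1.mem_nhdsSet.2 h2)
    ((hfN.mono (subset_closure.trans h3)).congr fun x hx => he (Or.inr (subset_closure hx)))
  refine ⟨g, hg, fun x hx => (h5 hx).trans (he (Or.inr (subset_closure (h2 hx)))), fun x hx => ?_⟩
  rw [← he (Or.inl hx), ← dist_eq_norm]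
  exact h4 x

end Pool.Agent.CSP
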