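import Pool.Agent.Lib.MP_436e1a_gt.A.ThinL
import Pool.Agent.Lib.MP_436e1a_gt.A.SmoothRel

/-! Maps of low dimensional sets to a punctured vector space. -/

open scoped ContDiff
open Set Module

namespace Pool.Agent.CSP

variable {V W : Type} [NormedAddCommGroup V] [NormedSpace ℝ V] [FiniteDimensional ℝ V]
  [NormedAddCommGroup W] [NormedSpace ℝ W] [FiniteDimensional ℝ W]

/-- Relative extension: a map of `K ∩ C` to `W ∖ 0` extends to `K` if `K` is thin of dimension less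
than `dim W`. -/
theorem ext_ne_zero {k : ℕ} {K C : Set V} (hK : IsClosed K) (hC : IsClosed C) (hk : Thin k K)
    (hW : k < finrank ℝ W) {f : V → W} (hf : ContinuousOn f (K ∩ C)) (h0 : ∀ x ∈ K ∩ C, f x ≠ 0) :
    ∃ g : V → W, Continuous g ∧ EqOn g f (K ∩ C) ∧ ∀ x ∈ K, g x ≠ 0 := by
  have hD := hK.inter hC
  obtain ⟨g, h1, h2, h3, -⟩ := smoothrel hD hD hf one_pos
  rw [inter_self] at h2
  obtain ⟨l, l1, l2, -⟩ := hD.isOpen_compl.exists_contDiff_support_eq (n := ⊤)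
  have l3 : ∀ x, l x ≠ 0 ↔ x ∉ K ∩ C := fun x => Set.ext_iff.1 l1 x
  have h4 : Thin k ((fun x => -((l x)⁻¹ • g x)) '' (K \ (K ∩ C))) :=
    (hk.mono sdiff_subset).image hD.isOpen_compl (fun _ hx => hx.2)
      ((l2.contDiffOn.inv fun x hx => (l3 x).2 hx).smul h3).neg
  obtain ⟨b, hb⟩ := (h4.dense_compl hW).nonempty
  have h5 : EqOn (fun x => g x + l x • b) f (K ∩ C) := fun x hx => by
    simp only [not_not.1 fun e => (l3 x).1 e hx, zero_smul, add_zero, h2 hx]
  refine ⟨fun x => g x + l x • b, h1.add (l2.continuous.smul continuous_const), h5, fun x hx e => ?_⟩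
  by_cases hx' : x ∈ K ∩ C
  · exact h0 x hx' ((h5 hx').symm.trans e)
  · refine hb ⟨x, ⟨hx, hx'⟩, ?_⟩
    simp only [eq_neg_of_add_eq_zero_left e, smul_neg, neg_neg,
      inv_smul_smul₀ ((l3 x).2 hx')]

/-- a map of the 2-sphere to `W ∖ 0` extends over the ball if `dim W ≥ 4` -/
theorem ext_ball (hW : 4 ≤ finrank ℝ W) {a : E 3 → W} (ha : ContinuousOn a S2)
    (h0 : ∀ x ∈ S2, a x ≠ 0) : ∃ D : E 3 → W, Continuous D ∧ EqOn D a S2 ∧ ∀ x ∈ B3, D x ≠ 0 := by
  have e : B3 ∩ S2 = S2 := inter_eq_right.2 Metric.sphere_subset_closedBall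
  have := ext_ne_zero (k := 3) (K := B3) (C := S2) Metric.isClosed_closedBall Metric.isClosed_sphere
    (thin_of_finrank (by simp) _) hW (f := a) (by rwa [e]) (by rwa [e])
  rwa [e] at this

end Pool.Agent.CSP
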