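import Mathlib

/-! Parallel transport for families of idempotents, by a finite product. -/

open scoped ContDiff
open Set

namespace Pool.Agent.CSP

variable {V W : Type} [NormedAddCommGroup V] [NormedSpace ℝ V]
  [NormedAddCommGroup W] [NormedSpace ℝ W] [CompleteSpace W]

/-- the elementary intertwiner -/
def trS {R : Type} [Ring R] (P' Q' P Q : R) : R :=
  Q' * Q + (P' - Q') * (P - Q) + (1 - P') * (1 - P)

theorem trS_self {R : Type} [Ring R] {P Q : R} (h1 : P * P = P) (h2 : Q * Q = Q) (h3 : P * Q = Q)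
    (h4 : Q * P = Q) : trS P Q P Q = 1 := by
  simp [trS, mul_sub, sub_mul, h1, h2, h3, h4]

theorem trS_comm {R : Type} [Ring R] {P Q P' Q' : R} (h1 : P * P = P) (h2 : Q * Q = Q)
    (h3 : P * Q = Q) (h4 : Q * P = Q) (g1 : P' * P' = P') (g2 : Q' * Q' = Q') (g3 : P' * Q' = Q')
    (g4 : Q' * P' = Q') :
    P' * trS P' Q' P Q = trS P' Q' P Q * P ∧ Q' * trS P' Q' P Q = trS P' Q' P Q * Q := by
  constructor <;>
  · simp only [trS, mul_add, ← mul_assoc, mul_sub _ P', mul_sub _ 1 P', mul_one, g1, g2, g3, g4]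
    simp only [add_mul, mul_assoc, sub_mul P, sub_mul 1 P, one_mul, h1, h2, h3, h4, sub_self,
      mul_zero, zero_mul]

/-- Two nested families of idempotents `Q ≤ P` are conjugate to their values at time `0`.
Use `n = 0` (`contDiffOn_zero`) for continuous families and `Q = 0` for a single family. -/
theorem transport2 (n : WithTop ℕ∞) {J : Set ℝ} (hJ : Convex ℝ J) (hJ1 : Icc 0 1 ⊆ J)
    {W₀ K : Set V} (hK : IsCompact K) (hKW : K ⊆ W₀) {P Q : ℝ × V → W →L[ℝ] W}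
    (hP : ContDiffOn ℝ n P (J ×ˢ W₀)) (hQ : ContDiffOn ℝ n Q (J ×ˢ W₀))
    (hPP : ∀ p ∈ J ×ˢ W₀, P p * P p = P p) (hQQ : ∀ p ∈ J ×ˢ W₀, Q p * Q p = Q p)
    (hPQ : ∀ p ∈ J ×ˢ W₀, P p * Q p = Q p) (hQP : ∀ p ∈ J ×ˢ W₀, Q p * P p = Q p) :
    ∃ Θ : ℝ × V → W →L[ℝ] W, ContDiffOn ℝ n Θ (J ×ˢ W₀) ∧ (∀ u ∈ W₀, Θ (0, u) = 1) ∧
      (∀ p ∈ J ×ˢ W₀, P p * Θ p = Θ p * P (0, p.2) ∧ Q p * Θ p = Θ p * Q (0, p.2)) ∧
      ∀ p ∈ Icc 0 1 ×ˢ K, IsUnit (Θ p) := by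
  have h0 : (0 : ℝ) ∈ J := hJ1 ⟨le_rfl, zero_le_one⟩
  let S : (ℝ × ℝ) × V → W →L[ℝ] W := fun x =>
    trS (P (x.1.1, x.2)) (Q (x.1.1, x.2)) (P (x.1.2, x.2)) (Q (x.1.2, x.2))
  have hS : ContDiffOn ℝ n S ((J ×ˢ J) ×ˢ W₀) := by
    have a : ∀ {T : ℝ × V → W →L[ℝ] W}, ContDiffOn ℝ n T (J ×ˢ W₀) →
        ContDiffOn ℝ n (fun x : (ℝ × ℝ) × V => T (x.1.1, x.2)) ((J ×ˢ J) ×ˢ W₀) := fun h =>
      h.comp (by fun_prop) fun x hx => ⟨hx.1.1, hx.2⟩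
    have b : ∀ {T : ℝ × V → W →L[ℝ] W}, ContDiffOn ℝ n T (J ×ˢ W₀) →
        ContDiffOn ℝ n (fun x : (ℝ × ℝ) × V => T (x.1.2, x.2)) ((J ×ˢ J) ×ˢ W₀) := fun h =>
      h.comp (by fun_prop) fun x hx => ⟨hx.1.2, hx.2⟩
    exact (((a hQ).mul (b hQ)).add (((a hP).sub (a hQ)).mul ((b hP).sub (b hQ)))).add
      ((contDiffOn_const.sub (a hP)).mul (contDiffOn_const.sub (b hP)))
  have h1 : ∀ t ∈ J, ∀ u ∈ W₀, S ((t, t), u) = 1 := fun t ht u hu =>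
    trS_self (hPP _ ⟨ht, hu⟩) (hQQ _ ⟨ht, hu⟩) (hPQ _ ⟨ht, hu⟩) (hQP _ ⟨ht, hu⟩)
  obtain ⟨δ, hδ, h2⟩ := Metric.uniformContinuousOn_iff.1
    (((isCompact_Icc.prod isCompact_Icc).prod hK).uniformContinuousOn_of_continuous
      (hS.continuousOn.mono (prod_mono (prod_mono hJ1 hJ1) hKW))) 1 one_pos
  obtain ⟨m, hm⟩ := exists_nat_one_div_lt hδ
  have hm0 : (0 : ℝ) < m + 1 := by positivity
  have hc : ∀ k : ℕ, k ≤ m + 1 → (k / (m + 1) : ℝ) ∈ Icc (0 : ℝ) 1 := fun k hk =>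
    ⟨by positivity, (div_le_one hm0).2 (by exact_mod_cast hk)⟩
  have hJ' : ∀ k : ℕ, k ≤ m + 1 → ∀ t ∈ J, (k / (m + 1) : ℝ) * t ∈ J := fun k hk t ht =>
    hJ.smul_mem_of_zero_mem h0 ht (hc k hk)
  suffices H : ∀ k : ℕ, k ≤ m + 1 → ∃ Θ : ℝ × V → W →L[ℝ] W, ContDiffOn ℝ n Θ (J ×ˢ W₀) ∧
      (∀ u ∈ W₀, Θ (0, u) = 1) ∧ (∀ p ∈ J ×ˢ W₀,
        P (k / (m + 1) * p.1, p.2) * Θ p = Θ p * P (0, p.2) ∧
        Q (k / (m + 1) * p.1, p.2) * Θ p = Θ p * Q (0, p.2)) ∧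
      ∀ p ∈ Icc 0 1 ×ˢ K, IsUnit (Θ p) by
    simpa only [Nat.cast_add, Nat.cast_one, div_self hm0.ne', one_mul] using H _ le_rfl
  intro k
  induction k with
  | zero => exact fun _ => ⟨fun _ => 1, contDiffOn_const, fun _ _ => rfl, fun _ _ => by simp,
      fun _ _ => isUnit_one⟩
  | succ k ih =>
    intro hk
    have hk' := Nat.le_of_succ_le hk
    obtain ⟨Θ, a, b, c, d⟩ := ih hk'
    refine ⟨fun p => S (((k + 1 : ℕ) / (m + 1) * p.1, k / (m + 1) * p.1), p.2) * Θ p,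
      (hS.comp (by fun_prop) fun p hp => ⟨⟨hJ' _ hk _ hp.1, hJ' _ hk' _ hp.1⟩, hp.2⟩).mul a,
      fun u hu => by simp only [mul_zero, h1 0 h0 u hu, b u hu, mul_one], fun p hp => ?_,
      fun p hp => .mul ?_ (d p hp)⟩
    · have q : (k / (m + 1) * p.1, p.2) ∈ J ×ˢ W₀ := ⟨hJ' _ hk' _ hp.1, hp.2⟩
      have q' : ((k + 1 : ℕ) / (m + 1) * p.1, p.2) ∈ J ×ˢ W₀ := ⟨hJ' _ hk _ hp.1, hp.2⟩
      obtain ⟨e, e'⟩ := trS_comm (hPP _ q) (hQQ _ q) (hPQ _ q) (hQP _ q) (hPP _ q') (hQQ _ q')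
        (hPQ _ q') (hQP _ q')
      exact ⟨by rw [← mul_assoc, e, mul_assoc, (c p hp).1, ← mul_assoc],
        by rw [← mul_assoc, e', mul_assoc, (c p hp).2, ← mul_assoc]⟩
    · have i : ∀ j : ℕ, j ≤ m + 1 → (j / (m + 1) * p.1 : ℝ) ∈ Icc (0 : ℝ) 1 := fun j hj =>
        ⟨mul_nonneg (hc j hj).1 hp.1.1, mul_le_one₀ (hc j hj).2 hp.1.1 hp.1.2⟩
      have h3 := h2 ((_, _), p.2) ⟨⟨i k hk', i k hk'⟩, hp.2⟩ ((_, _), p.2)
        ⟨⟨i _ hk, i k hk'⟩, hp.2⟩ (by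
          rw [dist_prod_same_right, dist_prod_same_right, dist_comm, Real.dist_eq, ← sub_mul,
            ← sub_div, Nat.cast_succ, add_sub_cancel_left, abs_of_nonneg (mul_nonneg
              (by positivity) hp.1.1)]
          exact (mul_le_of_le_one_right (by positivity) hp.1.2).trans_lt hm)
      rw [h1 _ (hJ1 (i k hk')) _ (hKW hp.2), dist_eq_norm] at h3
      simpa only [sub_sub_cancel] using isUnit_one_sub_of_norm_lt_one h3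

end Pool.Agent.CSP
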