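import Pool.Agent.Lib.MP_436e1a_gt.A.So3
import Pool.Agent.Lib.MP_436e1a_gt.A.Transport

/-! The fundamental group of `GL₅⁺` has no 3-torsion. -/

open Set

namespace Pool.Agent.CSP

/-- the loop `γ` of the unit circle extends over the disc inside `det > 0` -/
def ExtD {V : Type} [NormedAddCommGroup V] [NormedSpace ℝ V] (γ : ℂ → V →L[ℝ] V) : Prop :=
  ∃ Γ : ℂ → V →L[ℝ] V, ContinuousOn Γ (Metric.closedBall 0 1) ∧
    (∀ z ∈ Metric.closedBall (0 : ℂ) 1, 0 < (Γ z).det) ∧ EqOn Γ γ (Metric.sphere 0 1)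

/-- free homotopy of loops inside `det > 0` -/
def HtpD {V : Type} [NormedAddCommGroup V] [NormedSpace ℝ V] (γ γ' : ℂ → V →L[ℝ] V) : Prop :=
  ∃ H : ℝ × ℂ → V →L[ℝ] V, ContinuousOn H (Icc 0 1 ×ˢ Metric.sphere 0 1) ∧
    (∀ p ∈ Icc (0 : ℝ) 1 ×ˢ Metric.sphere (0 : ℂ) 1, 0 < (H p).det) ∧
    ∀ z ∈ Metric.sphere (0 : ℂ) 1, H (0, z) = γ z ∧ H (1, z) = γ' z

theorem pi1_glue {X Y : Type} [TopologicalSpace X] [TopologicalSpace Y] {s t : Set X}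
    (hs : IsClosed s) (ht : IsClosed t) {f g : X → Y} (hf : ContinuousOn f s)
    (hg : ContinuousOn g t) (h : ∀ x ∈ s, x ∈ t → f x = g x) :
    ∃ F : X → Y, ContinuousOn F (s ∪ t) ∧ EqOn F f s ∧ EqOn F g t := by
  classical
  have h1 : EqOn (s.piecewise f g) f s := piecewise_eqOn s f g
  have h2 : EqOn (s.piecewise f g) g t := fun x hx => by
    by_cases hx' : x ∈ s
    · exact (h1 hx').trans (h x hx' hx)
    · exact piecewise_eq_of_notMem _ _ _ hx'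
  exact ⟨_, (hf.congr h1).union_of_isClosed (hg.congr h2) hs ht, h1, h2⟩

/-- glue the homotopy as a collar -/
theorem ExtD.of_htp {V : Type} [NormedAddCommGroup V] [NormedSpace ℝ V] {γ γ' : ℂ → V →L[ℝ] V}
    (h : ExtD γ) (H : HtpD γ γ') : ExtD γ' := by
  obtain ⟨Γ, h1, h2, h3⟩ := h
  obtain ⟨H, k1, k2, k3⟩ := H
  have m1 : MapsTo (fun z : ℂ => (2 : ℝ) • z) (Metric.closedBall 0 (1 / 2)) (Metric.closedBall 0 1) :=
    fun z hz => by
      rw [mem_closedBall_zero_iff] at hz ⊢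
      rw [norm_smul, Real.norm_two]
      linarith
  let t : Set ℂ := {z | ‖z‖ ∈ Icc (1 / 2 : ℝ) 1}
  have t0 : ∀ z ∈ t, ‖z‖ ≠ 0 := fun z hz e => by
    have := hz.1
    rw [e] at this
    linarith
  have m2 : MapsTo (fun z : ℂ => (2 * ‖z‖ - 1, ‖z‖⁻¹ • z)) t (Icc 0 1 ×ˢ Metric.sphere 0 1) :=
    fun z hz => ⟨⟨by linarith [hz.1], by linarith [hz.2]⟩, by
      rw [mem_sphere_zero_iff_norm, norm_smul, norm_inv, norm_norm, inv_mul_cancel₀ (t0 z hz)]⟩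
  obtain ⟨G, g1, g2, g3⟩ := pi1_glue Metric.isClosed_closedBall
    (isClosed_Icc.preimage continuous_norm : IsClosed t) (h1.comp (by fun_prop) m1)
    (k1.comp (ContinuousOn.prodMk (by fun_prop)
      ((continuous_norm.continuousOn.inv₀ t0).smul continuousOn_id)) m2) fun z hz hz' => by
      have e : ‖z‖ = 1 / 2 := le_antisymm (mem_closedBall_zero_iff.1 hz) hz'.1
      have hm : (2 : ℝ) • z ∈ Metric.sphere (0 : ℂ) 1 := by
        rw [mem_sphere_zero_iff_norm, norm_smul, Real.norm_two, e]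
        norm_num
      change Γ ((2 : ℝ) • z) = H (2 * ‖z‖ - 1, ‖z‖⁻¹ • z)
      rw [e, h3 hm, ← (k3 _ hm).1]
      norm_num
  have hc : Metric.closedBall (0 : ℂ) 1 ⊆ Metric.closedBall 0 (1 / 2) ∪ t := fun z hz =>
    (le_total ‖z‖ (1 / 2)).imp mem_closedBall_zero_iff.2 fun h => ⟨h, mem_closedBall_zero_iff.1 hz⟩
  refine ⟨G, g1.mono hc, fun z hz => ?_, fun z hz => ?_⟩
  · rcases hc hz with h | h
    · rw [g2 h]
      exact h2 _ (m1 h)
    · rw [g3 h]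
      exact k2 _ (m2 h)
  · have e : ‖z‖ = 1 := mem_sphere_zero_iff_norm.1 hz
    rw [g3 (show z ∈ t from ⟨by rw [e]; norm_num, e.le⟩), ← (k3 z hz).2]
    change H (2 * ‖z‖ - 1, ‖z‖⁻¹ • z) = _
    rw [e]
    norm_num

section

variable {V W : Type} [NormedAddCommGroup V] [NormedSpace ℝ V] [NormedAddCommGroup W]
  [NormedSpace ℝ W] {γ γ' γ'' : ℂ → V →L[ℝ] V}

theorem HtpD.symm (h : HtpD γ γ') : HtpD γ' γ := by
  obtain ⟨H, k1, k2, k3⟩ := h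
  have m : MapsTo (fun p : ℝ × ℂ => (1 - p.1, p.2)) (Icc 0 1 ×ˢ Metric.sphere 0 1)
      (Icc 0 1 ×ˢ Metric.sphere 0 1) :=
    fun p hp => ⟨⟨by linarith [hp.1.2], by linarith [hp.1.1]⟩, hp.2⟩
  refine ⟨_, k1.comp (by fun_prop) m, fun p hp => k2 _ (m hp), fun z hz => ?_⟩
  simpa using (k3 z hz).symm

theorem HtpD.trans (h : HtpD γ γ') (h' : HtpD γ' γ'') : HtpD γ γ'' := by
  obtain ⟨H, h1, h2, h3⟩ := h
  obtain ⟨H', k1, k2, k3⟩ := h'
  have m1 : MapsTo (fun p : ℝ × ℂ => (2 * p.1, p.2)) (Icc 0 (1 / 2) ×ˢ Metric.sphere 0 1)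
      (Icc 0 1 ×ˢ Metric.sphere 0 1) :=
    fun p hp => ⟨⟨by linarith [hp.1.1], by linarith [hp.1.2]⟩, hp.2⟩
  have m2 : MapsTo (fun p : ℝ × ℂ => (2 * p.1 - 1, p.2)) (Icc (1 / 2) 1 ×ˢ Metric.sphere 0 1)
      (Icc 0 1 ×ˢ Metric.sphere 0 1) :=
    fun p hp => ⟨⟨by linarith [hp.1.1], by linarith [hp.1.2]⟩, hp.2⟩
  obtain ⟨G, g1, g2, g3⟩ := pi1_glue (isClosed_Icc.prod Metric.isClosed_sphere)
    (isClosed_Icc.prod Metric.isClosed_sphere) (h1.comp (by fun_prop) m1)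
    (k1.comp (by fun_prop) m2) fun p hp hp' => by
      have e : p.1 = 1 / 2 := le_antisymm hp.1.2 hp'.1.1
      simp only [Function.comp_apply, e]
      norm_num
      rw [(h3 _ hp.2).2, (k3 _ hp.2).1]
  have hc : Icc (0 : ℝ) 1 ×ˢ Metric.sphere (0 : ℂ) 1 ⊆ Icc 0 (1 / 2) ×ˢ Metric.sphere 0 1 ∪
      Icc (1 / 2) 1 ×ˢ Metric.sphere 0 1 := fun p hp =>
    (le_total p.1 (1 / 2)).imp (fun h => ⟨⟨hp.1.1, h⟩, hp.2⟩) fun h => ⟨⟨h, hp.1.2⟩, hp.2⟩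
  refine ⟨G, g1.mono hc, fun p hp => ?_, fun z hz => ⟨?_, ?_⟩⟩
  · rcases hc hp with h | h
    · rw [g2 h]
      exact h2 _ (m1 h)
    · rw [g3 h]
      exact k2 _ (m2 h)
  · rw [g2 (show ((0 : ℝ), z) ∈ _ from ⟨⟨le_rfl, by norm_num⟩, hz⟩), ← (h3 z hz).1]
    simp
  · rw [g3 (show ((1 : ℝ), z) ∈ _ from ⟨⟨by norm_num, le_rfl⟩, hz⟩), ← (k3 z hz).2]
    simp only [Function.comp_apply]
    norm_num

theorem HtpD.cube (h : HtpD γ γ') : HtpD (fun z => γ (z ^ 3)) fun z => γ' (z ^ 3) := by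
  obtain ⟨H, k1, k2, k3⟩ := h
  have m0 : ∀ z ∈ Metric.sphere (0 : ℂ) 1, z ^ 3 ∈ Metric.sphere (0 : ℂ) 1 := fun z hz => by
    rw [mem_sphere_zero_iff_norm] at hz ⊢
    rw [norm_pow, hz, one_pow]
  have m : MapsTo (fun p : ℝ × ℂ => (p.1, p.2 ^ 3)) (Icc 0 1 ×ˢ Metric.sphere 0 1)
      (Icc 0 1 ×ˢ Metric.sphere 0 1) := fun p hp => ⟨hp.1, m0 _ hp.2⟩
  exact ⟨_, k1.comp (by fun_prop) m, fun p hp => k2 _ (m hp), fun z hz => k3 _ (m0 z hz)⟩

theorem HtpD.map (h : HtpD γ γ') {Φ : (V →L[ℝ] V) → W →L[ℝ] W} (hΦ : Continuous Φ)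
    (hd : ∀ A, (Φ A).det = A.det) : HtpD (fun z => Φ (γ z)) fun z => Φ (γ' z) := by
  obtain ⟨H, k1, k2, k3⟩ := h
  exact ⟨Φ ∘ H, hΦ.comp_continuousOn k1, fun p hp => (hd _).symm ▸ k2 p hp,
    fun z hz => ⟨congrArg Φ (k3 z hz).1, congrArg Φ (k3 z hz).2⟩⟩

theorem ExtD.map (h : ExtD γ) {Φ : (V →L[ℝ] V) → W →L[ℝ] W} (hΦ : Continuous Φ)
    (hd : ∀ A, (Φ A).det = A.det) : ExtD fun z => Φ (γ z) := by
  obtain ⟨H, k1, k2, k3⟩ := h
  exact ⟨Φ ∘ H, hΦ.comp_continuousOn k1, fun p hp => (hd _).symm ▸ k2 p hp,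
    fun z hz => congrArg Φ (k3 hz)⟩

theorem pi1_pos {f : ℝ → ℝ} {a b : ℝ} (hf : ContinuousOn f (Icc a b)) (h0 : 0 < f a)
    (h : ∀ t ∈ Icc a b, f t ≠ 0) : ∀ t ∈ Icc a b, 0 < f t := fun t ht => by
  by_contra hn
  obtain ⟨s, hs, e⟩ := intermediate_value_Icc' ht.1 (hf.mono (Icc_subset_Icc_right ht.2))
    ⟨not_lt.1 hn, h0.le⟩
  exact h s ⟨hs.1, hs.2.trans ht.2⟩ e

variable [FiniteDimensional ℝ V]

theorem pi1_det {A : V →L[ℝ] V} : A.det ≠ 0 ↔ ∀ v, A v = 0 → v = 0 := by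
  rw [ContinuousLinearMap.det, Ne, LinearMap.det_eq_zero_iff_ker_ne_bot, not_not,
    LinearMap.ker_eq_bot']
  rfl

theorem pi1_of_inj {H : ℝ × ℂ → V →L[ℝ] V} (hH : ContinuousOn H (Icc 0 1 ×ˢ Metric.sphere 0 1))
    (h0 : ∀ z ∈ Metric.sphere (0 : ℂ) 1, 0 < (H (0, z)).det)
    (hi : ∀ p ∈ Icc (0 : ℝ) 1 ×ˢ Metric.sphere (0 : ℂ) 1, ∀ v, H p v = 0 → v = 0) :
    ∀ p ∈ Icc (0 : ℝ) 1 ×ˢ Metric.sphere (0 : ℂ) 1, 0 < (H p).det := fun p hp =>
  pi1_pos (f := fun t => (H (t, p.2)).det) (ContinuousLinearMap.continuous_det.comp_continuousOn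
    (hH.comp (by fun_prop) fun t ht => ⟨ht, hp.2⟩)) (h0 _ hp.2)
    (fun t ht => pi1_det.2 (hi _ ⟨ht, hp.2⟩)) _ hp.1

theorem pi1_stab (A : V →L[ℝ] V) : (A.prodMap (ContinuousLinearMap.id ℝ ℝ)).det = A.det := by
  rw [ContinuousLinearMap.det, ContinuousLinearMap.coe_prodMap, LinearMap.det_prodMap,
    ContinuousLinearMap.coe_id, LinearMap.det_id, mul_one]

theorem pi1_thin : Thin 2 (Icc (0 : ℝ) 1 ×ˢ Metric.sphere (0 : ℂ) 1) := by
  have h1 : Thin 1 (univ : Set ℝ) := thin_of_finrank (by simp) _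
  have h2 := h1.image isOpen_univ subset_rfl (contDiff_circleMap 0 1).contDiffOn
  rw [image_univ, range_circleMap, abs_one] at h2
  exact (h1.mono (subset_univ _)).prod h2

/-- a family of automorphisms that moves `c (0, z)` along the positive rays of `c (t, z)` -/
theorem pi1_move {c : ℝ × ℂ → V} (hc : Continuous c)
    (h0 : ∀ p ∈ Icc (0 : ℝ) 1 ×ˢ Metric.sphere (0 : ℂ) 1, c p ≠ 0) :
    ∃ Θ : ℝ × ℂ → V →L[ℝ] V, ContinuousOn Θ (Icc 0 1 ×ˢ Metric.sphere 0 1) ∧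
      (∀ z ∈ Metric.sphere (0 : ℂ) 1, Θ (0, z) = 1) ∧
      ∀ p ∈ Icc (0 : ℝ) 1 ×ˢ Metric.sphere (0 : ℂ) 1, (∀ v, Θ p v = 0 → v = 0) ∧
        ∃ l : ℝ, 0 < l ∧ Θ p (c (0, p.2)) = l • c p := by
  have := FiniteDimensional.complete ℝ V
  let φ : ℝ × ℂ → V →L[ℝ] ℝ := fun p =>
    (‖toEuclidean (c p)‖ ^ 2)⁻¹ • (innerSL ℝ (toEuclidean (c p))).comp (toEuclidean (E := V)).toContinuousLinearMap
  have hn : ∀ p ∈ Icc (0 : ℝ) 1 ×ˢ Metric.sphere (0 : ℂ) 1, ‖toEuclidean (c p)‖ ^ 2 ≠ 0 :=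
    fun p hp => pow_ne_zero _ (norm_ne_zero_iff.2 fun e => h0 p hp (by simpa using e))
  have hφ : ContinuousOn φ (Icc 0 1 ×ˢ Metric.sphere 0 1) :=
    (ContinuousOn.inv₀ (by fun_prop) hn).smul (by fun_prop)
  have h1 : ∀ p ∈ Icc (0 : ℝ) 1 ×ˢ Metric.sphere (0 : ℂ) 1, φ p (c p) = 1 := fun p hp => by
    simp only [φ, smul_apply, ContinuousLinearMap.comp_apply,
      ContinuousLinearEquiv.coe_coe, innerSL_apply_apply, real_inner_self_eq_norm_sq, smul_eq_mul]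
    exact inv_mul_cancel₀ (hn p hp)
  obtain ⟨Θ, t1, t2, t3, t4⟩ := transport2 0 (convex_Icc (0 : ℝ) 1) subset_rfl
    (isCompact_sphere (0 : ℂ) 1) subset_rfl (P := fun _ => 1) (Q := fun p => (φ p).smulRight (c p))
    contDiffOn_const (contDiffOn_zero.2 ((ContinuousLinearMap.smulRightL ℝ V V).continuous₂.comp_continuousOn
      (hφ.prodMk hc.continuousOn))) (fun _ _ => mul_one _)
    (fun p hp => ContinuousLinearMap.ext fun v => by simp [h1 p hp]) (fun _ _ => one_mul _)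
    fun _ _ => mul_one _
  rw [contDiffOn_zero] at t1
  have hi : ∀ p ∈ Icc (0 : ℝ) 1 ×ˢ Metric.sphere (0 : ℂ) 1, ∀ v, Θ p v = 0 → v = 0 :=
    fun p hp v hv => by
      obtain ⟨u, hu⟩ := t4 p hp
      have : (u⁻¹ : (V →L[ℝ] V)ˣ).1 (Θ p v) = v := by
        rw [← hu, ← mul_apply_eq_comp, Units.inv_mul, one_apply_eq_self]
      rw [← this, hv, map_zero]
  have m : ∀ z ∈ Metric.sphere (0 : ℂ) 1, ((0 : ℝ), z) ∈ Icc (0 : ℝ) 1 ×ˢ Metric.sphere (0 : ℂ) 1 :=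
    fun z hz => ⟨⟨le_rfl, zero_le_one⟩, hz⟩
  have he : ∀ p ∈ Icc (0 : ℝ) 1 ×ˢ Metric.sphere (0 : ℂ) 1,
      Θ p (c (0, p.2)) = φ p (Θ p (c (0, p.2))) • c p := fun p hp => by
    have := DFunLike.congr_fun (t3 p hp).2 (c (0, p.2))
    simpa [h1 _ (m _ hp.2)] using this.symm
  refine ⟨Θ, t1, t2, fun p hp => ⟨hi p hp, _, ?_, he p hp⟩⟩
  have k : MapsTo (fun t => (t, p.2)) (Icc (0 : ℝ) 1) (Icc (0 : ℝ) 1 ×ˢ Metric.sphere (0 : ℂ) 1) :=
    fun t ht => ⟨ht, hp.2⟩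
  refine pi1_pos (f := fun t => φ (t, p.2) (Θ (t, p.2) (c (0, p.2))))
    ((hφ.comp (by fun_prop) k).clm_apply ((t1.comp (by fun_prop) k).clm_apply continuousOn_const))
    ?_ (fun t ht e => ?_) _ hp.1
  · simp only [t2 _ hp.2, one_apply_eq_self, h1 _ (m _ hp.2), zero_lt_one]
  · have := he _ (k ht)
    rw [e, zero_smul] at this
    exact h0 _ (m _ hp.2) (hi _ (k ht) _ this)

end

theorem pi1_tri {U : Type} [NormedAddCommGroup U] [NormedSpace ℝ U] [FiniteDimensional ℝ U]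
    {A : ℂ → U × ℝ →L[ℝ] U × ℝ} (a1 : ContinuousOn A (Metric.sphere 0 1))
    (a2 : ∀ z ∈ Metric.sphere (0 : ℂ) 1, 0 < (A z).det)
    (a3 : ∀ z ∈ Metric.sphere (0 : ℂ) 1, ∃ l : ℝ, 0 < l ∧ A z (0, 1) = (0, l)) :
    ∃ γ' : ℂ → U →L[ℝ] U, ContinuousOn γ' (Metric.sphere 0 1) ∧
      (∀ z ∈ Metric.sphere (0 : ℂ) 1, 0 < (γ' z).det) ∧
      HtpD A fun z => (γ' z).prodMap (ContinuousLinearMap.id ℝ ℝ) := by
  let γ' : ℂ → U →L[ℝ] U := fun z =>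
    (ContinuousLinearMap.fst ℝ U ℝ).comp ((A z).comp (ContinuousLinearMap.inl ℝ U ℝ))
  have g1 : ContinuousOn γ' (Metric.sphere 0 1) :=
    continuousOn_const.clm_comp (a1.clm_comp continuousOn_const)
  let H : ℝ × ℂ → U × ℝ →L[ℝ] U × ℝ := fun p =>
    (1 - p.1) • A p.2 + p.1 • (γ' p.2).prodMap (ContinuousLinearMap.id ℝ ℝ)
  have hs : MapsTo Prod.snd (Icc (0 : ℝ) 1 ×ˢ Metric.sphere (0 : ℂ) 1) (Metric.sphere 0 1) :=
    fun p hp => hp.2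
  have k1 : ContinuousOn H (Icc 0 1 ×ˢ Metric.sphere 0 1) :=
    ((continuousOn_const.sub continuousOn_fst).smul (a1.comp continuousOn_snd hs)).add
      (continuousOn_fst.smul ((g1.comp continuousOn_snd hs).prod_mapL ℝ continuousOn_const))
  have k0 : ∀ z, H (0, z) = A z := fun z => by simp [H]
  have k2 : ∀ z, H (1, z) = (γ' z).prodMap (ContinuousLinearMap.id ℝ ℝ) := fun z => by simp [H]
  have k3 := pi1_of_inj k1 (fun z hz => (k0 z).symm ▸ a2 z hz) fun p hp v hv => by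
    obtain ⟨l, hl, e⟩ := a3 _ hp.2
    obtain ⟨u, s⟩ := v
    have e2 : ∀ s : ℝ, A p.2 (u, s) = A p.2 (u, 0) + s • (0, l) := fun s => by
      rw [← e, ← map_smul, ← map_add]
      simp
    have e3 : (A p.2 (u, 0)).1 = 0 := by
      have := congrArg Prod.fst hv
      simp only [H, γ', add_apply, smul_apply, e2 s] at this
      simpa [← add_smul] using this
    have e4 := pi1_det.1 (a2 _ hp.2).ne' (u, -(A p.2 (u, 0)).2 / l) (by
      rw [e2]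
      ext
      · simp [e3]
      · simp [hl.ne'])
    obtain rfl : u = 0 := congrArg Prod.fst e4
    have e5 := congrArg Prod.snd hv
    simp only [H, add_apply, smul_apply, e2 s] at e5
    have e6 : ((1 - p.1) * l + p.1) * s = 0 := by
      have z0 : A p.2 (0, 0) = 0 := map_zero _
      simp [z0] at e5
      linarith
    have e7 : 0 < (1 - p.1) * l + p.1 := by
      rcases hp.1.1.eq_or_lt with h | h
      · rw [← h]
        linarith
      · nlinarith [hp.1.2]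
    rw [(mul_eq_zero.1 e6).resolve_left e7.ne']
    rfl
  refine ⟨γ', g1, fun z hz => ?_, H, k1, k3, fun z _ => ⟨k0 z, k2 z⟩⟩
  rw [← pi1_stab, ← k2]
  exact k3 _ ⟨⟨zero_le_one, le_rfl⟩, hz⟩

/-- Destabilisation. A loop in `GL⁺ (U × ℝ)`, `dim U ≥ 3`, is homotopic to
`γ' ⊕ 1`. -/
theorem htp_destab {U : Type} [NormedAddCommGroup U] [NormedSpace ℝ U] [FiniteDimensional ℝ U]
    (hU : 3 ≤ Module.finrank ℝ U) {γ : ℂ → U × ℝ →L[ℝ] U × ℝ}
    (hγ : ContinuousOn γ (Metric.sphere 0 1)) (h0 : ∀ z ∈ Metric.sphere (0 : ℂ) 1, 0 < (γ z).det) :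
    ∃ γ' : ℂ → U →L[ℝ] U, ContinuousOn γ' (Metric.sphere 0 1) ∧
      (∀ z ∈ Metric.sphere (0 : ℂ) 1, 0 < (γ' z).det) ∧
      HtpD γ fun z => (γ' z).prodMap (ContinuousLinearMap.id ℝ ℝ) := by
  have hS : IsClosed (Icc (0 : ℝ) 1 ×ˢ Metric.sphere (0 : ℂ) 1) :=
    isClosed_Icc.prod Metric.isClosed_sphere
  have hγ' : ContinuousOn (fun p : ℝ × ℂ => γ p.2) (Icc (0 : ℝ) 1 ×ˢ Metric.sphere (0 : ℂ) 1) :=
    hγ.comp continuousOn_snd fun p hp => hp.2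
  have e0 : ((0, 1) : U × ℝ) ≠ 0 := fun e => one_ne_zero (congrArg Prod.snd e)
  obtain ⟨c, c1, c2, c3⟩ := ext_ne_zero (W := U × ℝ) (C := {p : ℝ × ℂ | p.1 = 0 ∨ p.1 = 1}) hS
    ((isClosed_eq continuous_fst continuous_const).union (isClosed_eq continuous_fst continuous_const))
    pi1_thin (by simp; omega) (f := fun p => (1 - p.1) • γ p.2 (0, 1) + p.1 • (0, 1))
    ((((continuousOn_const.sub continuousOn_fst).smul (hγ'.clm_apply continuousOn_const)).add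
      (continuousOn_fst.smul continuousOn_const)).mono inter_subset_left) fun p hp => by
      rcases hp.2 with h | h
      · rw [h, sub_zero, one_smul, zero_smul, add_zero]
        exact fun e => e0 (pi1_det.1 (h0 _ hp.1.2).ne' _ e)
      · rwa [h, sub_self, one_smul, zero_smul, zero_add]
  obtain ⟨Θ, t1, t2, t3⟩ := pi1_move c1 c3
  have m0 : ∀ z ∈ Metric.sphere (0 : ℂ) 1, ((0 : ℝ), z) ∈ Icc (0 : ℝ) 1 ×ˢ Metric.sphere (0 : ℂ) 1 :=
    fun z hz => ⟨⟨le_rfl, zero_le_one⟩, hz⟩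
  have m1 : ∀ z ∈ Metric.sphere (0 : ℂ) 1, ((1 : ℝ), z) ∈ Icc (0 : ℝ) 1 ×ˢ Metric.sphere (0 : ℂ) 1 :=
    fun z hz => ⟨⟨zero_le_one, le_rfl⟩, hz⟩
  have hH : ContinuousOn (fun p => (Θ p).comp (γ p.2)) (Icc 0 1 ×ˢ Metric.sphere 0 1) :=
    t1.clm_comp hγ'
  have e1 : ∀ z ∈ Metric.sphere (0 : ℂ) 1, (Θ (0, z)).comp (γ z) = γ z := fun z hz => by
    rw [t2 z hz]
    rfl
  have hp := pi1_of_inj hH (fun z hz => (e1 z hz).symm ▸ h0 z hz) fun p hp v hv =>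
    pi1_det.1 (h0 _ hp.2).ne' _ ((t3 p hp).1 _ hv)
  have hc : Continuous fun z : ℂ => ((1 : ℝ), z) := by fun_prop
  obtain ⟨γ', g1, g2, g3⟩ := pi1_tri (A := fun z => (Θ (1, z)).comp (γ z))
    ((t1.comp hc.continuousOn m1).clm_comp hγ) (fun z hz => hp _ (m1 z hz)) fun z hz => by
      obtain ⟨l, hl, e⟩ := (t3 _ (m1 z hz)).2
      rw [c2 ⟨m0 z hz, Or.inl rfl⟩, c2 ⟨m1 z hz, Or.inr rfl⟩] at e
      exact ⟨l, hl, by simpa using e⟩
  exact ⟨γ', g1, g2, HtpD.trans ⟨_, hH, hp, fun z hz => ⟨e1 z hz, rfl⟩⟩ g3⟩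

theorem pi1_descend {X Y Z : Type} [TopologicalSpace X] [TopologicalSpace Y] [TopologicalSpace Z]
    [T2Space X] [T2Space Y] [Nonempty X] {K : Set X} (hK : IsCompact K) {π : X → Y}
    (hπ : ContinuousOn π K) {F : X → Z} (hF : ContinuousOn F K)
    (h : ∀ x ∈ K, ∀ x' ∈ K, π x = π x' → F x = F x') :
    ∃ H : Y → Z, ContinuousOn H (π '' K) ∧ ∀ x ∈ K, H (π x) = F x := by
  have e : ∀ x ∈ K, F (Function.invFunOn π K (π x)) = F x := fun x hx =>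
    h _ (Function.invFunOn_mem ⟨x, hx, rfl⟩) x hx (Function.invFunOn_eq ⟨x, hx, rfl⟩)
  refine ⟨fun y => F (Function.invFunOn π K y), continuousOn_iff_isClosed.2 fun t ht => ?_, e⟩
  refine ⟨π '' (K ∩ F ⁻¹' t), ((hK.of_isClosed_subset
    (hF.preimage_isClosed_of_isClosed hK.isClosed ht) inter_subset_left).image_of_continuousOn
      (hπ.mono inter_subset_left)).isClosed, Subset.antisymm ?_ ?_⟩
  · rintro _ ⟨h1, x, hx, rfl⟩
    exact ⟨⟨x, ⟨hx, (e x hx ▸ h1 : F x ∈ t)⟩, rfl⟩, x, hx, rfl⟩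
  · rintro _ ⟨⟨x, hx, rfl⟩, h1⟩
    exact ⟨(show F _ ∈ t from (e x hx.1).symm ▸ hx.2), h1⟩

/-- a homotopy on a rectangle with equal values on two opposite sides -/
theorem pi1_rect {V : Type} [NormedAddCommGroup V] [NormedSpace ℝ V] {γ γ' : ℂ → V →L[ℝ] V}
    {F : ℝ × ℝ → V →L[ℝ] V} (hF : Continuous F)
    (hd : ∀ p ∈ Icc (0 : ℝ) 1 ×ˢ Icc 0 (2 * Real.pi), 0 < (F p).det)
    (he : ∀ t ∈ Icc (0 : ℝ) 1, F (t, 0) = F (t, 2 * Real.pi))
    (h : ∀ s ∈ Icc 0 (2 * Real.pi), F (0, s) = γ (circleMap 0 1 s) ∧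
      F (1, s) = γ' (circleMap 0 1 s)) : HtpD γ γ' := by
  have hp := Real.two_pi_pos
  have h1 : ∀ s ∈ Icc 0 (2 * Real.pi), ∃ s' ∈ Ioc 0 (2 * Real.pi),
      circleMap 0 1 s' = circleMap 0 1 s ∧ ∀ t ∈ Icc (0 : ℝ) 1, F (t, s') = F (t, s) := by
    intro s hs
    rcases hs.1.eq_or_lt with rfl | h0
    · exact ⟨_, ⟨hp, le_rfl⟩, by simpa using periodic_circleMap 0 1 0, fun t ht => (he t ht).symm⟩
    · exact ⟨s, ⟨h0, hs.2⟩, rfl, fun _ _ => rfl⟩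
  obtain ⟨H, k1, k2⟩ := pi1_descend (isCompact_Icc.prod isCompact_Icc :
    IsCompact (Icc (0 : ℝ) 1 ×ˢ Icc 0 (2 * Real.pi))) (π := fun p => (p.1, circleMap 0 1 p.2))
    (by fun_prop) hF.continuousOn fun x hx y hy e => by
      obtain ⟨s, hs, e1, e2⟩ := h1 _ hx.2
      obtain ⟨s', hs', e1', e2'⟩ := h1 _ hy.2
      have e3 : s = s' := injOn_circleMap_of_abs_sub_le (a := 0) (b := 2 * Real.pi) one_ne_zero
        (by rw [zero_sub, abs_neg, abs_of_pos hp]) (by rwa [uIoc_of_le hp.le])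
        (by rwa [uIoc_of_le hp.le]) (e1.trans ((Prod.ext_iff.1 e).2.trans e1'.symm))
      have e4 : x.1 = y.1 := (Prod.ext_iff.1 e).1
      exact (e2 _ hx.1).symm.trans ((by rw [e3, e4]) : F (x.1, s) = F (y.1, s')) |>.trans (e2' _ hy.1)
  have hs : ∀ z ∈ Metric.sphere (0 : ℂ) 1, ∃ s ∈ Icc 0 (2 * Real.pi), circleMap 0 1 s = z :=
    fun z hz => by
      rw [← abs_one, ← image_circleMap_Ioc] at hz
      obtain ⟨s, hs, e⟩ := hz
      exact ⟨s, Ioc_subset_Icc_self hs, e⟩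
  refine ⟨H, k1.mono fun p hp => ?_, fun p hp => ?_, fun z hz => ?_⟩
  · obtain ⟨s, h2, e⟩ := hs _ hp.2
    exact ⟨(p.1, s), ⟨hp.1, h2⟩, Prod.ext rfl e⟩
  · obtain ⟨s, h2, e⟩ := hs _ hp.2
    have := k2 (p.1, s) ⟨hp.1, h2⟩
    simp only [e] at this
    rw [this]
    exact hd _ ⟨hp.1, h2⟩
  · obtain ⟨s, h2, rfl⟩ := hs _ hz
    exact ⟨(k2 (0, s) ⟨⟨le_rfl, zero_le_one⟩, h2⟩).trans (h s h2).1,
      (k2 (1, s) ⟨⟨zero_le_one, le_rfl⟩, h2⟩).trans (h s h2).2⟩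

theorem pi1_sign {q q' : E 4} (h : ‖q‖ = 1) (h' : ‖q'‖ = 1) (e : qrot q = qrot q') :
    q' = inner ℝ q q' • q ∧ inner ℝ q q' ^ 2 = 1 := by
  obtain ⟨K, -, hK, -⟩ := exists_qK
  have h1 : ∀ a b, q a * q b = q' a * q' b := fun a b => by rw [← hK q h, ← hK q' h', e]
  have h2 : q' = inner ℝ q q' • q := by
    have h3 := real_inner_self_eq_norm_sq q'
    rw [h', one_pow] at h3
    ext b
    have h4 : inner ℝ q q' * q b = inner ℝ q' q' * q' b := by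
      simp only [PiLp.inner_apply, Finset.sum_mul, RCLike.inner_apply, conj_trivial]
      exact Finset.sum_congr rfl fun a _ => by rw [mul_assoc, h1, mul_assoc]
    rw [PiLp.smul_apply, smul_eq_mul, h4, h3, one_mul]
  refine ⟨h2, ?_⟩
  have h5 := congrArg norm h2
  rw [norm_smul, h, h', mul_one, Real.norm_eq_abs] at h5
  rw [← sq_abs, ← h5, one_pow]

theorem pi1_mat : ∃ T : Matrix (Fin 3) (Fin 3) ℝ ≃L[ℝ] (E 3 →L[ℝ] E 3), ∀ A, (T A).det = A.det :=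
  ⟨((Matrix.toLin (EuclideanSpace.basisFun (Fin 3) ℝ).toBasis
    (EuclideanSpace.basisFun (Fin 3) ℝ).toBasis).trans
      LinearMap.toContinuousLinearMap).toContinuousLinearEquiv, fun A => LinearMap.det_toLin _ A⟩

/-- a loop of rotations is homotopic to its cube -/
theorem pi1_so3 {T : Matrix (Fin 3) (Fin 3) ℝ ≃L[ℝ] (E 3 →L[ℝ] E 3)} (hT : ∀ A, (T A).det = A.det)
    {R : ℂ → Matrix (Fin 3) (Fin 3) ℝ} (hR : ContinuousOn R (Metric.sphere 0 1))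
    (h1 : ∀ z ∈ Metric.sphere (0 : ℂ) 1, R z * (R z).transpose = 1 ∧ (R z).det = 1) :
    HtpD (fun z => T (R (z ^ 3))) fun z => T (R z) := by
  have hp := Real.two_pi_pos
  have per := periodic_circleMap 0 1
  set a := 2 * Real.pi with ha
  have m : ∀ s, circleMap 0 1 s ∈ Metric.sphere (0 : ℂ) 1 := circleMap_mem_sphere 0 zero_le_one
  obtain ⟨q, q1, q2⟩ := qlift (isCompact_Icc : IsCompact (Icc 0 (3 * a)))
    ((convex_Icc _ _).starConvex (left_mem_Icc.2 (by linarith)))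
    (hR.comp (continuous_circleMap 0 1).continuousOn fun s _ => m s) fun s _ => h1 _ (m s)
  have m1 : MapsTo (fun s => s) (Icc a (2 * a)) (Icc 0 (3 * a)) :=
    fun s hs => ⟨by linarith [hs.1], by linarith [hs.2]⟩
  have m2 : MapsTo (fun s => s + a) (Icc a (2 * a)) (Icc 0 (3 * a)) :=
    fun s hs => ⟨by linarith [hs.1], by linarith [hs.2]⟩
  have sg : ∀ s ∈ Icc a (2 * a), q (s + a) = inner ℝ (q s) (q (s + a)) • q s ∧
      inner ℝ (q s) (q (s + a)) ^ 2 = 1 := fun s hs =>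
    pi1_sign (q2 _ (m1 hs)).1 (q2 _ (m2 hs)).1 (by
      rw [(q2 _ (m1 hs)).2, (q2 _ (m2 hs)).2, Function.comp_apply, Function.comp_apply, per])
  have l1 : a ∈ Icc a (2 * a) := left_mem_Icc.2 (by linarith)
  have l2 : 2 * a ∈ Icc a (2 * a) := right_mem_Icc.2 (by linarith)
  have ne : ∀ s ∈ Icc a (2 * a), inner ℝ (q s) (q (s + a)) ≠ 0 := fun s hs e => by
    have := (sg s hs).2
    rw [e] at this
    norm_num at this
  have e1 := pi1_pos (f := fun s => inner ℝ (q s) (q (s + a)) * inner ℝ (q a) (q (a + a)))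
    ((ContinuousOn.inner (𝕜 := ℝ) (q1.mono m1) (q1.comp (by fun_prop) m2)).mul continuousOn_const)
    (mul_self_pos.2 (ne a l1)) (fun s hs => mul_ne_zero (ne s hs) (ne a l1)) _ l2
  have e2 : q (3 * a) = q a := by
    have u1 := sg _ l1
    have u2 := sg _ l2
    have u3 : inner ℝ (q (2 * a)) (q (2 * a + a)) * inner ℝ (q a) (q (a + a)) = 1 := by
      refine (pow_eq_one_iff_of_nonneg e1.le two_ne_zero).1 ?_
      rw [mul_pow, u1.2, u2.2, mul_one]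
    rw [show 3 * a = 2 * a + a by ring, u2.1]
    generalize inner ℝ (q (2 * a)) (q (2 * a + a)) = x at u3
    rw [two_mul, u1.1, smul_smul, u3, one_smul]
  have n1 : MapsTo (fun p : ℝ × ℝ => 3 * p.2) (Icc 0 1 ×ˢ Icc 0 a) (Icc 0 (3 * a)) :=
    fun p hp => ⟨by linarith [hp.2.1], by linarith [hp.2.2]⟩
  have n2 : MapsTo (fun p : ℝ × ℝ => p.2) (Icc 0 1 ×ˢ Icc 0 a) (Icc 0 (3 * a)) :=
    fun p hp => ⟨hp.2.1, by linarith [hp.2.2]⟩
  have nz : ∀ s ∈ Icc 0 (3 * a), q s ≠ 0 := fun s hs =>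
    norm_ne_zero_iff.1 ((q2 s hs).1.symm ▸ one_ne_zero)
  have f0 : ∀ t : ℝ, (1 - t) • q (3 * 0) + t • q 0 = q 0 := fun t => by
    rw [mul_zero, ← add_smul, sub_add_cancel, one_smul]
  have f1 : ∀ t : ℝ, (1 - t) • q (3 * a) + t • q a = q a := fun t => by
    rw [e2, ← add_smul, sub_add_cancel, one_smul]
  obtain ⟨g, g1, g2, g3⟩ := ext_ne_zero (k := 2) (W := E 4) (K := Icc (0 : ℝ) 1 ×ˢ Icc 0 a)
    (C := {p | (p.1 = 0 ∨ p.1 = 1) ∨ p.2 = 0 ∨ p.2 = a}) (isClosed_Icc.prod isClosed_Icc)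
    (((isClosed_eq continuous_fst continuous_const).union
      (isClosed_eq continuous_fst continuous_const)).union
      ((isClosed_eq continuous_snd continuous_const).union
      (isClosed_eq continuous_snd continuous_const))) (thin_of_finrank (by simp) _) (by simp)
    (f := fun p => (1 - p.1) • q (3 * p.2) + p.1 • q p.2)
    ((((continuousOn_const.sub continuousOn_fst).smul (q1.comp (by fun_prop) n1)).add
      (continuousOn_fst.smul (q1.comp continuousOn_snd n2))).mono inter_subset_left) fun p hp => by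
      rcases hp.2 with (h | h) | h | h
      · rw [h, sub_zero, one_smul, zero_smul, add_zero]
        exact nz _ (n1 hp.1)
      · rw [h, sub_self, one_smul, zero_smul, zero_add]
        exact nz _ (n2 hp.1)
      · rw [h, f0]
        exact nz _ (h ▸ n2 hp.1)
      · rw [h, f1]
        exact nz _ (h ▸ n2 hp.1)
  refine pi1_rect (F := fun p => T (qrot (g p))) (T.continuous.comp (continuous_qrot.comp g1))
    (fun p hp => (hT _).symm ▸ det_qrot_pos (g3 p hp)) (fun t ht => ?_) fun s hs => ⟨?_, ?_⟩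
  · have z0 : (t, (0 : ℝ)) ∈ Icc (0 : ℝ) 1 ×ˢ Icc 0 a := ⟨ht, left_mem_Icc.2 hp.le⟩
    have z1 : (t, a) ∈ Icc (0 : ℝ) 1 ×ˢ Icc 0 a := ⟨ht, right_mem_Icc.2 hp.le⟩
    rw [g2 ⟨z0, Or.inr (Or.inl rfl)⟩, g2 ⟨z1, Or.inr (Or.inr rfl)⟩]
    simp only [f0, f1]
    rw [(q2 _ (n2 z0)).2, (q2 _ (n2 z1)).2, Function.comp_apply, Function.comp_apply, per.eq]
  · have z0 : ((0 : ℝ), s) ∈ Icc (0 : ℝ) 1 ×ˢ Icc 0 a := ⟨⟨le_rfl, zero_le_one⟩, hs⟩
    rw [g2 ⟨z0, Or.inl (Or.inl rfl)⟩]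
    simp only [sub_zero, one_smul, zero_smul, add_zero]
    rw [(q2 _ (n1 z0)).2, circleMap_zero_pow, one_pow]
    simp
  · have z0 : ((1 : ℝ), s) ∈ Icc (0 : ℝ) 1 ×ˢ Icc 0 a := ⟨⟨zero_le_one, le_rfl⟩, hs⟩
    rw [g2 ⟨z0, Or.inl (Or.inr rfl)⟩]
    simp only [sub_self, one_smul, zero_smul, zero_add]
    rw [(q2 _ (n2 z0)).2]
    rfl

/-- In `GL₃⁺` every loop is null-homotopic or homotopic to its cube. -/
theorem pi1_three {γ : ℂ → E 3 →L[ℝ] E 3} (hγ : ContinuousOn γ (Metric.sphere 0 1))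
    (h0 : ∀ z ∈ Metric.sphere (0 : ℂ) 1, 0 < (γ z).det) :
    ExtD γ ∨ HtpD (fun z => γ (z ^ 3)) γ := by
  obtain ⟨T, hT⟩ := pi1_mat
  obtain ⟨G, g1, g2⟩ := exists_gs
  have d : ∀ z ∈ Metric.sphere (0 : ℂ) 1, 0 < (T.symm (γ z)).det := fun z hz => by
    rw [← hT, T.apply_symm_apply]
    exact h0 z hz
  have c : ContinuousOn (fun p : ℝ × ℂ => G (p.1, T.symm (γ p.2))) (Icc 0 1 ×ˢ Metric.sphere 0 1) :=
    g1.comp (continuousOn_fst.prodMk (T.symm.continuous.comp_continuousOn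
      (hγ.comp continuousOn_snd fun p hp => hp.2))) fun p hp => ⟨hp.1, d _ hp.2⟩
  have H : HtpD γ fun z => T (G (1, T.symm (γ z))) :=
    ⟨_, T.continuous.comp_continuousOn c,
      fun p hp => (hT _).symm ▸ (g2 _ (d _ hp.2)).2.2.2 _ hp.1, fun z hz => ⟨by
        simp only [Function.comp_apply, (g2 _ (d z hz)).1, T.apply_symm_apply], rfl⟩⟩
  refine Or.inr (H.cube.trans ((pi1_so3 hT (R := fun z => G (1, T.symm (γ z))) ?_ ?_).trans H.symm))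
  · exact c.comp (f := fun z => (1, z)) (by fun_prop) fun z hz => ⟨⟨zero_le_one, le_rfl⟩, hz⟩
  · exact fun z hz => ⟨(g2 _ (d z hz)).2.1, (g2 _ (d z hz)).2.2.1⟩

theorem pi1_conj {V W : Type} [NormedAddCommGroup V] [NormedSpace ℝ V] [NormedAddCommGroup W]
    [NormedSpace ℝ W] (L : V ≃L[ℝ] W) (A : V →L[ℝ] V) : (L.arrowCongr L A).det = A.det :=
  LinearMap.det_conj (A : V →ₗ[ℝ] V) L.toLinearEquiv

theorem pi1_five {γ : ℂ → E 5 →L[ℝ] E 5} (hγ : ContinuousOn γ (Metric.sphere 0 1))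
    (h0 : ∀ z ∈ Metric.sphere (0 : ℂ) 1, 0 < (γ z).det) (h3 : ExtD fun z => γ (z ^ 3)) :
    ExtD γ := by
  let L : E 5 ≃L[ℝ] (E 3 × ℝ) × ℝ := ContinuousLinearEquiv.ofFinrankEq (by simp)
  have s : ∀ {U : Type} [NormedAddCommGroup U] [NormedSpace ℝ U],
      Continuous fun A : U →L[ℝ] U => A.prodMap (ContinuousLinearMap.id ℝ ℝ) :=
    continuous_id.prod_mapL ℝ continuous_const
  obtain ⟨γ₁, a1, a2, a3⟩ := htp_destab (U := E 3 × ℝ) (by simp)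
    ((L.arrowCongr L).continuous.comp_continuousOn hγ) fun z hz => (pi1_conj L _).symm ▸ h0 z hz
  obtain ⟨γ₂, b1, b2, b3⟩ := htp_destab (U := E 3) (by simp) a1 a2
  have H := a3.trans (b3.map s pi1_stab)
  have h4 := (h3.map (L.arrowCongr L).continuous (pi1_conj L)).of_htp H.cube
  have h5 : ExtD fun z => ((γ₂ z).prodMap (ContinuousLinearMap.id ℝ ℝ)).prodMap
      (ContinuousLinearMap.id ℝ ℝ) := by
    rcases pi1_three b1 b2 with h | h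
    · exact (h.map s pi1_stab).map s pi1_stab
    · exact h4.of_htp ((h.map s pi1_stab).map s pi1_stab)
  have h6 := (h5.of_htp H.symm).map (L.symm.arrowCongr L.symm).continuous (pi1_conj L.symm)
  have e : (fun z => L.symm.arrowCongr L.symm ((L.arrowCongr L ∘ γ) z)) = γ := by
    funext z
    ext1 v
    simp
  rwa [e] at h6

end Pool.Agent.CSP
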