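import Pool.Agent.Lib.MP_436e1a_gt.A.So3
import Pool.Agent.Lib.MP_436e1a_gt.A.GLPath
import Pool.Agent.Lib.MP_436e1a_gt.A.MapsL

/-! Every map of the 2-sphere to `GL₃⁺` is homotopic to the constant `1`. -/

open scoped ContDiff
open Set

namespace Pool.Agent.CSP

/-- vertical projection to a closed hemisphere -/
noncomputable def pi2_hem (s : ℝ) (x : E 3) : E 3 := !₂[x 0, x 1, s * √(1 - x 0 ^ 2 - x 1 ^ 2)]

theorem pi2_hem_cont (s : ℝ) : Continuous (pi2_hem s) := by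
  unfold pi2_hem
  fun_prop

theorem pi2_hem_mem {s : ℝ} (hs : s ^ 2 = 1) {x : E 3} (hx : x ∈ B3) : pi2_hem s x ∈ S2 := by
  have h := mem_B3.1 hx
  have h1 : √(1 - x 0 ^ 2 - x 1 ^ 2) ^ 2 = 1 - x 0 ^ 2 - x 1 ^ 2 :=
    Real.sq_sqrt (by nlinarith [sq_nonneg (x 2)])
  rw [mem_S2]
  change x 0 ^ 2 + x 1 ^ 2 + (s * √(1 - x 0 ^ 2 - x 1 ^ 2)) ^ 2 = 1
  rw [mul_pow, hs, h1]
  ring

theorem pi2_hem_eq {s : ℝ} (hs : s ^ 2 = 1) {x : E 3} (hx : x ∈ S2) (h2 : 0 ≤ s * x 2) :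
    pi2_hem s x = x := by
  have h := mem_S2.1 hx
  have h1 : 1 - x 0 ^ 2 - x 1 ^ 2 = (s * x 2) ^ 2 := by
    rw [mul_pow, hs]
    linarith
  ext i
  fin_cases i
  · rfl
  · rfl
  · change s * √(1 - x 0 ^ 2 - x 1 ^ 2) = x 2
    rw [h1, Real.sqrt_sq h2, ← mul_assoc, ← sq, hs, one_mul]

theorem pi2_sign {p q : E 4} (hp : ‖p‖ = 1) (hq : ‖q‖ = 1) (h : qrot p = qrot q) :
    inner ℝ p q ^ 2 = 1 ∧ p = inner ℝ p q • q := by
  obtain ⟨K, -, hK, -⟩ := exists_qK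
  have h1 : ∀ a b, p a * p b = q a * q b := fun a b => by rw [← hK p hp, h, hK q hq]
  have h2 : ∑ a, p a ^ 2 = 1 := by
    rw [← EuclideanSpace.real_norm_sq_eq, hp, one_pow]
  have h3 : p = inner ℝ p q • q := by
    ext b
    rw [PiLp.smul_apply, PiLp.inner_apply, smul_eq_mul, Finset.sum_mul, ← one_mul (p b), ← h2,
      Finset.sum_mul]
    refine Finset.sum_congr rfl fun a _ => ?_
    simp only [RCLike.inner_apply, conj_trivial]
    linear_combination p a * h1 a b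
  refine ⟨?_, h3⟩
  have h4 := congrArg norm h3
  rw [norm_smul, hp, hq, mul_one, Real.norm_eq_abs] at h4
  rw [← sq_abs, ← h4, one_pow]

theorem pi2_equator : IsPreconnected (S2 ∩ {x | x 2 = 0}) := by
  have hc : Continuous fun θ : ℝ => (!₂[Real.cos θ, Real.sin θ, 0] : E 3) := by fun_prop
  have h : S2 ∩ {x | x 2 = 0} = range fun θ : ℝ => (!₂[Real.cos θ, Real.sin θ, 0] : E 3) := by
    ext x
    constructor
    · rintro ⟨h1, h2⟩
      have h3 := mem_S2.1 h1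
      have h2 : x 2 = 0 := h2
      have h4 : ‖(⟨x 0, x 1⟩ : ℂ)‖ = 1 := by
        rw [Complex.norm_eq_sqrt_sq_add_sq, Real.sqrt_eq_one]
        simpa [h2] using h3
      refine ⟨Complex.arg ⟨x 0, x 1⟩, ?_⟩
      ext i
      fin_cases i
      · change Real.cos _ = x 0
        rw [Complex.cos_arg (norm_ne_zero_iff.1 (h4.trans_ne one_ne_zero)), h4, div_one]
      · change Real.sin _ = x 1
        rw [Complex.sin_arg, h4, div_one]
      · exact h2.symm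
    · rintro ⟨θ, rfl⟩
      refine ⟨mem_S2.2 ?_, rfl⟩
      change Real.cos θ ^ 2 + Real.sin θ ^ 2 + 0 ^ 2 = 1
      simp
  rw [h]
  exact isPreconnected_range hc

/-- a family of rotations over the sphere lifts to the unit quaternions -/
theorem pi2_lift {R : E 3 → Matrix (Fin 3) (Fin 3) ℝ} (hR : ContinuousOn R S2)
    (h1 : ∀ x ∈ S2, R x * (R x).transpose = 1 ∧ (R x).det = 1) :
    ∃ q : E 3 → E 4, ContinuousOn q S2 ∧ ∀ x ∈ S2, ‖q x‖ = 1 ∧ qrot (q x) = R x := by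
  have hl : ∀ s : ℝ, s ^ 2 = 1 → ∃ q : E 3 → E 4, ContinuousOn q S2 ∧
      ∀ x ∈ S2, 0 ≤ s * x 2 → ‖q x‖ = 1 ∧ qrot (q x) = R x := fun s hs => by
    obtain ⟨q, h2, h3⟩ := qlift (isCompact_closedBall (0 : E 3) 1)
      ((convex_closedBall (0 : E 3) 1).starConvex (Metric.mem_closedBall_self zero_le_one))
      (R := fun x => R (pi2_hem s x))
      (hR.comp (pi2_hem_cont s).continuousOn fun x hx => pi2_hem_mem hs hx)
      fun x hx => h1 _ (pi2_hem_mem hs hx)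
    refine ⟨q, h2.mono Metric.sphere_subset_closedBall, fun x hx hx' => ?_⟩
    have := h3 x (Metric.sphere_subset_closedBall hx)
    rwa [pi2_hem_eq hs hx hx'] at this
  obtain ⟨p, hp, hp'⟩ := hl 1 (one_pow 2)
  obtain ⟨q, hq, hq'⟩ := hl (-1) neg_one_sq
  have he : ∀ x ∈ S2 ∩ {x | x 2 = 0}, inner ℝ (p x) (q x) ^ 2 = 1 ∧
      p x = inner ℝ (p x) (q x) • q x := fun x hx => by
    have h2 : x 2 = 0 := hx.2
    have h3 := hp' x hx.1 (by simp [h2])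
    have h4 := hq' x hx.1 (by simp [h2])
    exact pi2_sign h3.1 h4.1 (h3.2.trans h4.2.symm)
  obtain ⟨q', hq, hq', he'⟩ : ∃ q' : E 3 → E 4, ContinuousOn q' S2 ∧
      (∀ x ∈ S2, 0 ≤ -1 * x 2 → ‖q' x‖ = 1 ∧ qrot (q' x) = R x) ∧
      ∀ x ∈ S2 ∩ {x | x 2 = 0}, p x = q' x := by
    rcases pi2_equator.eq_one_or_eq_neg_one_of_sq_eq (f := fun x => inner ℝ (p x) (q x))
      ((hp.inner hq).mono inter_subset_left) (fun x hx => (he x hx).1) with h | h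
    · refine ⟨q, hq, hq', fun x hx => ?_⟩
      have h5 : inner ℝ (p x) (q x) = 1 := h hx
      rw [(he x hx).2, h5, one_smul]
    · refine ⟨fun x => -q x, hq.neg, fun x hx hx' => ?_, fun x hx => ?_⟩
      · rw [norm_neg, qrot_neg]
        exact hq' x hx hx'
      · have h5 : inner ℝ (p x) (q x) = -1 := h hx
        rw [(he x hx).2, h5, neg_one_smul]
  refine ⟨fun x => if 0 ≤ x 2 then p x else q' x, ?_, fun x hx => ?_⟩
  · have hc : Continuous fun x : E 3 => x 2 := by fun_prop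
    have hu : S2 = S2 ∩ {x | 0 ≤ x 2} ∪ S2 ∩ {x | x 2 ≤ 0} := by
      rw [← inter_union_distrib_left]
      exact (inter_eq_left.2 fun x _ => (mem_union _ _ _).2 (le_total 0 (x 2))).symm
    rw [hu]
    refine ContinuousOn.union_of_isClosed ((hp.mono inter_subset_left).congr fun x hx =>
      if_pos hx.2) ((hq.mono inter_subset_left).congr fun x hx => ?_)
      (Metric.isClosed_sphere.inter (isClosed_le continuous_const hc))
      (Metric.isClosed_sphere.inter (isClosed_le hc continuous_const))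
    by_cases h : 0 ≤ x 2
    · exact (if_pos h).trans (he' x ⟨hx.1, le_antisymm hx.2 h⟩)
    · exact if_neg h
  · by_cases h : 0 ≤ x 2
    · simp only [if_pos h]
      exact hp' x hx (by linarith)
    · simp only [if_neg h]
      exact hq' x hx (by linarith)

theorem pi2_clm : ∃ T : Matrix (Fin 3) (Fin 3) ℝ ≃* (E 3 →L[ℝ] E 3), Continuous T ∧
    Continuous T.symm ∧ ∀ A, (T A).det = A.det := by
  let T := (Matrix.toEuclideanCLM (n := Fin 3) (𝕜 := ℝ)).toAlgEquiv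
  refine ⟨T.toMulEquiv, T.toLinearEquiv.toLinearMap.continuous_of_finiteDimensional,
    T.toLinearEquiv.symm.toLinearMap.continuous_of_finiteDimensional, fun A => ?_⟩
  exact LinearMap.det_toLin (EuclideanSpace.basisFun (Fin 3) ℝ).toBasis A

/-- Gram-Schmidt, quaternion lift, extension over the ball; the homotopies are multiplied. -/
theorem pi2_cont {N : E 3 → E 3 →L[ℝ] E 3} (hN : ContinuousOn N S2) (h0 : ∀ u ∈ S2, 0 < (N u).det) :
    ∃ H : ℝ × E 3 → E 3 →L[ℝ] E 3, ContinuousOn H (Icc 0 1 ×ˢ S2) ∧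
      (∀ u ∈ S2, H (0, u) = 1 ∧ H (1, u) = N u) ∧ ∀ p ∈ Icc (0 : ℝ) 1 ×ˢ S2, 0 < (H p).det := by
  obtain ⟨T, hT, hT', hd⟩ := pi2_clm
  obtain ⟨G, hG, hG'⟩ := exists_gs
  have hM : ContinuousOn (fun u => T.symm (N u)) S2 := hT'.comp_continuousOn hN
  have hM0 : ∀ u ∈ S2, 0 < (T.symm (N u)).det := fun u hu => by
    rw [← hd, MulEquiv.apply_symm_apply]
    exact h0 u hu
  have hR : ContinuousOn (fun u => G (1, T.symm (N u))) S2 :=
    hG.comp (continuousOn_const.prodMk hM) fun u hu => ⟨⟨zero_le_one, le_rfl⟩, hM0 u hu⟩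
  obtain ⟨q, hq, hq'⟩ := pi2_lift hR fun u hu =>
    ⟨(hG' _ (hM0 u hu)).2.1, (hG' _ (hM0 u hu)).2.2.1⟩
  obtain ⟨D, hD, hDq, hD0⟩ := ext_ball (by simp) hq fun u hu =>
    norm_ne_zero_iff.1 ((hq' u hu).1.trans_ne one_ne_zero)
  have hc : 0 < (qrot (D 0)).det := det_qrot_pos (hD0 0 (Metric.mem_closedBall_self zero_le_one))
  obtain ⟨γ, hγ, hγ0, hγ1, hγd⟩ := glp_cont (M := T (qrot (D 0))) (by rwa [hd])
  refine ⟨fun p => T (G (1 - p.1, T.symm (N p.2)) * (G (1, T.symm (N p.2))).transpose *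
    (qrot (D (p.1 • p.2)) * (qrot (D 0))⁻¹)) * γ p.1, ?_, fun u hu => ⟨?_, ?_⟩, fun p hp => ?_⟩
  · have h1 : ContinuousOn (fun p : ℝ × E 3 => G (1 - p.1, T.symm (N p.2))) (Icc 0 1 ×ˢ S2) :=
      hG.comp ((continuousOn_const.sub continuousOn_fst).prodMk
        (hM.comp continuousOn_snd fun p hp => hp.2)) fun p hp =>
        ⟨⟨sub_nonneg.2 hp.1.2, sub_le_self _ hp.1.1⟩, hM0 _ hp.2⟩
    have h2 : ContinuousOn (fun p : ℝ × E 3 => (G (1, T.symm (N p.2))).transpose)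
        (Icc 0 1 ×ˢ S2) := continuous_id.matrix_transpose.comp_continuousOn
      (hR.comp continuousOn_snd fun p hp => hp.2)
    have h3 : Continuous fun p : ℝ × E 3 => qrot (D (p.1 • p.2)) * (qrot (D 0))⁻¹ :=
      (continuous_qrot.comp (hD.comp (continuous_fst.smul continuous_snd))).mul continuous_const
    exact (hT.comp_continuousOn ((h1.mul h2).mul h3.continuousOn)).mul
      (hγ.comp continuous_fst).continuousOn
  · simp only [sub_zero, zero_smul]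
    rw [(hG' _ (hM0 u hu)).2.1, Matrix.mul_nonsing_inv _ hc.ne'.isUnit, one_mul, map_one, hγ0,
      one_mul]
  · simp only [sub_self, one_smul]
    rw [(hG' _ (hM0 u hu)).1, hDq hu, (hq' u hu).2, hγ1, ← map_mul, mul_assoc, mul_assoc,
      Matrix.nonsing_inv_mul_cancel_right _ _ hc.ne'.isUnit,
      mul_eq_one_comm.1 (hG' _ (hM0 u hu)).2.1, mul_one, MulEquiv.apply_symm_apply]
  · have h1 : p.1 • p.2 ∈ B3 := by
      rw [mem_closedBall_zero_iff, norm_smul, mem_sphere_zero_iff_norm.1 hp.2, mul_one,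
        Real.norm_of_nonneg hp.1.1]
      exact hp.1.2
    have h2 : ∀ A B : E 3 →L[ℝ] E 3, (A * B).det = A.det * B.det := fun A B =>
      LinearMap.det_comp (A : E 3 →ₗ[ℝ] E 3) B
    simp only [h2, hd, Matrix.det_mul, Matrix.det_transpose, Matrix.det_nonsing_inv,
      Ring.inverse_eq_inv', (hG' _ (hM0 _ hp.2)).2.2.1, mul_one]
    exact mul_pos (mul_pos ((hG' _ (hM0 _ hp.2)).2.2.2 _ ⟨sub_nonneg.2 hp.1.2,
      sub_le_self _ hp.1.1⟩) (mul_pos (det_qrot_pos (hD0 _ h1)) (inv_pos.2 hc))) (hγd _)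

/-- Smooth version. -/
theorem pi2_smooth {N : E 3 → E 3 →L[ℝ] E 3} {W : Set (E 3)} (hW : IsOpen W) (hSW : S2 ⊆ W)
    (hN : ContDiffOn ℝ ∞ N W) (h0 : ∀ u ∈ S2, 0 < (N u).det) :
    ∃ H : ℝ × E 3 → E 3 →L[ℝ] E 3, ContDiff ℝ ∞ H ∧
      (∀ u ∈ S2, H (0, u) = 1 ∧ H (1, u) = N u) ∧ ∀ p ∈ Icc (0 : ℝ) 1 ×ˢ S2, 0 < (H p).det := by
  obtain ⟨H, hH, hH1, hH2⟩ := pi2_cont (hN.continuousOn.mono hSW) h0
  let f : ℝ × E 3 → E 3 →L[ℝ] E 3 := fun p => H (projIcc 0 1 zero_le_one (3 * p.1 - 1), nrm p.2)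
  have hm : ∀ p : ℝ × E 3, p.2 ≠ 0 → ((projIcc 0 1 zero_le_one (3 * p.1 - 1) : ℝ), nrm p.2) ∈
      Icc (0 : ℝ) 1 ×ˢ S2 := fun p hp => ⟨Subtype.property _, nrm_mem hp⟩
  have hf : ContinuousOn f (Icc 0 1 ×ˢ S2) :=
    hH.comp ((continuous_subtype_val.comp (continuous_projIcc.comp (by fun_prop))).continuousOn.prodMk
      (contDiffOn_nrm.continuousOn.comp continuousOn_snd fun p hp => ne_zero_of_S2 hp.2))
      fun p hp => hm p (ne_zero_of_S2 hp.2)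
  have hK : IsCompact (Icc (0 : ℝ) 1 ×ˢ S2) := isCompact_Icc.prod (isCompact_sphere _ _)
  obtain ⟨ε, hε, hεU⟩ := (hK.image_of_continuousOn hf).exists_thickening_subset_open
    (isOpen_lt continuous_const ContinuousLinearMap.continuous_det)
    (by rintro _ ⟨p, hp, rfl⟩; exact hH2 _ (hm p (ne_zero_of_S2 hp.2)))
  have e0 : ∀ p ∈ Iio (1 / 3 : ℝ) ×ˢ ({0}ᶜ : Set (E 3)), f p = 1 := fun p hp => by
    have h1 : p.1 < 1 / 3 := hp.1
    simp only [f, projIcc_of_le_left zero_le_one (show 3 * p.1 - 1 ≤ 0 by linarith)]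
    exact (hH1 _ (nrm_mem hp.2)).1
  have e1 : ∀ p ∈ Ioi (2 / 3 : ℝ) ×ˢ ({0}ᶜ : Set (E 3)), f p = N (nrm p.2) := fun p hp => by
    have h1 : 2 / 3 < p.1 := hp.1
    simp only [f, projIcc_of_right_le zero_le_one (show 1 ≤ 3 * p.1 - 1 by linarith)]
    exact (hH1 _ (nrm_mem hp.2)).2
  have o0 : IsOpen (Iio (1 / 3 : ℝ) ×ˢ ({0}ᶜ : Set (E 3))) :=
    isOpen_Iio.prod isOpen_compl_singleton
  have o1 : IsOpen (Ioi (2 / 3 : ℝ) ×ˢ ({0}ᶜ : Set (E 3))) :=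
    isOpen_Ioi.prod isOpen_compl_singleton
  have m0 : ∀ u ∈ S2, ((0 : ℝ), u) ∈ Iio (1 / 3 : ℝ) ×ˢ ({0}ᶜ : Set (E 3)) := fun u hu =>
    ⟨by norm_num, ne_zero_of_S2 hu⟩
  have m1 : ∀ u ∈ S2, ((1 : ℝ), u) ∈ Ioi (2 / 3 : ℝ) ×ˢ ({0}ᶜ : Set (E 3)) := fun u hu =>
    ⟨by norm_num, ne_zero_of_S2 hu⟩
  obtain ⟨g, hg, hg1, hg2⟩ := smoothkeep (C := {0, 1} ×ˢ S2) hK.isClosed
    ((toFinite _).isClosed.prod Metric.isClosed_sphere) (o0.union o1)
    (by
      rintro ⟨t, u⟩ ⟨rfl | rfl, hu⟩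
      exacts [Or.inl (m0 u hu), Or.inr (m1 u hu)]) hf
    ((contDiffOn_const.congr e0).union_of_isOpen ((hN.comp (contDiffOn_nrm.comp contDiffOn_snd
      fun p hp => hp.2) fun p hp => hSW (nrm_mem hp.2)).congr e1) o0 o1) hε
  refine ⟨g, hg, fun u hu => ⟨?_, ?_⟩, fun p hp => hεU (Metric.mem_thickening_iff.2
    ⟨f p, mem_image_of_mem f hp, by rw [dist_eq_norm]; exact hg2 p hp⟩)⟩
  · exact (hg1 (mk_mem_prod (Or.inl rfl) hu)).trans (e0 _ (m0 u hu))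
  · rw [hg1 (mk_mem_prod (Or.inr rfl) hu), e1 _ (m1 u hu), nrm_of_S2 hu]

end Pool.Agent.CSP
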