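import Mathlib

/-! A smooth family of projections onto the image of a family of maps of constant kernel. -/

open scoped ContDiff
open Set

namespace Pool.Agent.CSP

variable {V : Type} [NormedAddCommGroup V] [NormedSpace ℝ V]
  {E W : Type} [NormedAddCommGroup E] [InnerProductSpace ℝ E] [FiniteDimensional ℝ E]
  [NormedAddCommGroup W] [InnerProductSpace ℝ W] [FiniteDimensional ℝ W]

theorem proj_adj {n : WithTop ℕ∞} {O : Set V} {A : V → E →L[ℝ] W} (h : ContDiffOn ℝ n A O) :
    ContDiffOn ℝ n (fun p => (ContinuousLinearMap.adjoint (A p) : W →L[ℝ] E)) O :=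
  (LinearMap.toContinuousLinearMap
    ({ toFun := fun A => ContinuousLinearMap.adjoint A
       map_add' := map_add _
       map_smul' := fun c A => by simp } : (E →L[ℝ] W) →ₗ[ℝ] W →L[ℝ] E)).contDiff.comp_contDiffOn h

/-- Let `e p` be idempotents of `E` and let `M p` be injective on the range of `e p`. Then there is
a family `R p` of left inverses, `R p ∘ M p ∘ e p = e p`, `e p ∘ R p = R p`; so
`M p ∘ R p` is an idempotent with the same range as `M p ∘ e p`. (Take `e = 1` for injective `M`.) -/
theorem exists_leftInv (n : WithTop ℕ∞) {O : Set V} {e : V → E →L[ℝ] E} {M : V → E →L[ℝ] W}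
    (he : ContDiffOn ℝ n e O) (hM : ContDiffOn ℝ n M O) (hee : ∀ p ∈ O, e p * e p = e p)
    (hi : ∀ p ∈ O, ∀ v, e p v = v → M p v = 0 → v = 0) :
    ∃ R : V → W →L[ℝ] E, ContDiffOn ℝ n R O ∧
      ∀ p ∈ O, (∀ v, R p (M p (e p v)) = e p v) ∧ ∀ z, e p (R p z) = R p z := by
  let A : V → E →L[ℝ] W := fun p => (M p).comp (e p)
  let T : V → E →L[ℝ] E := fun p => (ContinuousLinearMap.adjoint (A p)).comp (A p) +
    (ContinuousLinearMap.adjoint (1 - e p)).comp (1 - e p)
  have hA : ContDiffOn ℝ n A O := hM.clm_comp he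
  have h1 : ContDiffOn ℝ n (fun p => 1 - e p) O := contDiffOn_const.sub he
  have hT : ContDiffOn ℝ n T O := ((proj_adj hA).clm_comp hA).add ((proj_adj h1).clm_comp h1)
  have h2 : ∀ p ∈ O, ∀ v, e p (e p v) = e p v := fun p hp v => DFunLike.congr_fun (hee p hp) v
  have hu : ∀ p ∈ O, IsUnit (T p) := fun p hp => by
    have inj : Function.Injective (T p) := (injective_iff_map_eq_zero _).2 fun v hv => by
      have h3 : inner ℝ (A p v) (A p v) + inner ℝ ((1 - e p) v) ((1 - e p) v) = 0 := by
        rw [← ContinuousLinearMap.adjoint_inner_right, ← ContinuousLinearMap.adjoint_inner_right,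
          ← inner_add_right]
        exact (congrArg (inner ℝ v) hv).trans (inner_zero_right v)
      rw [add_eq_zero_iff_of_nonneg real_inner_self_nonneg real_inner_self_nonneg,
        inner_self_eq_zero, inner_self_eq_zero] at h3
      have h4 : e p v = v := (sub_eq_zero.1 h3.2).symm
      exact hi p hp v h4 ((congrArg (M p) h4.symm).trans h3.1)
    exact ContinuousLinearMap.isUnit_iff_bijective.2
      ⟨inj, (LinearMap.injective_iff_surjective (f := (T p : E →ₗ[ℝ] E))).1 inj⟩
  have hI : ContDiffOn ℝ n (fun p => Ring.inverse (T p)) O := fun p hp =>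
    ContDiffAt.comp_contDiffWithinAt (g := Ring.inverse) (f := T) p
      ((hu p hp).unit_spec ▸ contDiffAt_ringInverse ℝ (hu p hp).unit) (hT p hp)
  refine ⟨fun p => (e p).comp ((Ring.inverse (T p)).comp (ContinuousLinearMap.adjoint (A p))),
    he.clm_comp (hI.clm_comp (proj_adj hA)), fun p hp => ⟨fun v => ?_, fun z => h2 p hp _⟩⟩
  have h5 : ContinuousLinearMap.adjoint (A p) (M p (e p v)) = T p (e p v) := by
    simp [T, A, h2 p hp]
  change e p (Ring.inverse (T p) (ContinuousLinearMap.adjoint (A p) (M p (e p v)))) = _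
  rw [h5]
  exact (congrArg (e p) (DFunLike.congr_fun (Ring.inverse_mul_cancel _ (hu p hp)) _)).trans
    (h2 p hp v)

end Pool.Agent.CSP
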