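import Pool.Agent.Lib.MP_436e1a_gt.Maps

/-! Radial diffeomorphisms of `E 5`. -/

open scoped ContDiff
open Set Metric

namespace Pool.Agent.CSP

/-- the inversion in the unit sphere -/
noncomputable def inv5 (v : E 5) : E 5 := (‖v‖ ^ 2)⁻¹ • v

theorem norm_inv5 (v : E 5) : ‖inv5 v‖ = ‖v‖⁻¹ := by
  unfold inv5
  rw [norm_smul, Real.norm_eq_abs, abs_of_nonneg (by positivity)]
  by_cases h : ‖v‖ = 0
  · simp [h]
  · field_simp

theorem inv5_inv5 (v : E 5) : inv5 (inv5 v) = v := by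
  by_cases h : v = 0
  · simp [h, inv5]
  · have hn : ‖v‖ ≠ 0 := norm_ne_zero_iff.mpr h
    have e : inv5 (inv5 v) = ((‖inv5 v‖ ^ 2)⁻¹ * (‖v‖ ^ 2)⁻¹) • v := by
      rw [← smul_smul]; rfl
    rw [e, norm_inv5]
    have : ((‖v‖⁻¹ ^ 2)⁻¹ * (‖v‖ ^ 2)⁻¹) = 1 := by field_simp
    rw [this, one_smul]

theorem inv5_ne_zero {v : E 5} (h : v ≠ 0) : inv5 v ≠ 0 := by
  intro h0
  have := inv5_inv5 v
  rw [h0] at this
  apply h
  rw [← this]
  simp [inv5]

theorem contDiffOn_inv5 : ContDiffOn ℝ ∞ inv5 {0}ᶜ := by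
  intro v hv
  have hn : ‖v‖ ^ 2 ≠ 0 := pow_ne_zero 2 (norm_ne_zero_iff.mpr hv)
  have h1 : ContDiffAt ℝ ∞ (fun x : E 5 => ‖x‖ ^ 2) v := (contDiff_norm_sq ℝ).contDiffAt
  exact ((h1.inv hn).smul contDiffAt_id).contDiffWithinAt

/-- the determinant of `a + b ⟪v, ·⟫ v` -/
theorem rad_det (a b : ℝ) (ha : a ≠ 0) (v : E 5) :
    (a • ContinuousLinearMap.id ℝ (E 5) + (b • innerSL ℝ v).smulRight v).det =
      a ^ 4 * (a + b * ‖v‖ ^ 2) := by
  set L : E 5 →L[ℝ] E 5 := a • ContinuousLinearMap.id ℝ (E 5) + (b • innerSL ℝ v).smulRight v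
    with hL
  have h1 : L.det = (LinearMap.toMatrix (EuclideanSpace.basisFun (Fin 5) ℝ).toBasis
      (EuclideanSpace.basisFun (Fin 5) ℝ).toBasis (L : E 5 →ₗ[ℝ] E 5)).det := by
    rw [LinearMap.det_toMatrix]
  have h2 : LinearMap.toMatrix (EuclideanSpace.basisFun (Fin 5) ℝ).toBasis
      (EuclideanSpace.basisFun (Fin 5) ℝ).toBasis (L : E 5 →ₗ[ℝ] E 5) =
      a • (1 + Matrix.replicateCol Unit (fun i => v i) *
        Matrix.replicateRow Unit (fun j => b / a * v j)) := by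
    ext i j
    simp only [LinearMap.toMatrix_apply, hL, Matrix.smul_apply, Matrix.add_apply, Matrix.mul_apply,
      Matrix.one_apply]
    simp [EuclideanSpace.inner_single_right]
    field_simp
    split_ifs <;> simp
  rw [h1, h2, Matrix.det_smul, Matrix.det_one_add_replicateCol_mul_replicateRow]
  have h3 : ‖v‖ ^ 2 = ∑ i, v i * v i := by
    rw [EuclideanSpace.norm_sq_eq]
    simp [sq]
  simp only [Fintype.card_fin, dotProduct, h3, mul_assoc, ← Finset.mul_sum]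
  field_simp

theorem rad_hasFDerivAt {a : ℝ → ℝ} {a' : ℝ} {v : E 5} (h : HasDerivAt a a' (‖v‖ ^ 2)) :
    HasFDerivAt (fun x : E 5 => a (‖x‖ ^ 2) • x)
      (a (‖v‖ ^ 2) • ContinuousLinearMap.id ℝ (E 5) +
        ((2 * a') • innerSL ℝ v).smulRight v) v := by
  have h1 : HasFDerivAt (fun x : E 5 => ‖x‖ ^ 2) (2 • innerSL ℝ v) v :=
    (hasStrictFDerivAt_norm_sq v).hasFDerivAt
  have h2 : HasFDerivAt (fun x : E 5 => a (‖x‖ ^ 2)) (a' • (2 • innerSL ℝ v)) v :=
    h.comp_hasFDerivAt v h1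
  have h3 := h2.smul (hasFDerivAt_id v)
  have e : (2 * a') • innerSL ℝ v = a' • (2 • innerSL ℝ v) := by
    rw [mul_comm, mul_smul, two_smul, two_smul]
  rw [e]
  exact h3

theorem det_radial {a : ℝ → ℝ} {a' : ℝ} {v : E 5} (h : HasDerivAt a a' (‖v‖ ^ 2))
    (ha : a (‖v‖ ^ 2) ≠ 0) : (fderiv ℝ (fun x : E 5 => a (‖x‖ ^ 2) • x) v).det =
      a (‖v‖ ^ 2) ^ 4 * (a (‖v‖ ^ 2) + 2 * a' * ‖v‖ ^ 2) := by
  rw [(rad_hasFDerivAt h).fderiv, rad_det _ _ ha]

/-- The derivative of `v ↦ a (‖v‖ ^ 2) • v` at `v` is `a + 2 a' ⟪v, ·⟫ v`, with determinant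
`a ^ 4 * (a + 2 a' ‖v‖ ^ 2)`. -/
theorem det_inv5 {v : E 5} (h : v ≠ 0) : (fderiv ℝ inv5 v).det < 0 := by
  have hn : 0 < ‖v‖ ^ 2 := pow_pos (norm_pos_iff.mpr h) 2
  have h1 := det_radial (a := fun s => s⁻¹) (v := v) (hasDerivAt_inv hn.ne') (inv_ne_zero hn.ne')
  have e : inv5 = fun x : E 5 => (fun s : ℝ => s⁻¹) (‖x‖ ^ 2) • x := rfl
  rw [e, h1]
  have h2 : (‖v‖ ^ 2)⁻¹ + 2 * -((‖v‖ ^ 2) ^ 2)⁻¹ * ‖v‖ ^ 2 = -(‖v‖ ^ 2)⁻¹ := by
    field_simp
    ring
  rw [h2]
  have := inv_pos.mpr hn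
  exact mul_neg_of_pos_of_neg (pow_pos this 4) (neg_neg_of_pos this)

/-- the radial map whose squared norm is `M (‖v‖ ^ 2)` -/
noncomputable def rad (M : ℝ → ℝ) (v : E 5) : E 5 := √(M (‖v‖ ^ 2) / ‖v‖ ^ 2) • v

section

variable {M : ℝ → ℝ}

theorem rad_cd (hM : ContDiff ℝ ∞ M) (hp : ∀ s, 0 < s → 0 < M s) {s : ℝ} (hs : 0 < s) :
    ContDiffAt ℝ ∞ (fun t => √(M t / t)) s :=
  (hM.contDiffAt.div contDiffAt_id hs.ne').sqrt (div_pos (hp s hs) hs).ne'

theorem rad_contDiffAt (hM : ContDiff ℝ ∞ M) (hp : ∀ s, 0 < s → 0 < M s) {v : E 5} (hv : v ≠ 0) :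
    ContDiffAt ℝ ∞ (rad M) v := by
  have hn : 0 < ‖v‖ ^ 2 := pow_pos (norm_pos_iff.mpr hv) 2
  have h1 : ContDiffAt ℝ ∞ (fun x : E 5 => ‖x‖ ^ 2) v := (contDiff_norm_sq ℝ).contDiffAt
  exact ((rad_cd hM hp hn).comp v h1).smul contDiffAt_id

theorem rad_det_pos (hM : ContDiff ℝ ∞ M) (hp : ∀ s, 0 < s → 0 < M s)
    (hd : ∀ s, 0 < s → 0 < deriv M s) {v : E 5} (hv : v ≠ 0) :
    0 < (fderiv ℝ (rad M) v).det := by
  have hn : 0 < ‖v‖ ^ 2 := pow_pos (norm_pos_iff.mpr hv) 2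
  set s := ‖v‖ ^ 2 with hs
  have hq : 0 < M s / s := div_pos (hp s hn) hn
  have hM' : HasDerivAt M (deriv M s) s :=
    (hM.differentiable (by simp)).differentiableAt.hasDerivAt
  have h1 : HasDerivAt (fun t => M t / t) ((deriv M s * s - M s * 1) / s ^ 2) s :=
    hM'.div (hasDerivAt_id s) hn.ne'
  have h2 := h1.sqrt hq.ne'
  have hr : 0 < √(M s / s) := Real.sqrt_pos.mpr hq
  have h3 := det_radial (a := fun t => √(M t / t)) (v := v) h2 hr.ne'
  have e : rad M = fun x : E 5 => (fun t => √(M t / t)) (‖x‖ ^ 2) • x := rfl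
  rw [e, h3]
  refine mul_pos (pow_pos hr 4) ?_
  rw [← hs]
  have h4 : √(M s / s) * √(M s / s) = M s / s := Real.mul_self_sqrt hq.le
  have h5 : √(M s / s) * (√(M s / s) +
      2 * ((deriv M s * s - M s * 1) / s ^ 2 / (2 * √(M s / s))) * s) = deriv M s := by
    rw [mul_add, h4]
    field_simp
    ring
  have h6 := hd s hn
  rw [← h5] at h6
  exact (pos_iff_pos_of_mul_pos h6).mp hr

theorem rad_norm_sq (hp : ∀ s, 0 < s → 0 < M s) {v : E 5} (hv : v ≠ 0) :
    ‖rad M v‖ ^ 2 = M (‖v‖ ^ 2) := by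
  have hn : 0 < ‖v‖ ^ 2 := pow_pos (norm_pos_iff.mpr hv) 2
  unfold rad
  rw [norm_smul, mul_pow, Real.norm_eq_abs, sq_abs, Real.sq_sqrt (div_pos (hp _ hn) hn).le]
  field_simp

theorem rad_mono (hM : ContDiff ℝ ∞ M) (hd : ∀ s, 0 < s → 0 < deriv M s) :
    StrictMonoOn M (Ici 0) :=
  strictMonoOn_of_deriv_pos (convex_Ici 0) hM.continuous.continuousOn fun x hx =>
    hd x (by simpa using hx)

theorem rad_injOn (hM : ContDiff ℝ ∞ M) (hp : ∀ s, 0 < s → 0 < M s)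
    (hd : ∀ s, 0 < s → 0 < deriv M s) : InjOn (rad M) {0}ᶜ := by
  intro v hv w hw h
  have hn : 0 < ‖w‖ ^ 2 := pow_pos (norm_pos_iff.mpr hw) 2
  have h1 : M (‖v‖ ^ 2) = M (‖w‖ ^ 2) := by
    rw [← rad_norm_sq hp hv, ← rad_norm_sq hp hw, h]
  have h2 : ‖v‖ ^ 2 = ‖w‖ ^ 2 :=
    (rad_mono hM hd).injOn (mem_Ici.mpr (by positivity)) (mem_Ici.mpr (by positivity)) h1
  unfold rad at h
  rw [h2] at h
  exact smul_right_injective _ (Real.sqrt_pos.mpr (div_pos (hp _ hn) hn)).ne' h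

theorem rad_eq {v : E 5} (h : M (‖v‖ ^ 2) = ‖v‖ ^ 2) : rad M v = v := by
  by_cases hv : v = 0
  · simp [rad, hv]
  · have hn : 0 < ‖v‖ ^ 2 := pow_pos (norm_pos_iff.mpr hv) 2
    unfold rad
    rw [h, div_self hn.ne', Real.sqrt_one, one_smul]

theorem rad_surj (hp : ∀ s, 0 < s → 0 < M s) {w : E 5} {s : ℝ} (hs : 0 < s)
    (h : M s = ‖w‖ ^ 2) : ∃ v : E 5, v ≠ 0 ∧ rad M v = w := by
  have hq : 0 < M s / s := div_pos (hp s hs) hs
  have hr : 0 < √(M s / s) := Real.sqrt_pos.mpr hq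
  have h1 : ‖(√(M s / s))⁻¹ • w‖ ^ 2 = s := by
    rw [norm_smul, mul_pow, Real.norm_eq_abs, sq_abs, inv_pow, Real.sq_sqrt hq.le, ← h]
    have := (hp s hs).ne'
    field_simp
  refine ⟨(√(M s / s))⁻¹ • w, ?_, ?_⟩
  · intro h0
    rw [h0] at h1
    simp at h1
    exact hs.ne h1
  · unfold rad
    rw [h1, smul_smul, mul_inv_cancel₀ hr.ne', one_smul]

end

/-- interpolation of two increasing functions -/
theorem rad_interp {f g : ℝ → ℝ} (hf : ContDiff ℝ ∞ f) (hg : ContDiff ℝ ∞ g) {c d : ℝ}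
    (hd : 0 < d) (hf' : ∀ s, 0 < deriv f s) (hg' : ∀ s, 0 < deriv g s)
    (hfg : ∀ s, c ≤ s → s ≤ c + d → f s ≤ g s) : ∃ M : ℝ → ℝ, ContDiff ℝ ∞ M ∧
      (∀ s, 0 < deriv M s) ∧ (∀ s, s ≤ c → M s = f s) ∧ (∀ s, c + d ≤ s → M s = g s) ∧
      ∀ s B, (s ≤ c + d → f s < B) → g s < B → M s < B := by
  set T : ℝ → ℝ := fun s => Real.smoothTransition ((s - c) / d) with hT
  have hTs : ContDiff ℝ ∞ T :=
    Real.smoothTransition.contDiff.comp ((contDiff_id.sub contDiff_const).div_const d)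
  have hT0 : ∀ s, 0 ≤ T s := fun s => Real.smoothTransition.nonneg _
  have hT1 : ∀ s, T s ≤ 1 := fun s => Real.smoothTransition.le_one _
  have hTl : ∀ s, s ≤ c → T s = 0 := fun s hs =>
    Real.smoothTransition.zero_of_nonpos (div_nonpos_of_nonpos_of_nonneg (by linarith) hd.le)
  have hTr : ∀ s, c + d ≤ s → T s = 1 := fun s hs =>
    Real.smoothTransition.one_of_one_le ((le_div_iff₀ hd).mpr (by linarith))
  have hTm : Monotone T := fun x y hxy =>
    Real.smoothTransition.monotone (div_le_div_of_nonneg_right (by linarith) hd.le)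
  refine ⟨fun s => f s + T s * (g s - f s), hf.add (hTs.mul (hg.sub hf)), ?_, ?_, ?_, ?_⟩
  · intro s
    have h1 : HasDerivAt f (deriv f s) s := (hf.differentiable (by simp)).differentiableAt.hasDerivAt
    have h2 : HasDerivAt g (deriv g s) s := (hg.differentiable (by simp)).differentiableAt.hasDerivAt
    have h3 : HasDerivAt T (deriv T s) s :=
      (hTs.differentiable (by simp)).differentiableAt.hasDerivAt
    have h4 : HasDerivAt (fun s => f s + T s * (g s - f s))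
        (deriv f s + (deriv T s * (g s - f s) + T s * (deriv g s - deriv f s))) s :=
      h1.add (h3.mul (h2.sub h1))
    rw [h4.deriv]
    have h5 : 0 ≤ deriv T s * (g s - f s) := by
      by_cases hl : s ≤ c
      · have : IsLocalMin T s := Filter.Eventually.of_forall fun y => by
          rw [hTl s hl]; exact hT0 y
        rw [this.deriv_eq_zero, zero_mul]
      · by_cases hr : c + d ≤ s
        · have : IsLocalMax T s := Filter.Eventually.of_forall fun y => by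
            rw [hTr s hr]; exact hT1 y
          rw [this.deriv_eq_zero, zero_mul]
        · exact mul_nonneg hTm.deriv_nonneg
            (sub_nonneg.mpr (hfg s (not_le.mp hl).le (not_le.mp hr).le))
    have h6 : 0 < deriv f s + T s * (deriv g s - deriv f s) := by
      have a1 := hf' s
      have a2 := hg' s
      have a3 := hT0 s
      have a4 := hT1 s
      rcases le_total (deriv f s) (deriv g s) with h | h
      · nlinarith [mul_nonneg a3 (sub_nonneg.mpr h)]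
      · nlinarith [mul_nonneg (sub_nonneg.mpr a4) (sub_nonneg.mpr h)]
    linarith
  · intro s hs
    simp only [hTl s hs, zero_mul, add_zero]
  · intro s hs
    simp only [hTr s hs, one_mul]
    ring
  · intro s B h1 h2
    by_cases hr : c + d ≤ s
    · simp only [hTr s hr, one_mul]
      linarith
    · have a1 := h1 (not_le.mp hr).le
      have a3 := hT0 s
      have a4 := hT1 s
      rcases le_total (f s) (g s) with h | h
      · nlinarith [mul_nonneg (sub_nonneg.mpr a4) (sub_nonneg.mpr h)]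
      · nlinarith [mul_nonneg a3 (sub_nonneg.mpr h)]

/-- a diffeomorphism of the punctured space onto the exterior of the ball of radius `R` that is the
identity near infinity -/
theorem exists_expel {R : ℝ} (hR : 0 < R) : ∃ (μ : E 5 → E 5) (R' : ℝ),
    ContDiffOn ℝ ∞ μ {0}ᶜ ∧ InjOn μ {0}ᶜ ∧ (∀ v, v ≠ 0 → 0 < (fderiv ℝ μ v).det) ∧
      μ '' {0}ᶜ = {v | R < ‖v‖} ∧ ∀ v, R' ≤ ‖v‖ → μ v = v := by
  have hfd : ∀ s : ℝ, HasDerivAt (fun s : ℝ => R ^ 2 + s / 2) (1 / 2) s := fun s =>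
    ((hasDerivAt_id s).div_const 2).const_add _
  obtain ⟨M, hM, hd, hl, hr, -⟩ := rad_interp (f := fun s => R ^ 2 + s / 2) (g := fun s => s)
    (contDiff_const.add (contDiff_id.div_const 2)) contDiff_id (c := 2 * R ^ 2) (d := 1) one_pos
    (fun s => by rw [(hfd s).deriv]; norm_num) (fun s => by simp) (fun s h1 _ => by linarith)
  have hR2 : 0 < R ^ 2 := by positivity
  have hM0 : M 0 = R ^ 2 := by rw [hl 0 (by linarith)]; ring
  have hmono := rad_mono hM fun s _ => hd s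
  have hgt : ∀ s, 0 < s → R ^ 2 < M s := fun s hs => by
    rw [← hM0]; exact hmono (mem_Ici.mpr le_rfl) (mem_Ici.mpr hs.le) hs
  have hp : ∀ s, 0 < s → 0 < M s := fun s hs => hR2.trans (hgt s hs)
  refine ⟨rad M, 2 * R ^ 2 + 1, fun v hv => (rad_contDiffAt hM hp hv).contDiffWithinAt,
    rad_injOn hM hp fun s _ => hd s, fun v hv => rad_det_pos hM hp (fun s _ => hd s) hv, ?_, ?_⟩
  · ext w
    constructor
    · rintro ⟨v, hv, rfl⟩
      have hn : 0 < ‖v‖ ^ 2 := pow_pos (norm_pos_iff.mpr hv) 2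
      have h1 := hgt _ hn
      rw [← rad_norm_sq hp hv] at h1
      exact lt_of_pow_lt_pow_left₀ 2 (norm_nonneg _) h1
    · intro hw
      have hw' : R < ‖w‖ := hw
      have h1 : R ^ 2 < ‖w‖ ^ 2 := pow_lt_pow_left₀ hw' hR.le two_ne_zero
      have hS : (0 : ℝ) ≤ 2 * R ^ 2 + 1 + ‖w‖ ^ 2 := by positivity
      have h2 : M (2 * R ^ 2 + 1 + ‖w‖ ^ 2) = 2 * R ^ 2 + 1 + ‖w‖ ^ 2 :=
        hr _ (by linarith [sq_nonneg ‖w‖])
      obtain ⟨s, hs, hMs⟩ := intermediate_value_Icc hS hM.continuous.continuousOn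
        (show ‖w‖ ^ 2 ∈ Icc (M 0) (M (2 * R ^ 2 + 1 + ‖w‖ ^ 2)) from
          ⟨by rw [hM0]; exact h1.le, by rw [h2]; linarith⟩)
      have hs0 : 0 < s := by
        rcases hs.1.eq_or_lt with h | h
        · rw [← h, hM0] at hMs
          linarith
        · exact h
      obtain ⟨v, hv, e⟩ := rad_surj hp hs0 hMs
      exact ⟨v, hv, e⟩
  · intro v hv
    refine rad_eq (hr _ ?_)
    nlinarith

/-- an embedding of the whole space into a ball that is the identity on a smaller ball -/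
theorem exists_compress {R R' : ℝ} (hR : 0 < R) (hRR : R < R') : ∃ ν : E 5 → E 5,
    ContDiff ℝ ∞ ν ∧ Function.Injective ν ∧ (∀ v, 0 < (fderiv ℝ ν v).det) ∧
      (∀ v, ‖ν v‖ < R') ∧ ∀ v, ‖v‖ ≤ R → ν v = v := by
  have hR2 : 0 < R ^ 2 := by positivity
  have hlt : R ^ 2 < R' ^ 2 := pow_lt_pow_left₀ hRR hR.le two_ne_zero
  set d : ℝ := (R' ^ 2 - R ^ 2) / 2 with hdd
  have hd0 : 0 < d := by linarith
  have hgd : ∀ s : ℝ, HasDerivAt (fun s : ℝ => R' ^ 2 - d * Real.exp (-s))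
      (-(d * (Real.exp (-s) * -1))) s := fun s =>
    (((hasDerivAt_neg s).exp).const_mul d).const_sub _
  obtain ⟨M, hM, hd, hl, -, hB⟩ := rad_interp (f := fun s => s)
    (g := fun s => R' ^ 2 - d * Real.exp (-s)) contDiff_id
    (contDiff_const.sub (contDiff_const.mul (Real.contDiff_exp.comp contDiff_neg)))
    (c := R ^ 2) (d := d) hd0 (fun s => by simp)
    (fun s => by
      rw [(hgd s).deriv]
      have := mul_pos hd0 (Real.exp_pos (-s))
      linarith)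
    (fun s h1 h2 => by
      have h3 : Real.exp (-s) ≤ 1 := Real.exp_le_one_iff.mpr (by linarith)
      have := mul_le_mul_of_nonneg_left h3 hd0.le
      linarith)
  have hM0 : M 0 = 0 := hl 0 hR2.le
  have hmono := rad_mono hM fun s _ => hd s
  have hp : ∀ s, 0 < s → 0 < M s := fun s hs => by
    rw [← hM0]; exact hmono (mem_Ici.mpr le_rfl) (mem_Ici.mpr hs.le) hs
  have hid : ∀ v : E 5, ‖v‖ ≤ R → rad M v = v := fun v hv =>
    rad_eq (hl _ (pow_le_pow_left₀ (norm_nonneg _) hv 2))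
  have hev : rad M =ᶠ[nhds 0] id := by
    filter_upwards [ball_mem_nhds (0 : E 5) hR] with v hv
    exact hid v (mem_ball_zero_iff.mp hv).le
  have h0 : rad M 0 = 0 := hid 0 (by simpa using hR.le)
  have hne : ∀ v : E 5, v ≠ 0 → rad M v ≠ 0 := fun v hv h => by
    have h1 := rad_norm_sq hp hv
    have h2 := hp _ (pow_pos (norm_pos_iff.mpr hv) 2)
    rw [h] at h1
    simp at h1
    linarith
  refine ⟨rad M, contDiff_iff_contDiffAt.mpr fun v => ?_, fun v w h => ?_, fun v => ?_,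
    fun v => ?_, hid⟩
  · by_cases hv : v = 0
    · rw [hv]
      exact contDiffAt_id.congr_of_eventuallyEq hev
    · exact rad_contDiffAt hM hp hv
  · by_cases hv : v = 0
    · by_contra hvw
      have hw : w ≠ 0 := fun hw => hvw (hv.trans hw.symm)
      rw [hv, h0] at h
      exact hne w hw h.symm
    · have hw : w ≠ 0 := fun hw => by
        rw [hw, h0] at h
        exact hne v hv h
      exact rad_injOn hM hp (fun s _ => hd s) hv hw h
  · by_cases hv : v = 0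
    · rw [hv, hev.fderiv_eq, fderiv_id]
      simp [ContinuousLinearMap.det]
    · exact rad_det_pos hM hp (fun s _ => hd s) hv
  · have hR' : 0 < R' := hR.trans hRR
    by_cases hv : v = 0
    · rw [hv, h0, norm_zero]
      exact hR'
    · have h1 := hB (‖v‖ ^ 2) (R' ^ 2) (fun h => by linarith) (by
        have := mul_pos hd0 (Real.exp_pos (-‖v‖ ^ 2))
        linarith)
      rw [← rad_norm_sq hp hv] at h1
      exact lt_of_pow_lt_pow_left₀ 2 hR'.le h1

end Pool.Agent.CSP
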