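import Pool.Agent.Lib.MP_436e1a_gt.A.Null
import Pool.Agent.Lib.MP_436e1a_gt.A.Transport

/-! The quaternion double cover, in the form needed for loops and spheres in `GL₃⁺`. -/

open Set

namespace Pool.Agent.CSP

/-- the rotation of a quaternion `q ≠ 0`, multiplied by `‖q‖ ^ 2` -/
def qrot (q : E 4) : Matrix (Fin 3) (Fin 3) ℝ :=
  !![q 0 ^ 2 + q 1 ^ 2 - q 2 ^ 2 - q 3 ^ 2, 2 * (q 1 * q 2 - q 0 * q 3), 2 * (q 1 * q 3 + q 0 * q 2);
    2 * (q 1 * q 2 + q 0 * q 3), q 0 ^ 2 - q 1 ^ 2 + q 2 ^ 2 - q 3 ^ 2, 2 * (q 2 * q 3 - q 0 * q 1);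
    2 * (q 1 * q 3 - q 0 * q 2), 2 * (q 2 * q 3 + q 0 * q 1), q 0 ^ 2 - q 1 ^ 2 - q 2 ^ 2 + q 3 ^ 2]

theorem so3_nsq (q : E 4) : ‖q‖ ^ 2 = q 0 ^ 2 + q 1 ^ 2 + q 2 ^ 2 + q 3 ^ 2 := by
  rw [EuclideanSpace.real_norm_sq_eq, Fin.sum_univ_four]

theorem continuous_qrot : Continuous qrot := by
  refine continuous_matrix fun i j => ?_
  fin_cases i <;> fin_cases j <;> simp [qrot] <;> fun_prop

/-- the determinant is `‖q‖ ^ 6` -/
theorem det_qrot_pos {q : E 4} (h : q ≠ 0) : 0 < (qrot q).det := by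
  have e : (qrot q).det = (‖q‖ ^ 2) ^ 3 := by
    rw [so3_nsq, Matrix.det_fin_three]
    simp [qrot]
    ring
  have := norm_pos_iff.2 h
  rw [e]
  positivity

theorem qrot_neg (q : E 4) : qrot (-q) = qrot q := by
  ext i j
  fin_cases i <;> fin_cases j <;> simp [qrot]

/-- the affine map from rotations to the matrices `q qᵀ` -/
noncomputable def so3K (R : Matrix (Fin 3) (Fin 3) ℝ) : Matrix (Fin 4) (Fin 4) ℝ :=
  !![(1 + R 0 0 + R 1 1 + R 2 2) / 4, (R 2 1 - R 1 2) / 4, (R 0 2 - R 2 0) / 4,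
      (R 1 0 - R 0 1) / 4;
    (R 2 1 - R 1 2) / 4, (1 + R 0 0 - R 1 1 - R 2 2) / 4, (R 0 1 + R 1 0) / 4,
      (R 0 2 + R 2 0) / 4;
    (R 0 2 - R 2 0) / 4, (R 0 1 + R 1 0) / 4, (1 - R 0 0 + R 1 1 - R 2 2) / 4,
      (R 1 2 + R 2 1) / 4;
    (R 1 0 - R 0 1) / 4, (R 0 2 + R 2 0) / 4, (R 1 2 + R 2 1) / 4,
      (1 - R 0 0 - R 1 1 + R 2 2) / 4]

theorem so3_symm (R : Matrix (Fin 3) (Fin 3) ℝ) (a b : Fin 4) : so3K R a b = so3K R b a := by
  fin_cases a <;> fin_cases b <;> rfl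

theorem so3_minor {R : Matrix (Fin 3) (Fin 3) ℝ} (h1 : R * R.transpose = 1) (hd : R.det = 1)
    (a b c : Fin 4) : so3K R a a * so3K R b c = so3K R a b * so3K R a c := by
  have h2 : R.transpose * R = 1 := mul_eq_one_comm.1 h1
  have h3 : R.adjugate = R.transpose := by
    rw [← mul_one R.adjugate, ← h1, ← mul_assoc, Matrix.adjugate_mul, hd, one_smul, one_mul]
  rw [Matrix.adjugate_fin_three] at h3
  have e1 := fun i j => congrFun (congrFun h1 i) j
  have e2 := fun i j => congrFun (congrFun h2 i) j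
  have e3 := fun i j => congrFun (congrFun h3 i) j
  simp only [Matrix.mul_apply, Matrix.transpose_apply, Fin.sum_univ_three] at e1 e2 e3
  have a00 : _ = (1 : ℝ) := e1 0 0
  have a11 : _ = (1 : ℝ) := e1 1 1
  have a22 : _ = (1 : ℝ) := e1 2 2
  have a01 : _ = (0 : ℝ) := e1 0 1
  have a02 : _ = (0 : ℝ) := e1 0 2
  have a12 : _ = (0 : ℝ) := e1 1 2
  have b00 : _ = (1 : ℝ) := e2 0 0
  have b11 : _ = (1 : ℝ) := e2 1 1
  have b01 : _ = (0 : ℝ) := e2 0 1
  have b02 : _ = (0 : ℝ) := e2 0 2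
  have b12 : _ = (0 : ℝ) := e2 1 2
  have c00 : R 1 1 * R 2 2 - R 1 2 * R 2 1 = _ := e3 0 0
  have c01 : -(R 0 1 * R 2 2) + R 0 2 * R 2 1 = _ := e3 0 1
  have c02 : R 0 1 * R 1 2 - R 0 2 * R 1 1 = _ := e3 0 2
  have c10 : -(R 1 0 * R 2 2) + R 1 2 * R 2 0 = _ := e3 1 0
  have c11 : R 0 0 * R 2 2 - R 0 2 * R 2 0 = _ := e3 1 1
  have c12 : -(R 0 0 * R 1 2) + R 0 2 * R 1 0 = _ := e3 1 2
  have c20 : R 1 0 * R 2 1 - R 1 1 * R 2 0 = _ := e3 2 0
  have c21 : -(R 0 0 * R 2 1) + R 0 1 * R 2 0 = _ := e3 2 1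
  have c22 : R 0 0 * R 1 1 - R 0 1 * R 1 0 = _ := e3 2 2
  clear e1 e2 e3 h1 h2 h3 hd
  fin_cases a <;> fin_cases b <;> fin_cases c <;>
    simp only [so3K, Fin.zero_eta, Fin.mk_one, Fin.reduceFinMk, Fin.isValue, Matrix.of_apply,
      Matrix.cons_val', Matrix.cons_val, Matrix.cons_val_zero, Matrix.cons_val_one,
      Matrix.cons_val_fin_one] <;> linarith

/-- There is a continuous map `K` from `3 × 3` matrices to `4 × 4` matrices such that for a rotation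
`R` the matrix `K R` is `q qᵀ` for a unit vector `q` with `qrot q = R`; and `K (qrot q) = q qᵀ`.
Sketch. `K` is affine: `4 K₀₀ = 1 + tr R`, `4 K₁₁ = 1 + R₀₀ - R₁₁ - R₂₂`, ..., `4 K₀₁ = R₂₁ - R₁₂`,
`4 K₁₂ = R₀₁ + R₁₀`, ... . For a rotation, `R Rᵀ = 1` and `adjugate R = Rᵀ` give `K ^ 2 = K` (each
entry by `linear_combination`), `Kᵀ = K`, `tr K = 1`; so `K` has rank one: a diagonal entry `K_aa` is
positive, `q = (K_aa) ^ (-1/2) K e_a`; the entries of `qrot q` are linear in `q qᵀ`. Another route: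
every rotation is a product of coordinate rotations and `qrot` is multiplicative. -/
theorem exists_qK : ∃ K : Matrix (Fin 3) (Fin 3) ℝ → Matrix (Fin 4) (Fin 4) ℝ, Continuous K ∧
    (∀ q : E 4, ‖q‖ = 1 → ∀ a b, K (qrot q) a b = q a * q b) ∧
    ∀ R : Matrix (Fin 3) (Fin 3) ℝ, R * R.transpose = 1 → R.det = 1 →
      ∃ q : E 4, ‖q‖ = 1 ∧ qrot q = R := by
  refine ⟨so3K, ?_, fun q hq a b => ?_, fun R h1 hd => ?_⟩
  · refine continuous_matrix fun i j => ?_
    fin_cases i <;> fin_cases j <;> simp [so3K] <;> fun_prop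
  · have h := so3_nsq q
    rw [hq] at h
    fin_cases a <;> fin_cases b <;> simp [so3K, qrot] <;> linarith
  · have htr : so3K R 0 0 + so3K R 1 1 + so3K R 2 2 + so3K R 3 3 = 1 := by
      simp [so3K]
      ring
    obtain ⟨a, ha⟩ : ∃ a, 0 < so3K R a a := by
      by_contra h
      push Not at h
      linarith [h 0, h 1, h 2, h 3]
    have hs := Real.sqrt_pos.2 ha
    obtain ⟨q, hq⟩ : ∃ q : E 4, ∀ b c, q b * q c = so3K R b c := by
      refine ⟨WithLp.toLp 2 fun b => so3K R a b / √(so3K R a a), fun b c => ?_⟩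
      show so3K R a b / √(so3K R a a) * (so3K R a c / √(so3K R a a)) = _
      rw [div_mul_div_comm, Real.mul_self_sqrt ha.le, ← so3_minor h1 hd,
        mul_div_cancel_left₀ _ ha.ne']
    refine ⟨q, ?_, ?_⟩
    · have h := so3_nsq q
      simp only [sq (q _), hq] at h
      rw [htr] at h
      exact (pow_eq_one_iff_of_nonneg (norm_nonneg q) two_ne_zero).1 h
    · ext i j
      fin_cases i <;> fin_cases j <;> simp [qrot, sq, hq, so3K] <;> ring

/-- the cross product of the first two columns -/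
def so3N (M : Matrix (Fin 3) (Fin 3) ℝ) : Fin 3 → ℝ :=
  ![M 1 0 * M 2 1 - M 2 0 * M 1 1, M 2 0 * M 0 1 - M 0 0 * M 2 1, M 0 0 * M 1 1 - M 1 0 * M 0 1]

/-- `s M` plus an orthogonal frame with weights `x`, `y`, `z` -/
def so3F (M : Matrix (Fin 3) (Fin 3) ℝ) (s x y z : ℝ) : Matrix (Fin 3) (Fin 3) ℝ :=
  !![(s + x) * M 0 0, s * M 0 1 + y * (so3N M 1 * M 2 0 - so3N M 2 * M 1 0),
      s * M 0 2 + z * so3N M 0;
    (s + x) * M 1 0, s * M 1 1 + y * (so3N M 2 * M 0 0 - so3N M 0 * M 2 0),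
      s * M 1 2 + z * so3N M 1;
    (s + x) * M 2 0, s * M 2 1 + y * (so3N M 0 * M 1 0 - so3N M 1 * M 0 0),
      s * M 2 2 + z * so3N M 2]

/-- the square of the length of the first column -/
def so3A (M : Matrix (Fin 3) (Fin 3) ℝ) : ℝ := M 0 0 ^ 2 + M 1 0 ^ 2 + M 2 0 ^ 2

/-- the square of the length of the cross product -/
def so3B (M : Matrix (Fin 3) (Fin 3) ℝ) : ℝ := so3N M 0 ^ 2 + so3N M 1 ^ 2 + so3N M 2 ^ 2

theorem so3_detF (M : Matrix (Fin 3) (Fin 3) ℝ) (s x y z : ℝ) :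
    (so3F M s x y z).det = (s + x) * (s + so3A M * y) * (s * M.det + so3B M * z) := by
  simp [Matrix.det_fin_three, so3F, so3A, so3B, so3N]
  ring

theorem so3_orth (M : Matrix (Fin 3) (Fin 3) ℝ) {x z : ℝ} (hx : x ^ 2 * so3A M = 1)
    (hz : z ^ 2 * so3B M = 1) :
    so3F M 0 x (x * z) z * (so3F M 0 x (x * z) z).transpose = 1 := by
  rw [mul_eq_one_comm]
  have h : x ^ 2 * so3A M * (z ^ 2 * so3B M) = 1 := by rw [hx, hz, one_mul]
  simp only [so3A, so3B, so3N, Matrix.cons_val] at hx hz h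
  ext i j
  fin_cases i <;> fin_cases j <;>
    simp [Matrix.mul_apply, Fin.sum_univ_three, so3F, so3N] <;>
    first
      | linear_combination hx
      | linear_combination hz
      | linear_combination h
      | ring

theorem so3_pos {M : Matrix (Fin 3) (Fin 3) ℝ} (h : 0 < M.det) : 0 < so3A M ∧ 0 < so3B M := by
  have e : M.det = so3N M 0 * M 0 2 + so3N M 1 * M 1 2 + so3N M 2 * M 2 2 := by
    simp [Matrix.det_fin_three, so3N]
    ring
  constructor
  · refine lt_of_le_of_ne (by unfold so3A; positivity) fun h0 => ?_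
    unfold so3A at h0
    have h1 : M 0 0 = 0 := by nlinarith [sq_nonneg (M 0 0), sq_nonneg (M 1 0), sq_nonneg (M 2 0)]
    have h2 : M 1 0 = 0 := by nlinarith [sq_nonneg (M 0 0), sq_nonneg (M 1 0), sq_nonneg (M 2 0)]
    have h3 : M 2 0 = 0 := by nlinarith [sq_nonneg (M 0 0), sq_nonneg (M 1 0), sq_nonneg (M 2 0)]
    simp [Matrix.det_fin_three, h1, h2, h3] at h
  · refine lt_of_le_of_ne (by unfold so3B; positivity) fun h0 => ?_
    unfold so3B at h0
    generalize so3N M = n at e h0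
    have h1 : n 0 = 0 := by nlinarith [sq_nonneg (n 0), sq_nonneg (n 1), sq_nonneg (n 2)]
    have h2 : n 1 = 0 := by nlinarith [sq_nonneg (n 0), sq_nonneg (n 1), sq_nonneg (n 2)]
    have h3 : n 2 = 0 := by nlinarith [sq_nonneg (n 0), sq_nonneg (n 1), sq_nonneg (n 2)]
    simp [e, h1, h2, h3] at h

theorem so3_contN (i : Fin 3) : Continuous fun M => so3N M i := by
  fin_cases i <;> simp [so3N] <;> fun_prop

theorem so3_contF {X : Type} [TopologicalSpace X] {S : Set X} {M : X → Matrix (Fin 3) (Fin 3) ℝ}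
    {s x y z : X → ℝ} (hM : ContinuousOn M S) (hs : ContinuousOn s S) (hx : ContinuousOn x S)
    (hy : ContinuousOn y S) (hz : ContinuousOn z S) :
    ContinuousOn (fun p => so3F (M p) (s p) (x p) (y p) (z p)) S := by
  have h : Continuous fun p : Matrix (Fin 3) (Fin 3) ℝ × ℝ × ℝ × ℝ × ℝ =>
      so3F p.1 p.2.1 p.2.2.1 p.2.2.2.1 p.2.2.2.2 := by
    refine continuous_matrix fun i j => ?_
    fin_cases i <;> fin_cases j <;> simp [so3F, so3N] <;> fun_prop
  exact h.comp_continuousOn (hM.prodMk (hs.prodMk (hx.prodMk (hy.prodMk hz))))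

/-- Gram-Schmidt as a deformation of `GL₃⁺` into `SO(3)`.
Sketch. `M = R T` with `T` upper triangular with positive diagonal (explicit formulas on the columns;
the third column of `R` is the cross product), `G (t, M) = R ((1 - t) T + t)`. -/
theorem exists_gs : ∃ G : ℝ × Matrix (Fin 3) (Fin 3) ℝ → Matrix (Fin 3) (Fin 3) ℝ,
    ContinuousOn G (Icc 0 1 ×ˢ {M | 0 < M.det}) ∧ ∀ M : Matrix (Fin 3) (Fin 3) ℝ, 0 < M.det →
      G (0, M) = M ∧ G (1, M) * (G (1, M)).transpose = 1 ∧ (G (1, M)).det = 1 ∧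
      ∀ t ∈ Icc (0 : ℝ) 1, 0 < (G (t, M)).det := by
  refine ⟨fun p => so3F p.2 (1 - p.1) (p.1 * (√(so3A p.2))⁻¹)
    (p.1 * ((√(so3A p.2))⁻¹ * (√(so3B p.2))⁻¹)) (p.1 * (√(so3B p.2))⁻¹), ?_, fun M hM => ?_⟩
  · have hA : Continuous so3A := by
      unfold so3A
      fun_prop
    have hB : Continuous so3B := by
      have := so3_contN
      unfold so3B
      fun_prop
    have hx : ContinuousOn (fun p : ℝ × Matrix (Fin 3) (Fin 3) ℝ => (√(so3A p.2))⁻¹)
        (Icc 0 1 ×ˢ {M | 0 < M.det}) :=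
      (hA.comp continuous_snd).sqrt.continuousOn.inv₀
        fun p hp => (Real.sqrt_pos.2 (so3_pos hp.2).1).ne'
    have hz : ContinuousOn (fun p : ℝ × Matrix (Fin 3) (Fin 3) ℝ => (√(so3B p.2))⁻¹)
        (Icc 0 1 ×ˢ {M | 0 < M.det}) :=
      (hB.comp continuous_snd).sqrt.continuousOn.inv₀
        fun p hp => (Real.sqrt_pos.2 (so3_pos hp.2).2).ne'
    exact so3_contF continuousOn_snd (continuousOn_const.sub continuousOn_fst)
      (continuousOn_fst.mul hx) (continuousOn_fst.mul (hx.mul hz)) (continuousOn_fst.mul hz)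
  · obtain ⟨hA, hB⟩ := so3_pos hM
    have hx : (√(so3A M))⁻¹ ^ 2 * so3A M = 1 := by
      rw [inv_pow, Real.sq_sqrt hA.le, inv_mul_cancel₀ hA.ne']
    have hz : (√(so3B M))⁻¹ ^ 2 * so3B M = 1 := by
      rw [inv_pow, Real.sq_sqrt hB.le, inv_mul_cancel₀ hB.ne']
    have hx0 : 0 < (√(so3A M))⁻¹ := inv_pos.2 (Real.sqrt_pos.2 hA)
    have hz0 : 0 < (√(so3B M))⁻¹ := inv_pos.2 (Real.sqrt_pos.2 hB)
    dsimp only
    generalize (√(so3A M))⁻¹ = x at hx hx0
    generalize (√(so3B M))⁻¹ = z at hz hz0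
    refine ⟨?_, ?_, ?_, fun t ht => ?_⟩
    · ext i j
      fin_cases i <;> fin_cases j <;> simp [so3F]
    · simp only [sub_self, one_mul]
      exact so3_orth M hx hz
    · rw [so3_detF]
      linear_combination (z ^ 2 * so3B M) * hx + hz
    · rw [so3_detF]
      have key : ∀ u v : ℝ, 0 < u → 0 < v → 0 < (1 - t) * u + t * v := fun u v hu hv => by
        rcases eq_or_lt_of_le ht.1 with h | h
        · rw [← h]
          simpa using hu
        · have := mul_nonneg (sub_nonneg.2 ht.2) hu.le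
          have := mul_pos h hv
          linarith
      have h1 := key 1 x one_pos hx0
      have h2 := key 1 (so3A M * (x * z)) one_pos (by positivity)
      have h3 := key M.det (so3B M * z) hM (by positivity)
      refine mul_pos (mul_pos ?_ ?_) ?_ <;> linarith

/-- the operator of a matrix -/
noncomputable def so3L (A : Matrix (Fin 4) (Fin 4) ℝ) : E 4 →L[ℝ] E 4 :=
  ∑ a, ∑ b, A a b • (EuclideanSpace.proj b : E 4 →L[ℝ] ℝ).smulRight (EuclideanSpace.single a 1)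

theorem so3_contL : Continuous so3L := by
  unfold so3L
  fun_prop

theorem so3_L_apply {A : Matrix (Fin 4) (Fin 4) ℝ} {q : E 4} (h : ∀ a b, A a b = q a * q b)
    (v : E 4) : so3L A v = inner ℝ q v • q := by
  ext i
  fin_cases i <;>
    simp [so3L, h, Fin.sum_univ_four, EuclideanSpace.inner_eq_star_dotProduct, dotProduct] <;>
    ring

/-- A continuous family of rotations over a compact set that is star-shaped about `x₀` lifts to the
unit quaternions. Sketch. `transport2` (`n = 0`, `Q = 0`) for the idempotents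
`P (t, x) = K (R (x₀ + t (x - x₀)))`, or Mathlib's covering theory; normalise `Θ q₀`. (Import
`A.Transport` if you use it.) -/
theorem qlift {V : Type} [NormedAddCommGroup V] [NormedSpace ℝ V] {K : Set V} (hK : IsCompact K)
    {x₀ : V} (hs : StarConvex ℝ x₀ K) {R : V → Matrix (Fin 3) (Fin 3) ℝ} (hR : ContinuousOn R K)
    (h1 : ∀ x ∈ K, R x * (R x).transpose = 1 ∧ (R x).det = 1) :
    ∃ q : V → E 4, ContinuousOn q K ∧ ∀ x ∈ K, ‖q x‖ = 1 ∧ qrot (q x) = R x := by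
  rcases K.eq_empty_or_nonempty with rfl | hne
  · exact ⟨fun _ => 0, continuousOn_empty _, by simp⟩
  have hx₀ : x₀ ∈ K := hs.mem hne
  obtain ⟨Kq, hKc, hKq, hsur⟩ := exists_qK
  have hmem : ∀ p ∈ Icc (0 : ℝ) 1 ×ˢ K, (1 - p.1) • x₀ + p.1 • p.2 ∈ K := fun p hp =>
    hs hp.2 (sub_nonneg.2 hp.1.2) hp.1.1 (sub_add_cancel _ _)
  have hrk : ∀ x ∈ K, ∃ q : E 4, ‖q‖ = 1 ∧ qrot q = R x ∧
      ∀ v, so3L (Kq (R x)) v = inner ℝ q v • q := fun x hx => by
    obtain ⟨q, hq, hqR⟩ := hsur (R x) (h1 x hx).1 (h1 x hx).2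
    exact ⟨q, hq, hqR, so3_L_apply fun a b => by rw [← hqR, hKq q hq]⟩
  have hc : ContinuousOn (fun p : ℝ × V => so3L (Kq (R ((1 - p.1) • x₀ + p.1 • p.2))))
      (Icc 0 1 ×ˢ K) :=
    (so3_contL.comp hKc).comp_continuousOn (hR.comp (by fun_prop) hmem)
  obtain ⟨Θ, hΘc, -, hΘP, hΘu⟩ := transport2 0 (convex_Icc 0 1) Subset.rfl hK Subset.rfl
    (P := fun p : ℝ × V => so3L (Kq (R ((1 - p.1) • x₀ + p.1 • p.2)))) (Q := fun _ => 0)
    (contDiffOn_zero.2 hc) contDiffOn_const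
    (fun p hp => by
      obtain ⟨q, hq, -, h⟩ := hrk _ (hmem p hp)
      ext1 v
      rw [mul_apply_eq_comp, h, h, inner_smul_right, real_inner_self_eq_norm_sq, hq]
      simp)
    (fun _ _ => mul_zero _) (fun _ _ => mul_zero _) (fun _ _ => zero_mul _)
  obtain ⟨q₀, hq₀, -, h₀⟩ := hrk x₀ hx₀
  have h11 : ∀ x ∈ K, ((1 : ℝ), x) ∈ Icc (0 : ℝ) 1 ×ˢ K := fun x hx => ⟨⟨zero_le_one, le_rfl⟩, hx⟩
  have hne0 : ∀ x ∈ K, Θ (1, x) q₀ ≠ 0 := fun x hx h => by
    obtain ⟨u, hu⟩ := hΘu _ (h11 x hx)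
    have h2 : (↑u⁻¹ * ↑u : E 4 →L[ℝ] E 4) q₀ = q₀ := by simp
    rw [mul_apply_eq_comp, hu, h, map_zero] at h2
    rw [← h2] at hq₀
    simp at hq₀
  have hv : ContinuousOn (fun x => Θ (1, x) q₀) K :=
    ((contDiffOn_zero.1 hΘc).comp (by fun_prop) h11).clm_apply continuousOn_const
  refine ⟨fun x => ‖Θ (1, x) q₀‖⁻¹ • Θ (1, x) q₀,
    (hv.norm.inv₀ fun x hx => norm_ne_zero_iff.2 (hne0 x hx)).smul hv, fun x hx => ?_⟩
  obtain ⟨q, hq, hqR, h⟩ := hrk x hx
  have h2 := congrArg (fun A : E 4 →L[ℝ] E 4 => A q₀) (hΘP _ (h11 x hx)).1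
  simp only [mul_apply_eq_comp, sub_self, zero_smul, one_smul, zero_add, sub_zero,
    add_zero, h, h₀, real_inner_self_eq_norm_sq, hq₀, one_pow] at h2
  have h3 := hne0 x hx
  dsimp only
  generalize inner ℝ q (Θ (1, x) q₀) = c at h2
  rw [← h2] at h3 ⊢
  have hc0 : c ≠ 0 := fun h => h3 (by rw [h, zero_smul])
  rw [norm_smul c q, hq, mul_one, smul_smul, Real.norm_eq_abs]
  rcases lt_or_gt_of_ne hc0 with h4 | h4
  · rw [abs_of_neg h4, inv_neg, neg_mul, inv_mul_cancel₀ hc0, neg_one_smul, norm_neg, qrot_neg]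
    exact ⟨hq, hqR⟩
  · rw [abs_of_pos h4, inv_mul_cancel₀ hc0, one_smul]
    exact ⟨hq, hqR⟩

end Pool.Agent.CSP
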