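import Pool.Agent.Lib.MP_436e1a_gt.Maps

/-! Basic facts on thin sets. -/

open scoped ContDiff
open Set Module

namespace Pool.Agent.CSP

variable {V W : Type} [NormedAddCommGroup V] [NormedSpace ℝ V]
  [NormedAddCommGroup W] [NormedSpace ℝ W] {k l : ℕ} {A B : Set V}

theorem Thin.mono (h : Thin k B) (hAB : A ⊆ B) : Thin k A :=
  let ⟨O, φ, h1, h2⟩ := h
  ⟨O, φ, h1, hAB.trans h2⟩

theorem thinl_mk [FiniteDimensional ℝ W] (h : finrank ℝ W ≤ k) {O : Set W} (hO : IsOpen O)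
    {φ : W → V} (hφ : ContDiffOn ℝ ∞ φ O) : Thin k (φ '' O) := by
  obtain ⟨i, hi⟩ := (finrank_le_iff_exists_linearMap (R := ℝ) (M := W) (M' := E k)).1
    (by simpa using h)
  obtain ⟨p, hp⟩ := i.exists_leftInverse_of_injective (LinearMap.ker_eq_bot.2 hi)
  refine ⟨fun _ => p.toContinuousLinearMap ⁻¹' O, fun _ => φ ∘ p.toContinuousLinearMap,
    fun _ => ⟨hO.preimage p.toContinuousLinearMap.continuous,
      hφ.comp p.toContinuousLinearMap.contDiff.contDiffOn fun _ hx => hx⟩, ?_⟩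
  rintro _ ⟨x, hx, rfl⟩
  have e : p.toContinuousLinearMap (i x) = x := DFunLike.congr_fun hp x
  exact mem_iUnion.2 ⟨0, i x, by rwa [mem_preimage, e], congrArg φ e⟩

theorem thinl_empty : Thin k (∅ : Set V) :=
  ⟨fun _ => ∅, fun _ _ => 0, fun _ => ⟨isOpen_empty, contDiffOn_const⟩, empty_subset _⟩

theorem thinl_iUnion {ι : Type} [Countable ι] {A : ι → Set V} (h : ∀ i, Thin k (A i)) :
    Thin k (⋃ i, A i) := by
  rcases isEmpty_or_nonempty ι with _ | _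
  · rw [iUnion_of_empty]
    exact thinl_empty
  choose O φ h1 h2 using h
  obtain ⟨e, he⟩ := exists_surjective_nat (ι × ℕ)
  refine ⟨fun n => O (e n).1 (e n).2, fun n => φ (e n).1 (e n).2, fun n => h1 _ _,
    iUnion_subset fun i x hx => ?_⟩
  obtain ⟨n, hn⟩ := mem_iUnion.1 (h2 i hx)
  obtain ⟨m, hm⟩ := he (i, n)
  exact mem_iUnion.2 ⟨m, by simpa only [hm] using hn⟩

theorem Thin.of_le (h : Thin k A) (hkl : k ≤ l) : Thin l A :=
  let ⟨_, _, h1, h2⟩ := h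
  (thinl_iUnion fun n => thinl_mk (by simpa using hkl) (h1 n).1 (h1 n).2).mono h2

theorem Thin.iUnion {ι : Type} [Countable ι] {A : ι → Set V} (h : ∀ i, Thin k (A i)) :
    Thin k (⋃ i, A i) := thinl_iUnion h

theorem Thin.union (hA : Thin k A) (hB : Thin k B) : Thin k (A ∪ B) := by
  rw [union_eq_iUnion]
  exact thinl_iUnion fun b => by cases b <;> assumption

theorem thin_empty : Thin k (∅ : Set V) := thinl_empty

theorem thin_singleton (x : V) : Thin 0 ({x} : Set V) :=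
  ⟨fun _ => univ, fun _ _ => x, fun _ => ⟨isOpen_univ, contDiffOn_const⟩, by
    rintro _ rfl
    exact mem_iUnion.2 ⟨0, 0, trivial, rfl⟩⟩

theorem Thin.image (h : Thin k A) {O : Set V} (hO : IsOpen O) (hAO : A ⊆ O) {f : V → W}
    (hf : ContDiffOn ℝ ∞ f O) : Thin k (f '' A) := by
  obtain ⟨U, φ, h1, h2⟩ := h
  refine ⟨fun n => U n ∩ φ n ⁻¹' O, fun n => f ∘ φ n, fun n =>
    ⟨(h1 n).2.continuousOn.isOpen_inter_preimage (h1 n).1 hO,
      hf.comp ((h1 n).2.mono inter_subset_left) fun _ hx => hx.2⟩, ?_⟩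
  rintro _ ⟨x, hx, rfl⟩
  obtain ⟨n, y, hy, rfl⟩ := mem_iUnion.1 (h2 hx)
  exact mem_iUnion.2 ⟨n, y, ⟨hy, hAO hx⟩, rfl⟩

theorem Thin.prod {B : Set W} (hA : Thin k A) (hB : Thin l B) : Thin (k + l) (A ×ˢ B) := by
  obtain ⟨U, φ, h1, h2⟩ := hA
  obtain ⟨U', ψ, h3, h4⟩ := hB
  refine (thinl_iUnion (ι := ℕ × ℕ) fun n => thinl_mk (by simp) ((h1 n.1).1.prod (h3 n.2).1)
    ((h1 n.1).2.prodMap (h3 n.2).2)).mono ?_
  rintro ⟨x, y⟩ ⟨hx, hy⟩
  obtain ⟨n, u, hu, rfl⟩ := mem_iUnion.1 (h2 hx)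
  obtain ⟨m, v, hv, rfl⟩ := mem_iUnion.1 (h4 hy)
  exact mem_iUnion.2 ⟨(n, m), (u, v), ⟨hu, hv⟩, rfl⟩

theorem thin_of_finrank [FiniteDimensional ℝ V] (h : finrank ℝ V ≤ k) (A : Set V) : Thin k A :=
  (thinl_mk h isOpen_univ contDiffOn_id).mono fun x _ => ⟨x, trivial, rfl⟩

/-- spherical coordinates are smooth and onto -/
theorem thin_S2 : Thin 2 S2 := by
  refine (thinl_mk (W := ℝ × ℝ) (by simp) isOpen_univ (φ := fun p =>
    (!₂[Real.cos p.1 * Real.cos p.2, Real.cos p.1 * Real.sin p.2, Real.sin p.1] : E 3))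
    (ContDiff.contDiffOn (contDiff_euclidean.2 fun i => ?_))).mono fun x hx => ?_
  · fin_cases i <;> simp <;> fun_prop
  · have h1 : x 0 ^ 2 + x 1 ^ 2 + x 2 ^ 2 = 1 := by
      have := EuclideanSpace.real_norm_sq_eq x
      rw [mem_sphere_zero_iff_norm.1 hx, Fin.sum_univ_three] at this
      linarith
    have h2 : Real.cos (Real.arcsin (x 2)) = ‖(⟨x 0, x 1⟩ : ℂ)‖ := by
      rw [Real.cos_arcsin, Complex.norm_eq_sqrt_sq_add_sq]
      congr 1
      linarith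
    refine ⟨(Real.arcsin (x 2), Complex.arg ⟨x 0, x 1⟩), trivial, ?_⟩
    ext i
    fin_cases i
    · simp [h2]
    · simp [h2]
    · simpa using Real.sin_arcsin (by nlinarith) (by nlinarith)

theorem Thin.dense_compl [FiniteDimensional ℝ V] (h : Thin k A) (hk : k < finrank ℝ V) :
    Dense Aᶜ := by
  obtain ⟨O, φ, h1, h2⟩ := h
  refine dense_compl_of_dimH_lt_finrank (((dimH_mono h2).trans ?_).trans_lt (Nat.cast_lt.2 hk))
  rw [dimH_iUnion]
  refine iSup_le fun n => (dimH_image_le_of_locally_lipschitzOn fun x hx => ?_).trans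
    ((dimH_mono (subset_univ _)).trans (by simp [Real.dimH_univ_eq_finrank]))
  obtain ⟨C, t, ht, hl⟩ := (((h1 n).2.contDiffAt ((h1 n).1.mem_nhds hx)).of_le
    (m := 1) (by simp)).exists_lipschitzOnWith
  exact ⟨C, t, mem_nhdsWithin_of_mem_nhds ht, hl⟩

end Pool.Agent.CSP
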