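import Pool.Agent.Lib.MP_436e1a_gt.A.MapsL

/-! Auxiliary lemmas for `TubeL`. -/

open scoped ContDiff RealInnerProductSpace Topology
open Set

namespace Pool.Agent.CSP

/-- `inc` as a continuous linear map -/
noncomputable def tl_incL : E 3 →L[ℝ] E 5 where
  toFun := inc
  map_add' x y := by
    ext i
    fin_cases i <;> simp [inc]
  map_smul' c x := by
    ext i
    fin_cases i <;> simp [inc]
  cont := by
    refine (PiLp.continuous_toLp 2 _).comp (continuous_pi fun i => ?_)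
    fin_cases i <;> simp <;> fun_prop

/-- `pr3` as a continuous linear map -/
noncomputable def tl_prL : E 5 →L[ℝ] E 3 where
  toFun := pr3
  map_add' x y := by
    ext i
    fin_cases i <;> simp [pr3]
  map_smul' c x := by
    ext i
    fin_cases i <;> simp [pr3]
  cont := by
    refine (PiLp.continuous_toLp 2 _).comp (continuous_pi fun i => ?_)
    fin_cases i <;> simp <;> fun_prop

theorem tl_prL_apply (v : E 5) : tl_prL v = pr3 v := rfl

theorem tl_col {V W : Type} [NormedAddCommGroup V] [NormedSpace ℝ V] [NormedAddCommGroup W]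
    [NormedSpace ℝ W] {f : V → W} {v ξ : V} {c : W} (hf : DifferentiableAt ℝ f v)
    (h : HasDerivAt (fun t : ℝ => f (v + t • ξ)) c 0) : fderiv ℝ f v ξ = c :=
  (hf.hasFDerivAt.hasLineDerivAt ξ).unique h

theorem tl_hasDerivAt {n : ℕ} {f : ℝ → E n} {c : E n} {t : ℝ}
    (h : ∀ i, HasDerivAt (fun s => f s i) (c i) t) : HasDerivAt f c t := by
  have h1 : HasDerivAt (fun s => (f s).ofLp) c.ofLp t := hasDerivAt_pi.mpr h
  exact (EuclideanSpace.equiv (Fin n) ℝ).symm.toContinuousLinearMap.hasFDerivAt.comp_hasDerivAt t h1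

theorem tl_coord {V : Type} [NormedAddCommGroup V] [NormedSpace ℝ V] {n : ℕ} {f : V → E n}
    {v : V} (hf : DifferentiableAt ℝ f v) (ξ : V) (i : Fin n) :
    fderiv ℝ f v ξ i = fderiv ℝ (fun y => f y i) v ξ := by
  have h : HasFDerivAt (fun y => f y i)
      ((EuclideanSpace.proj i : E n →L[ℝ] ℝ).comp (fderiv ℝ f v)) v :=
    (EuclideanSpace.proj i : E n →L[ℝ] ℝ).hasFDerivAt.comp v hf.hasFDerivAt
  rw [h.fderiv]
  rfl

theorem tl_pr3_tube (u w : E 3) : pr3 (tube u w) = Real.exp (w 0) • u := by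
  ext i
  fin_cases i <;> simp [pr3, tube]

theorem tl_norm_pr3_tube {u : E 3} (hu : u ∈ S2) (w : E 3) :
    ‖pr3 (tube u w)‖ = Real.exp (w 0) := by
  rw [tl_pr3_tube, norm_smul, mem_sphere_zero_iff_norm.mp hu, mul_one,
    Real.norm_of_nonneg (Real.exp_pos _).le]

theorem tl_gn (x : E 3) : ∃ c : ℝ, 0 < c ∧ gn x 0 = c * x 0 ∧ gn x 1 = c * x 1 ∧ gn x 2 = c := by
  have h : (!₂[x 0, x 1, 1] : E 3) ≠ 0 := by
    intro h0
    simpa using congrArg (fun y : E 3 => y 2) h0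
  refine ⟨‖(!₂[x 0, x 1, 1] : E 3)‖⁻¹, inv_pos.mpr (norm_pos_iff.mpr h), ?_, ?_, ?_⟩ <;>
    simp [gn, nrm]

theorem tl_gn2 (x : E 3) : 0 < gn x 2 := by
  obtain ⟨c, hc, -, -, h⟩ := tl_gn x
  rw [h]
  exact hc

theorem tl_gn_congr {x y : E 3} (h0 : x 0 = y 0) (h1 : x 1 = y 1) : gn x = gn y := by
  unfold gn
  rw [h0, h1]

theorem tl_Lam2 (ε : ℝ) (v : E 5) :
    Lam ε v 2 = Real.exp (ε * (cub0 (pr3 v) 0 + v 3)) * gn (pr3 v) 2 := by
  simp [Lam, tube, mul_add]

theorem tl_Lam0 (ε : ℝ) (v : E 5) : Lam ε v 0 = v 0 * Lam ε v 2 := by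
  obtain ⟨c, -, h0, -, h2⟩ := tl_gn (pr3 v)
  have e : pr3 v 0 = v 0 := by simp [pr3]
  rw [e] at h0
  simp [Lam, tube, h0, h2]
  ring

theorem tl_Lam1 (ε : ℝ) (v : E 5) : Lam ε v 1 = v 1 * Lam ε v 2 := by
  obtain ⟨c, -, -, h1, h2⟩ := tl_gn (pr3 v)
  have e : pr3 v 1 = v 1 := by simp [pr3]
  rw [e] at h1
  simp [Lam, tube, h1, h2]
  ring

theorem tl_rel {n : ℕ} {f : E n → E n} {v : E n} (hf : DifferentiableAt ℝ f v) (i j : Fin n)
    (h : ∀ y, f y i = y i * f y j) (ξ : E n) :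
    fderiv ℝ f v ξ i = v i * fderiv ℝ f v ξ j + f v j * ξ i := by
  have h1 : HasFDerivAt (fun y => f y j)
      ((EuclideanSpace.proj j : E n →L[ℝ] ℝ).comp (fderiv ℝ f v)) v :=
    (EuclideanSpace.proj j : E n →L[ℝ] ℝ).hasFDerivAt.comp v hf.hasFDerivAt
  have h2 : HasFDerivAt (fun y : E n => y i) (EuclideanSpace.proj i : E n →L[ℝ] ℝ) v :=
    (EuclideanSpace.proj i : E n →L[ℝ] ℝ).hasFDerivAt
  have h3 : HasFDerivAt (fun y : E n => y i * f y j) _ v := h2.mul h1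
  rw [tl_coord hf, funext h, h3.fderiv]
  simp

theorem tl_Lam_c2 (ε : ℝ) (v : E 5) :
    HasDerivAt (fun t : ℝ => Lam ε (v + t • EuclideanSpace.single 2 1))
      (EuclideanSpace.single 4 ε) 0 := by
  have e : (fun t : ℝ => Lam ε (v + t • EuclideanSpace.single 2 1)) =
      fun t : ℝ => Lam ε v + t • (EuclideanSpace.single 4 ε : E 5) := by
    funext t
    have g : gn (pr3 (v + t • EuclideanSpace.single 2 1)) = gn (pr3 v) :=
      tl_gn_congr (by simp [pr3]) (by simp [pr3])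
    unfold Lam
    rw [g]
    generalize gn (pr3 v) = a
    ext i
    fin_cases i <;> simp [tube, cub0, pr3]
    ring
  rw [e]
  simpa using ((hasDerivAt_id (0 : ℝ)).smul_const (EuclideanSpace.single 4 ε : E 5)).const_add
    (Lam ε v)

theorem tl_Lam_c4 (ε : ℝ) (v : E 5) :
    HasDerivAt (fun t : ℝ => Lam ε (v + t • EuclideanSpace.single 4 1))
      (EuclideanSpace.single 3 ε) 0 := by
  have e : (fun t : ℝ => Lam ε (v + t • EuclideanSpace.single 4 1)) =
      fun t : ℝ => Lam ε v + t • (EuclideanSpace.single 3 ε : E 5) := by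
    funext t
    have g : gn (pr3 (v + t • EuclideanSpace.single 4 1)) = gn (pr3 v) :=
      tl_gn_congr (by simp [pr3]) (by simp [pr3])
    unfold Lam
    rw [g]
    generalize gn (pr3 v) = a
    ext i
    fin_cases i <;> simp [tube, cub0, pr3]
    ring
  rw [e]
  simpa using ((hasDerivAt_id (0 : ℝ)).smul_const (EuclideanSpace.single 3 ε : E 5)).const_add
    (Lam ε v)

theorem tl_Lam_c3 (ε : ℝ) (v : E 5) :
    HasDerivAt (fun t : ℝ => Lam ε (v + t • EuclideanSpace.single 3 1))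
      (ε • inc (pr3 (Lam ε v))) 0 := by
  have e : (fun t : ℝ => Lam ε (v + t • EuclideanSpace.single 3 1)) =
      fun t : ℝ => Lam ε v + (Real.exp (ε * t) - 1) • inc (pr3 (Lam ε v)) := by
    funext t
    have g : pr3 (v + t • EuclideanSpace.single 3 1) = pr3 v := by
      ext i
      fin_cases i <;> simp [pr3]
    unfold Lam
    rw [g]
    generalize gn (pr3 v) = a
    generalize cub0 (pr3 v) = b
    ext i
    fin_cases i <;> simp [tube, inc, pr3, mul_add, Real.exp_add] <;> ring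
  rw [e]
  have he : HasDerivAt (fun t : ℝ => Real.exp (ε * t) - 1) ε 0 := by
    simpa using ((hasDerivAt_id (0 : ℝ)).const_mul ε).exp.sub_const 1
  exact (he.smul_const _).const_add _

theorem tl_det (L : E 5 →L[ℝ] E 5) (x y ρ ε : ℝ) (r0 : ∀ ξ, L ξ 0 = x * L ξ 2 + ρ * ξ 0)
    (r1 : ∀ ξ, L ξ 1 = y * L ξ 2 + ρ * ξ 1)
    (c2 : L (EuclideanSpace.single 2 1) = EuclideanSpace.single 4 ε)
    (c4 : L (EuclideanSpace.single 4 1) = EuclideanSpace.single 3 ε)
    (c32 : L (EuclideanSpace.single 3 1) 2 = ε * ρ) (c33 : L (EuclideanSpace.single 3 1) 3 = 0)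
    (c34 : L (EuclideanSpace.single 3 1) 4 = 0) : L.det = ε ^ 3 * ρ ^ 3 := by
  have h : L = fr fun k => L (EuclideanSpace.single k 1) := by
    refine ContinuousLinearMap.ext fun u => ?_
    rw [fr_apply]
    simp only [← map_smul, ← map_sum]
    congr 1
    ext i
    fin_cases i <;> simp [Fin.sum_univ_succ]
  obtain ⟨a, ha⟩ : ∃ a, a = L (EuclideanSpace.single 0 1) := ⟨_, rfl⟩
  obtain ⟨b, hb⟩ : ∃ b, b = L (EuclideanSpace.single 1 1) := ⟨_, rfl⟩
  have h2 : (Matrix.of fun i k : Fin 5 => L (EuclideanSpace.single k 1) i) =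
      !![x * a 2 + ρ, x * b 2, 0, x * (ε * ρ), 0; y * a 2, y * b 2 + ρ, 0, y * (ε * ρ), 0;
        a 2, b 2, 0, ε * ρ, 0; a 3, b 3, 0, 0, ε; a 4, b 4, ε, 0, 0] := by
    ext i k
    fin_cases i <;> fin_cases k <;> simp [r0, r1, c2, c4, c32, c33, c34, ha, hb]
  rw [h, det_fr, h2]
  simp [Matrix.det_succ_row_zero, Fin.sum_univ_succ, Fin.succAbove]
  ring

theorem tl_div {V : Type} [NormedAddCommGroup V] [NormedSpace ℝ V] {c d : V → ℝ} {y : V}
    (hc : DifferentiableAt ℝ c y) (hd : DifferentiableAt ℝ d y) (h : d y ≠ 0) :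
    DifferentiableAt ℝ (fun z => c z / d z) y := by
  simp only [div_eq_mul_inv]
  exact hc.mul (hd.inv h)

theorem tl_imm {W : Type} [NormedAddCommGroup W] [NormedSpace ℝ W] {f : E 3 → W} {g : W → E 3}
    {u v : E 3} (hu : u ∈ S2) (hf : DifferentiableAt ℝ f u) (hg : DifferentiableAt ℝ g (f u))
    (hgf : ∀ x ∈ S2, g (f x) = x) (hv : ⟪u, v⟫ = 0) (h0 : fderiv ℝ f u v = 0) : v = 0 := by
  have hn : ‖u‖ = 1 := mem_sphere_zero_iff_norm.mp hu
  have hu0 : ({0}ᶜ : Set (E 3)) ∈ 𝓝 u := isOpen_compl_singleton.mem_nhds (ne_zero_of_S2 hu)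
  have d1 : DifferentiableAt ℝ (nrm : E 3 → E 3) u :=
    (contDiffOn_nrm.contDiffAt hu0).differentiableAt (by simp)
  have e1 : nrm u = u := nrm_of_S2 hu
  have f2 : HasFDerivAt f (fderiv ℝ f u) (nrm u) := by
    rw [e1]
    exact hf.hasFDerivAt
  have f3 : HasFDerivAt g (fderiv ℝ g (f u)) ((f ∘ nrm) u) := by
    rw [Function.comp_apply, e1]
    exact hg.hasFDerivAt
  have f4 := f3.comp u (f2.comp u d1.hasFDerivAt)
  have ev : (nrm : E 3 → E 3) =ᶠ[𝓝 u] g ∘ f ∘ nrm := by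
    filter_upwards [hu0] with x hx
    exact (hgf _ (nrm_mem hx)).symm
  have f5 := (f4.congr_of_eventuallyEq ev).fderiv
  have e2 : fderiv ℝ nrm u v = v := by
    rw [fderiv_nrm hn, hv, zero_smul, sub_zero]
  have e3 := congrArg (fun L : E 3 →L[ℝ] E 3 => L v) f5
  simp only [ContinuousLinearMap.comp_apply, e2, h0, map_zero] at e3
  exact e3

end Pool.Agent.CSP
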