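import Pool.Agent.Lib.MP_436e1a_gt.A.MapsL
import Pool.Agent.Lib.MP_436e1a_gt.A.TubeLX1

/-! Elementary properties of the explicit maps into `E 5`. -/

open scoped ContDiff RealInnerProductSpace Topology
open Set

namespace Pool.Agent.CSP

theorem contDiff_inc : ContDiff ℝ ∞ inc := by
  rw [contDiff_euclidean]
  intro i
  fin_cases i <;> simp [inc] <;> fun_prop

theorem contDiff_pr3 : ContDiff ℝ ∞ pr3 := by
  rw [contDiff_euclidean]
  intro i
  fin_cases i <;> simp [pr3] <;> fun_prop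

theorem pr3_inc (x : E 3) : pr3 (inc x) = x := by
  ext i
  fin_cases i <;> simp [pr3, inc]

theorem fderiv_inc (x v : E 3) : fderiv ℝ inc x v = inc v := by
  have h : inc = tl_incL := by
    funext y
    rfl
  rw [h, ContinuousLinearMap.fderiv]

theorem fderiv_pr3 (x v : E 5) : fderiv ℝ pr3 x v = pr3 v := by
  have h : pr3 = tl_prL := by
    funext y
    rfl
  rw [h, ContinuousLinearMap.fderiv]

theorem norm_inc (x : E 3) : ‖inc x‖ = ‖x‖ := by
  rw [EuclideanSpace.norm_eq, EuclideanSpace.norm_eq]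
  congr 1
  simp [Fin.sum_univ_succ, inc]

theorem inc_mem_Sc {x : E 3} : inc x ∈ Sc ↔ x ∈ S2 := by
  constructor
  · rintro ⟨y, hy, h⟩
    have h2 := congrArg pr3 h
    rw [pr3_inc, pr3_inc] at h2
    exact h2 ▸ hy
  · intro h
    exact ⟨x, h, rfl⟩

theorem mem_Sc {v : E 5} : v ∈ Sc ↔ pr3 v ∈ S2 ∧ v 3 = 0 ∧ v 4 = 0 := by
  constructor
  · rintro ⟨y, hy, rfl⟩
    refine ⟨by rw [pr3_inc]; exact hy, ?_, ?_⟩ <;> simp [inc]
  · rintro ⟨h, h3, h4⟩
    refine ⟨pr3 v, h, ?_⟩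
    ext i
    fin_cases i <;> simp [pr3, inc, h3, h4]

theorem isCompact_Sc : IsCompact Sc := by
  exact (isCompact_sphere (0 : E 3) 1).image contDiff_inc.continuous

theorem contDiff_tube : ContDiff ℝ ∞ fun p : E 3 × E 3 => tube p.1 p.2 := by
  rw [contDiff_euclidean]
  intro i
  fin_cases i <;> simp [tube] <;> fun_prop

theorem tube_zero (u : E 3) : tube u 0 = inc u := by
  ext i
  fin_cases i <;> simp [tube, inc]

theorem tube_inj {u u' w w' : E 3} (hu : u ∈ S2) (hu' : u' ∈ S2) (h : tube u w = tube u' w') :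
    u = u' ∧ w = w' := by
  constructor
  · have h1 := congrArg (fun v => nrm (pr3 v)) h
    simp only [tl_pr3_tube, nrm_smul (Real.exp_pos _), nrm_of_S2 hu, nrm_of_S2 hu'] at h1
    exact h1
  · have h1 := congrArg (fun v => ‖pr3 v‖) h
    simp only [tl_norm_pr3_tube hu, tl_norm_pr3_tube hu'] at h1
    have h0 : w 0 = w' 0 := Real.exp_injective h1
    have h3 : w 1 = w' 1 := by simpa [tube] using congrArg (fun v : E 5 => v 3) h
    have h4 : w 2 = w' 2 := by simpa [tube] using congrArg (fun v : E 5 => v 4) h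
    ext i
    fin_cases i
    · exact h0
    · exact h3
    · exact h4

theorem tube_mem_Sc {u w : E 3} (hu : u ∈ S2) : tube u w ∈ Sc ↔ w = 0 := by
  constructor
  · rintro ⟨y, hy, h⟩
    rw [← tube_zero] at h
    exact (tube_inj hy hu h).2.symm
  · rintro rfl
    rw [tube_zero]
    exact ⟨u, hu, rfl⟩

/-- the normal coordinate: `tube (nrm (pr3 v)) (tnu v) = v` -/
noncomputable def tnu (v : E 5) : E 3 := !₂[Real.log ‖pr3 v‖, v 3, v 4]

theorem tube_tnu {v : E 5} (h : pr3 v ≠ 0) : tube (nrm (pr3 v)) (tnu v) = v := by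
  have hn : 0 < ‖pr3 v‖ := norm_pos_iff.mpr h
  have he : Real.exp (tnu v 0) = ‖pr3 v‖ := by
    simp [tnu, Real.exp_log hn]
  have key : ∀ j : Fin 3, Real.exp (tnu v 0) * nrm (pr3 v) j = pr3 v j := by
    intro j
    rw [he]
    have h2 := congrArg (fun y : E 3 => y j) (norm_smul_nrm (pr3 v))
    simpa using h2
  have k0 := key 0
  have k1 := key 1
  have k2 := key 2
  ext i
  fin_cases i
  · simpa [tube, pr3] using k0
  · simpa [tube, pr3] using k1
  · simpa [tube, pr3] using k2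
  · simp [tube, tnu]
  · simp [tube, tnu]

theorem tnu_tube {u : E 3} (hu : u ∈ S2) (w : E 3) : tnu (tube u w) = w := by
  ext i
  fin_cases i
  · simp [tnu, tl_norm_pr3_tube hu]
  · simp [tnu, tube]
  · simp [tnu, tube]

theorem nrm_pr3_tube {u : E 3} (hu : u ∈ S2) (w : E 3) : nrm (pr3 (tube u w)) = u := by
  rw [tl_pr3_tube, nrm_smul (Real.exp_pos _), nrm_of_S2 hu]

theorem pr3_tube_ne {u : E 3} (hu : u ∈ S2) (w : E 3) : pr3 (tube u w) ≠ 0 := by
  rw [← norm_pos_iff, tl_norm_pr3_tube hu]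
  exact Real.exp_pos _

theorem contDiffOn_tnu : ContDiffOn ℝ ∞ tnu {v | pr3 v ≠ 0} := by
  rw [contDiffOn_euclidean]
  intro i
  fin_cases i
  · have h1 : ContDiffOn ℝ ∞ (fun v : E 5 => Real.log ‖pr3 v‖) {v | pr3 v ≠ 0} :=
      (contDiff_pr3.contDiffOn.norm ℝ fun v hv => hv).log fun v hv => norm_ne_zero_iff.mpr hv
    simpa [tnu] using h1
  · have h1 : ContDiffOn ℝ ∞ (fun v : E 5 => v 3) {v | pr3 v ≠ 0} := by fun_prop
    simpa [tnu] using h1
  · have h1 : ContDiffOn ℝ ∞ (fun v : E 5 => v 4) {v | pr3 v ≠ 0} := by fun_prop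
    simpa [tnu] using h1

theorem tl_isOpen : IsOpen {v : E 5 | pr3 v ≠ 0} :=
  isOpen_ne_fun contDiff_pr3.continuous continuous_const

theorem tl_diff_tnu {v : E 5} (h : pr3 v ≠ 0) : DifferentiableAt ℝ tnu v :=
  (contDiffOn_tnu.contDiffAt (tl_isOpen.mem_nhds h)).differentiableAt (by simp)

theorem fderiv_tnu {u : E 3} (hu : u ∈ S2) (ξ : E 5) :
    fderiv ℝ tnu (inc u) ξ = !₂[⟪u, pr3 ξ⟫, ξ 3, ξ 4] := by
  have hn : ‖u‖ = 1 := mem_sphere_zero_iff_norm.mp hu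
  have hd : DifferentiableAt ℝ tnu (inc u) :=
    tl_diff_tnu (by rw [pr3_inc]; exact ne_zero_of_S2 hu)
  have hp : HasFDerivAt pr3 tl_prL (inc u) := tl_prL.hasFDerivAt
  have hq := hp.norm_sq
  have hl := (hq.log (by rw [pr3_inc, hn]; norm_num)).const_mul (1 / 2 : ℝ)
  have e0 : (fun v : E 5 => tnu v 0) = fun v => (1 / 2 : ℝ) * Real.log (‖pr3 v‖ ^ 2) := by
    funext v
    rw [Real.log_pow]
    simp [tnu]
  ext i
  rw [tl_coord hd]
  fin_cases i
  · show fderiv ℝ (fun v : E 5 => tnu v 0) (inc u) ξ = _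
    rw [e0, hl.fderiv]
    simp [pr3_inc, hn, tl_prL_apply]
  · show fderiv ℝ (fun v : E 5 => tnu v 1) (inc u) ξ = _
    have e1 : (fun v : E 5 => tnu v 1) = (EuclideanSpace.proj 3 : E 5 →L[ℝ] ℝ) := by
      funext v
      simp [tnu]
    rw [e1, ContinuousLinearMap.fderiv]
    simp
  · show fderiv ℝ (fun v : E 5 => tnu v 2) (inc u) ξ = _
    have e1 : (fun v : E 5 => tnu v 2) = (EuclideanSpace.proj 4 : E 5 →L[ℝ] ℝ) := by
      funext v
      simp [tnu]
    rw [e1, ContinuousLinearMap.fderiv]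
    simp

/-- derivative of `w ↦ tube u w` at `0` -/
theorem fderiv_tube_zero (u w : E 3) :
    fderiv ℝ (tube u) 0 w = !₂[w 0 * u 0, w 0 * u 1, w 0 * u 2, w 1, w 2] := by
  have hd : DifferentiableAt ℝ (tube u) 0 :=
    ((contDiff_tube.comp (contDiff_const.prodMk contDiff_id)).differentiable (by simp)) 0
  refine tl_col hd ?_
  have he : HasDerivAt (fun t : ℝ => Real.exp (t * w 0)) (w 0) 0 := by
    simpa using ((hasDerivAt_id (0 : ℝ)).mul_const (w 0)).exp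
  refine tl_hasDerivAt fun i => ?_
  fin_cases i
  · simpa [tube] using he.mul_const (u 0)
  · simpa [tube] using he.mul_const (u 1)
  · simpa [tube] using he.mul_const (u 2)
  · simpa [tube] using (hasDerivAt_id (0 : ℝ)).mul_const (w 1)
  · simpa [tube] using (hasDerivAt_id (0 : ℝ)).mul_const (w 2)

/-- the thin tubes form a basis of neighbourhoods of the core -/
theorem exists_tube_subset {W : Set (E 5)} (hW : W ∈ 𝓝ˢ Sc) :
    ∃ δ > 0, ∀ u ∈ S2, ∀ w : E 3, ‖w‖ ≤ δ → tube u w ∈ W := by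
  obtain ⟨U, hU, hSU, hUW⟩ := mem_nhdsSet_iff_exists.mp hW
  have ho : IsOpen ((fun p : E 3 × E 3 => tube p.1 p.2) ⁻¹' U) :=
    hU.preimage contDiff_tube.continuous
  have hsub : S2 ×ˢ ({0} : Set (E 3)) ⊆ (fun p : E 3 × E 3 => tube p.1 p.2) ⁻¹' U := by
    rintro ⟨a, b⟩ ⟨ha, hb⟩
    have hb' : b = 0 := hb
    subst hb'
    exact hSU ((tube_mem_Sc ha).mpr rfl)
  obtain ⟨A, B, -, hB, hSA, h0B, hAB⟩ :=
    generalized_tube_lemma (isCompact_sphere (0 : E 3) 1) isCompact_singleton ho hsub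
  obtain ⟨δ, hδ, hball⟩ := Metric.nhds_basis_closedBall.mem_iff.mp (hB.mem_nhds (h0B rfl))
  refine ⟨δ, hδ, fun u hu w hw => hUW ?_⟩
  exact hAB (mk_mem_prod (hSA hu) (hball (mem_closedBall_zero_iff.mpr hw)))

theorem isOpen_thin_tube (δ : ℝ) : IsOpen {v : E 5 | pr3 v ≠ 0 ∧ ‖tnu v‖ < δ} := by
  exact contDiffOn_tnu.continuousOn.norm.isOpen_inter_preimage tl_isOpen (isOpen_Iio (a := δ))

theorem isCompact_thin_tube (δ : ℝ) : IsCompact {v : E 5 | pr3 v ≠ 0 ∧ ‖tnu v‖ ≤ δ} := by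
  have h : {v : E 5 | pr3 v ≠ 0 ∧ ‖tnu v‖ ≤ δ} =
      (fun p : E 3 × E 3 => tube p.1 p.2) '' (S2 ×ˢ Metric.closedBall (0 : E 3) δ) := by
    ext v
    constructor
    · rintro ⟨h1, h2⟩
      exact ⟨(nrm (pr3 v), tnu v), ⟨nrm_mem h1, mem_closedBall_zero_iff.mpr h2⟩, tube_tnu h1⟩
    · rintro ⟨⟨a, b⟩, ⟨ha, hb⟩, rfl⟩
      refine ⟨pr3_tube_ne ha b, ?_⟩
      show ‖tnu (tube a b)‖ ≤ δ
      rw [tnu_tube ha]
      exact mem_closedBall_zero_iff.mp hb
  rw [h]
  exact ((isCompact_sphere (0 : E 3) 1).prod (isCompact_closedBall _ _)).image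
    contDiff_tube.continuous

theorem rf5_tube (u w : E 3) : rf5 (tube u w) = tube (rf3 u) (rf3 w) := by
  ext i
  fin_cases i <;> simp [rf5, tube, rf3]

theorem rf5_rf5 (v : E 5) : rf5 (rf5 v) = v := by
  ext i
  fin_cases i <;> simp [rf5]

theorem rf5_inc (x : E 3) : rf5 (inc x) = inc (rf3 x) := by
  ext i
  fin_cases i <;> simp [rf5, inc, rf3]

theorem contDiff_rf5 : ContDiff ℝ ∞ rf5 := by
  rw [contDiff_euclidean]
  intro i
  fin_cases i <;> simp [rf5] <;> fun_prop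

theorem det_rf5 (v : E 5) : (fderiv ℝ rf5 v).det = 1 := by
  have h : rf5 = fr fun k => rf5 (EuclideanSpace.single k 1) := by
    funext y
    rw [fr_apply]
    ext i
    fin_cases i <;> simp [rf5, Fin.sum_univ_succ]
  have h2 : (Matrix.of fun i k : Fin 5 => rf5 (EuclideanSpace.single k 1) i) =
      Matrix.diagonal ![1, 1, -1, 1, -1] := by
    ext i k
    fin_cases i <;> fin_cases k <;> simp [rf5]
  rw [h, ContinuousLinearMap.fderiv, det_fr, h2, Matrix.det_diagonal]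
  simp [Fin.prod_univ_succ]

theorem contDiff_rfl5 : ContDiff ℝ ∞ rfl5 := by
  rw [contDiff_euclidean]
  intro i
  fin_cases i <;> simp [rfl5] <;> fun_prop

theorem rfl5_rfl5 (v : E 5) : rfl5 (rfl5 v) = v := by
  ext i
  fin_cases i <;> simp [rfl5]

theorem norm_rfl5 (v : E 5) : ‖rfl5 v‖ = ‖v‖ := by
  rw [EuclideanSpace.norm_eq, EuclideanSpace.norm_eq]
  congr 1
  simp [Fin.sum_univ_succ, rfl5]

theorem rfl5_smul (t : ℝ) (v : E 5) : rfl5 (t • v) = t • rfl5 v := by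
  ext i
  fin_cases i <;> simp [rfl5]

theorem det_rfl5 (v : E 5) : (fderiv ℝ rfl5 v).det = -1 := by
  have h : rfl5 = fr fun k => rfl5 (EuclideanSpace.single k 1) := by
    funext y
    rw [fr_apply]
    ext i
    fin_cases i <;> simp [rfl5, Fin.sum_univ_succ]
  have h2 : (Matrix.of fun i k : Fin 5 => rfl5 (EuclideanSpace.single k 1) i) =
      Matrix.diagonal ![1, 1, 1, 1, -1] := by
    ext i k
    fin_cases i <;> fin_cases k <;> simp [rfl5]
  rw [h, ContinuousLinearMap.fderiv, det_fr, h2, Matrix.det_diagonal]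
  simp [Fin.prod_univ_succ]

theorem contDiff_kap : ContDiff ℝ ∞ fun p : ℝ × E 3 => kap p.1 p.2 := by
  exact contDiff_tube.comp ((contDiff_gn.comp contDiff_snd).prodMk
    (contDiff_fst.smul (contDiff_cub0.comp contDiff_snd)))

theorem contDiff_Lam : ContDiff ℝ ∞ fun p : ℝ × E 5 => Lam p.1 p.2 := by
  have h1 : ContDiff ℝ ∞ fun v : E 5 => (!₂[v 3, v 4, 0] : E 3) := by
    rw [contDiff_euclidean]
    intro i
    fin_cases i <;> simp <;> fun_prop
  exact contDiff_tube.comp (((contDiff_gn.comp contDiff_pr3).comp contDiff_snd).prodMk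
    (contDiff_fst.smul (((contDiff_cub0.comp contDiff_pr3).add h1).comp contDiff_snd)))

theorem contDiffOn_sig : ContDiffOn ℝ ∞ (fun p : ℝ × E 3 => sig p.1 p.2) (univ ×ˢ {0}ᶜ) := by
  have h1 : ContDiffOn ℝ ∞ (fun p : ℝ × E 3 => dd p.2) (univ ×ˢ {0}ᶜ) :=
    contDiffOn_dd.comp contDiff_snd.contDiffOn fun p hp => hp.2
  have h2 : ContDiffOn ℝ ∞ (fun p : ℝ × E 3 => ‖cub0 p.2‖) (univ ×ˢ {0}ᶜ) :=
    (contDiff_cub0.comp contDiff_snd).contDiffOn.norm ℝ fun p hp => cub0_ne_zero hp.2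
  exact contDiff_tube.comp_contDiffOn (h1.prodMk
    ((contDiff_fst.contDiffOn.mul h2).smul (contDiff_gn.comp contDiff_snd).contDiffOn))

theorem contDiff_mer : ContDiff ℝ ∞ fun p : ℝ × E 3 => mer p.1 p.2 := by
  exact contDiff_tube.comp (contDiff_const.prodMk (contDiff_fst.smul contDiff_snd))

theorem contDiff_par : ContDiff ℝ ∞ fun p : ℝ × E 3 => par p.1 p.2 := by
  exact contDiff_tube.comp (contDiff_snd.prodMk (contDiff_fst.smul contDiff_const))

theorem Lam_inc (ε : ℝ) (u : E 3) : Lam ε (inc u) = kap ε u := by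
  have h : (!₂[inc u 3, inc u 4, 0] : E 3) = 0 := by
    ext i
    fin_cases i <;> simp [inc]
  unfold Lam kap
  rw [h, pr3_inc, add_zero]

theorem Lam_inj {ε : ℝ} (h : ε ≠ 0) : Function.Injective (Lam ε) := by
  intro v v' hv
  obtain ⟨h1, h2⟩ := tube_inj (gn_mem _) (gn_mem _) hv
  obtain ⟨a0, a1⟩ := gn_inj h1
  have h3 := smul_right_injective (E 3) h h2
  have b0 := congrArg (fun y : E 3 => y 0) h3
  have b1 := congrArg (fun y : E 3 => y 1) h3
  have b2 := congrArg (fun y : E 3 => y 2) h3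
  simp [pr3] at a0 a1
  simp [cub0, pr3, a0, a1] at b0 b1 b2
  ext i
  fin_cases i
  · exact a0
  · exact a1
  · exact b2
  · exact b0
  · exact b1

/-- Sketch. `Lam ε` has a smooth left inverse on the open half space `{v | 0 < v 2}` (so the
determinant never vanishes), at `0` the determinant is `ε ^ 3`, and `E 5` is connected. -/
theorem det_Lam {ε : ℝ} (h : 0 < ε) (v : E 5) : 0 < (fderiv ℝ (Lam ε) v).det := by
  have hd : DifferentiableAt ℝ (Lam ε) v :=
    ((contDiff_Lam.comp (contDiff_const.prodMk contDiff_id)).differentiable (by simp)) v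
  have hρ : 0 < Lam ε v 2 := by
    rw [tl_Lam2]
    exact mul_pos (Real.exp_pos _) (tl_gn2 _)
  have r0 := tl_rel hd 0 2 (tl_Lam0 ε)
  have r1 := tl_rel hd 1 2 (tl_Lam1 ε)
  have c2 : fderiv ℝ (Lam ε) v (EuclideanSpace.single 2 1) = EuclideanSpace.single 4 ε :=
    tl_col hd (tl_Lam_c2 ε v)
  have c4 : fderiv ℝ (Lam ε) v (EuclideanSpace.single 4 1) = EuclideanSpace.single 3 ε :=
    tl_col hd (tl_Lam_c4 ε v)
  have c3 := tl_col hd (tl_Lam_c3 ε v)
  rw [tl_det (fderiv ℝ (Lam ε) v) (v 0) (v 1) (Lam ε v 2) ε r0 r1 c2 c4 ?_ ?_ ?_]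
  · positivity
  · rw [c3]
    simp [inc, pr3]
  · rw [c3]
    simp [inc]
  · rw [c3]
    simp [inc]

theorem kap_not_mem {ε : ℝ} (h : ε ≠ 0) {u : E 3} (hu : u ∈ S2) : kap ε u ∉ Sc := by
  intro hm
  have h0 := (tube_mem_Sc (gn_mem u)).mp hm
  exact smul_ne_zero h (cub0_ne_zero (ne_zero_of_S2 hu)) h0

theorem sig_not_mem {ε : ℝ} (h : ε ≠ 0) {u : E 3} (hu : u ∈ S2) : sig ε u ∉ Sc := by
  intro hm
  have h0 := (tube_mem_Sc (dd_mem (ne_zero_of_S2 hu))).mp hm
  exact smul_ne_zero (mul_ne_zero h (norm_ne_zero_iff.mpr (cub0_ne_zero (ne_zero_of_S2 hu))))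
    (ne_zero_of_S2 (gn_mem u)) h0

theorem sig_zero (u : E 3) : sig 0 u = inc (dd u) := by
  unfold sig
  rw [zero_mul, zero_smul, tube_zero]

/-- a left inverse of `sig ε` on the sphere -/
noncomputable def tl_bk (ε : ℝ) (y : E 5) : E 3 :=
  !₂[tnu y 0 / tnu y 2, tnu y 1 / tnu y 2,
    ε⁻¹ * (tnu y 2 / gn !₂[tnu y 0 / tnu y 2, tnu y 1 / tnu y 2, 0] 2) * nrm (pr3 y) 2]

theorem tl_tnu_sig (ε : ℝ) {u : E 3} (hu : u ∈ S2) :
    tnu (sig ε u) = (ε * ‖cub0 u‖) • gn u :=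
  tnu_tube (dd_mem (ne_zero_of_S2 hu)) _

theorem tl_tnu_sig_ne {ε : ℝ} (h : ε ≠ 0) {u : E 3} (hu : u ∈ S2) : tnu (sig ε u) 2 ≠ 0 := by
  rw [tl_tnu_sig ε hu]
  exact mul_ne_zero (mul_ne_zero h (norm_ne_zero_iff.mpr (cub0_ne_zero (ne_zero_of_S2 hu))))
    (tl_gn2 u).ne'

theorem tl_back {ε : ℝ} (h : ε ≠ 0) {u : E 3} (hu : u ∈ S2) : tl_bk ε (sig ε u) = u := by
  have hN : ‖cub0 u‖ ≠ 0 := norm_ne_zero_iff.mpr (cub0_ne_zero (ne_zero_of_S2 hu))
  obtain ⟨c, hc, g0, g1, g2⟩ := tl_gn u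
  have t0 : tnu (sig ε u) 0 = ε * ‖cub0 u‖ * (c * u 0) := by
    rw [tl_tnu_sig ε hu, ← g0]
    rfl
  have t1 : tnu (sig ε u) 1 = ε * ‖cub0 u‖ * (c * u 1) := by
    rw [tl_tnu_sig ε hu, ← g1]
    rfl
  have t2 : tnu (sig ε u) 2 = ε * ‖cub0 u‖ * c := by
    rw [tl_tnu_sig ε hu, ← g2]
    rfl
  have q0 : tnu (sig ε u) 0 / tnu (sig ε u) 2 = u 0 := by
    rw [t0, t2]
    field_simp
  have q1 : tnu (sig ε u) 1 / tnu (sig ε u) 2 = u 1 := by
    rw [t1, t2]
    field_simp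
  have q2 : gn !₂[u 0, u 1, 0] = gn u := tl_gn_congr (by simp) (by simp)
  have q3 : nrm (pr3 (sig ε u)) = nrm (cub0 u) := by
    rw [← cub_eq_cub0 hu]
    exact nrm_pr3_tube (dd_mem (ne_zero_of_S2 hu)) _
  have q4 : ‖cub0 u‖ * nrm (cub0 u) 2 = u 2 := by
    have h2 := congrArg (fun y : E 3 => y 2) (norm_smul_nrm (cub0 u))
    have h3 : cub0 u 2 = u 2 := by simp [cub0]
    rw [← h3]
    exact h2
  unfold tl_bk
  rw [q0, q1, q2, q3, g2, t2]
  ext i
  fin_cases i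
  · simp
  · simp
  · show ε⁻¹ * (ε * ‖cub0 u‖ * c / c) * nrm (cub0 u) 2 = u 2
    rw [← q4]
    field_simp

theorem tl_diff_back {ε : ℝ} (h : ε ≠ 0) {u : E 3} (hu : u ∈ S2) :
    DifferentiableAt ℝ (tl_bk ε) (sig ε u) := by
  have hp : pr3 (sig ε u) ≠ 0 := pr3_tube_ne (dd_mem (ne_zero_of_S2 hu)) _
  have h2 := tl_tnu_sig_ne h hu
  generalize sig ε u = y at hp h2
  have dt : ∀ i, DifferentiableAt ℝ (fun z => tnu z i) y :=
    differentiableAt_euclidean.mp (tl_diff_tnu hp)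
  have d0 : DifferentiableAt ℝ (fun z => tnu z 0 / tnu z 2) y := tl_div (dt 0) (dt 2) h2
  have d1 : DifferentiableAt ℝ (fun z => tnu z 1 / tnu z 2) y := tl_div (dt 1) (dt 2) h2
  have da : DifferentiableAt ℝ
      (fun z => (!₂[tnu z 0 / tnu z 2, tnu z 1 / tnu z 2, 0] : E 3)) y := by
    rw [differentiableAt_euclidean]
    intro i
    fin_cases i
    · exact d0
    · exact d1
    · exact differentiableAt_const _
  have dg : DifferentiableAt ℝ
      (fun z => gn (!₂[tnu z 0 / tnu z 2, tnu z 1 / tnu z 2, 0] : E 3) 2) y :=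
    differentiableAt_euclidean.mp ((contDiff_gn.differentiable (by simp) _).comp y da) 2
  have dn : DifferentiableAt ℝ (fun z => nrm (pr3 z) 2) y :=
    differentiableAt_euclidean.mp (((contDiffOn_nrm.contDiffAt
      (isOpen_compl_singleton.mem_nhds hp)).differentiableAt (by simp)).comp y
      (contDiff_pr3.differentiable (by simp) y)) 2
  rw [differentiableAt_euclidean]
  intro i
  fin_cases i
  · exact d0
  · exact d1
  · exact ((tl_div (dt 2) dg (tl_gn2 _).ne').const_mul ε⁻¹).mul dn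

theorem sig_inj {ε : ℝ} (h : ε ≠ 0) : InjOn (sig ε) S2 := by
  intro u hu u' hu' he
  rw [← tl_back h hu, ← tl_back h hu', he]

/-- Sketch. On `S2` one has `swp (sig ε u) = kap ε u` (for `ε > 0`), where
`swp v = tube (nrm (tnu v)) (‖tnu v‖ • nrm (pr3 v))` is smooth near `sig ε u`; differentiate along the
sphere (compose with `nrm`), `kap ε = Lam ε ∘ inc` is an immersion. -/
theorem sig_imm {ε : ℝ} (h : 0 < ε) {u : E 3} (hu : u ∈ S2) {v : E 3} (hv : ⟪u, v⟫ = 0)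
    (h0 : fderiv ℝ (sig ε) u v = 0) : v = 0 := by
  have h1 : ContDiffOn ℝ ∞ (sig ε) {0}ᶜ :=
    contDiffOn_sig.comp (f := fun x : E 3 => (ε, x)) (contDiff_const.prodMk contDiff_id).contDiffOn
      fun x hx => ⟨mem_univ _, hx⟩
  exact tl_imm hu ((h1.contDiffAt
    (isOpen_compl_singleton.mem_nhds (ne_zero_of_S2 hu))).differentiableAt (by simp))
    (tl_diff_back h.ne' hu) (fun x hx => tl_back h.ne' hx) hv h0

/-- on the sphere, `kap` in the form in which a surgery produces it from `sig` -/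
theorem kap_eq {ε : ℝ} {u : E 3} (hu : u ∈ S2) :
    kap ε u = tube (gn u) ((ε * ‖cub0 u‖) • dd u) := by
  unfold kap dd
  rw [cub_eq_cub0 hu, mul_smul, norm_smul_nrm]

end Pool.Agent.CSP
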